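import Mathlib

set_option autoImplicit false

/-!
# The splitting number under a bound for the continuum function below `κ`
-/

namespace Pool.Agent.SKap

open Cardinal Ordinal Filter

universe u

/-- An injection of a type into the ordinals below its cardinality. -/
noncomputable def cd (T : Type u) (t : T) : Ordinal.{u} :=
  @Ordinal.typein T (exists_ord_eq T).choose (exists_ord_eq T).choose_spec.choose t

lemma cd_inj {T : Type u} {s t : T} (h : cd T s = cd T t) : s = t := by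
  have := (exists_ord_eq T).choose_spec.choose
  exact (Ordinal.typein_inj _).mp h

lemma cd_lt {T : Type u} (t : T) : cd T t < (#T).ord := by
  have h := (exists_ord_eq T).choose_spec
  have h1 := h.choose
  have h2 := h.choose_spec
  rw [h2]
  exact Ordinal.typein_lt_type _ _

/-- The elements below `κ`. -/
abbrev KK (κ : Cardinal.{u}) : Type u := κ.ord.ToType

/-- The rank. -/
noncomputable def rk {κ : Cardinal.{u}} (a : KK κ) : Ordinal.{u} := (ToType.mk.symm a).1

lemma rk_inj {κ : Cardinal.{u}} {a b : KK κ} (h : rk a = rk b) : a = b := by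
  have : ToType.mk.symm a = ToType.mk.symm b := Subtype.ext h
  exact ToType.mk.symm.injective this

lemma rk_lt {κ : Cardinal.{u}} (a : KK κ) : rk a < κ.ord := (ToType.mk.symm a).2

lemma exists_rk {κ : Cardinal.{u}} {β : Ordinal.{u}} (h : β < κ.ord) : ∃ a : KK κ, rk a = β :=
  ⟨ToType.mk ⟨β, h⟩, by simp [rk]⟩

lemma card_below {κ : Cardinal.{u}} (β : Ordinal.{u}) : #{a : KK κ // rk a < β} ≤ β.card := by
  rw [← mk_toType β]
  refine mk_le_of_injective (f := fun a => ToType.mk ⟨rk a.1, a.2⟩) ?_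
  intro a b h
  have h1 := ToType.mk.injective h
  have h2 : rk a.1 = rk b.1 := by
    have h3 := Subtype.ext_iff.mp h1
    exact h3
  exact Subtype.ext (rk_inj h2)

/-- The code of the part of `X` below `β`. -/
noncomputable def code {κ : Cardinal.{u}} (β : Ordinal.{u}) (X : Set (KK κ)) : Ordinal.{u} :=
  cd (Set {a : KK κ // rk a < β}) {a | a.1 ∈ X}

lemma code_lt {κ : Cardinal.{u}} (β : Ordinal.{u}) (X : Set (KK κ)) : code β X < ((2 : Cardinal.{u}) ^ β.card).ord := by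
  refine (cd_lt _).trans_le ?_
  rw [ord_le_ord, mk_set]
  exact power_le_power_left two_ne_zero (card_below β)

lemma code_inj {κ : Cardinal.{u}} {β : Ordinal.{u}} {X Y : Set (KK κ)} (h : code β X = code β Y) (a : KK κ)
    (ha : rk a < β) : a ∈ X ↔ a ∈ Y := by
  have h1 := cd_inj h
  have h2 := Set.ext_iff.mp h1 ⟨a, ha⟩
  exact h2

open Classical in
/-- The injection of `γ` into its cardinality. -/
noncomputable def ij (γ β : Ordinal.{u}) : Ordinal.{u} :=
  if h : β < γ then cd γ.ToType (ToType.mk ⟨β, h⟩) else 0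

lemma ij_lt {γ β : Ordinal.{u}} (h : β < γ) : ij γ β < γ.card.ord := by
  unfold ij
  rw [dif_pos h]
  refine (cd_lt _).trans_le ?_
  rw [mk_toType]

lemma ij_inj {γ β β' : Ordinal.{u}} (h : β < γ) (h' : β' < γ) (e : ij γ β = ij γ β') : β = β' := by
  unfold ij at e
  rw [dif_pos h, dif_pos h'] at e
  have := ToType.mk.injective (cd_inj e)
  exact congrArg Subtype.val this

/-- The `n`-th successor of a cardinal. -/
noncomputable def sn (n : ℕ) (c : Cardinal.{u}) : Cardinal.{u} := Order.succ^[n] c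

lemma sn_succ (n : ℕ) (c : Cardinal.{u}) : sn (n + 1) c = Order.succ (sn n c) := by
  unfold sn
  rw [Function.iterate_succ_apply']

lemma sn_mono (n : ℕ) : Monotone (sn.{u} n) := by
  intro a b h
  induction n with
  | zero => exact h
  | succ n ih =>
    rw [sn_succ, sn_succ]
    exact Order.succ_le_succ ih

lemma sn_lt (n : ℕ) (c : Cardinal.{u}) : sn n c < sn (n + 1) c := by
  rw [sn_succ]
  exact Order.lt_succ _

/-! ### Terms -/

/-- The function symbols. -/
inductive Sy (κ : Cardinal.{u}) (Ξ : Type u) : Type u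
  | con : KK κ → Sy κ Ξ
  | idt : Sy κ Ξ
  | cod : Ξ → Sy κ Ξ
  | car : ℕ → Sy κ Ξ
  | pw : Sy κ Ξ
  | ij : Sy κ Ξ

/-- The arities. -/
def ar {κ : Cardinal.{u}} {Ξ : Type u} : Sy κ Ξ → Type u
  | .con _ => ULift (Fin 0)
  | .idt => ULift (Fin 0)
  | .cod _ => ULift (Fin 1)
  | .car _ => ULift (Fin 1)
  | .pw => ULift (Fin 1)
  | .ij => ULift (Fin 2)

instance {κ : Cardinal.{u}} {Ξ : Type u} (s : Sy κ Ξ) : Finite (ar s) := by
  cases s <;> (unfold ar; infer_instance)

/-- The terms. -/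
abbrev Tm (κ : Cardinal.{u}) (Ξ : Type u) : Type u := WType (ar (κ := κ) (Ξ := Ξ))

/-- The evaluation of terms. -/
noncomputable def ev {κ : Cardinal.{u}} {Ξ : Type u} (x : Ξ → Set (KK κ)) : Tm κ Ξ → KK κ → Ordinal.{u}
  | .mk (.con c) _ => fun _ => rk c
  | .mk .idt _ => fun a => rk a
  | .mk (.cod ξ) f => fun a => code (ev x (f ⟨0⟩) a) (x ξ)
  | .mk (.car n) f => fun a => (sn n (ev x (f ⟨0⟩) a).card).ord
  | .mk .pw f => fun a => ((2 : Cardinal.{u}) ^ (ev x (f ⟨0⟩) a).card).ord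
  | .mk .ij f => fun a => Pool.Agent.SKap.ij (ev x (f ⟨0⟩) a) (ev x (f ⟨1⟩) a)

lemma card_Tm {κ : Cardinal.{u}} {Ξ : Type u} {l : Cardinal.{u}} (h0 : ℵ₀ ≤ l) (h1 : κ ≤ l) (h2 : #Ξ ≤ l) :
    #(Tm κ Ξ) ≤ l := by
  refine (WType.cardinalMk_le_max_aleph0_of_finite).trans (max_le ?_ h0)
  have e : #(Sy κ Ξ) ≤ #(Option (KK κ ⊕ Ξ ⊕ ULift.{u} ℕ ⊕ ULift.{u} (Fin 3))) := by
    refine mk_le_of_injective (f := fun s => match s with
      | .con c => some (Sum.inl c)
      | .idt => some (Sum.inr (Sum.inr (Sum.inr ⟨0⟩)))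
      | .cod ξ => some (Sum.inr (Sum.inl ξ))
      | .car n => some (Sum.inr (Sum.inr (Sum.inl ⟨n⟩)))
      | .pw => some (Sum.inr (Sum.inr (Sum.inr ⟨1⟩)))
      | .ij => some (Sum.inr (Sum.inr (Sum.inr ⟨2⟩)))) ?_
    intro s t h
    cases s <;> cases t <;> simp_all
  refine e.trans ?_
  have h3 : #(KK κ) ≤ l := by rw [mk_ord_toType]; exact h1
  have h4 : #(ULift.{u} ℕ) ≤ l := by simpa using h0
  have h5 : #(ULift.{u} (Fin 3)) ≤ l := (mk_le_aleph0).trans h0
  rw [mk_option, mk_sum, mk_sum, mk_sum]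
  simp only [Cardinal.lift_id]
  refine add_le_of_le h0 (add_le_of_le h0 h3 (add_le_of_le h0 h2 (add_le_of_le h0 h4 h5))) (one_le_aleph0.trans h0)

/-! ### The linear order on the terms -/

section order

variable {κ : Cardinal.{u}} {T : Type u} {𝓕 : Filter (KK κ)} {v : T → KK κ → Ordinal.{u}}

/-- The filter decides all comparisons between the functions. -/
def Dec (𝓕 : Filter (KK κ)) (v : T → KK κ → Ordinal.{u}) : Prop :=
  ∀ s t, (∀ᶠ a in 𝓕, v s a < v t a) ∨ (∀ᶠ a in 𝓕, ¬ v s a < v t a)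

lemma wf_lt [CountableInterFilter 𝓕] [𝓕.NeBot] {I : Type u} (f : I → KK κ → Ordinal.{u}) :
    WellFounded (fun i j : I => ∀ᶠ a in 𝓕, f i a < f j a) := by
  rw [wellFounded_iff_isEmpty_descending_chain]
  refine ⟨fun ⟨g, hg⟩ => ?_⟩
  have h1 : ∀ᶠ a in 𝓕, ∀ n : ℕ, f (g (n + 1)) a < f (g n) a := by
    rw [eventually_countable_forall]
    exact hg
  obtain ⟨a, ha⟩ := h1.exists
  have h2 := wellFounded_iff_isEmpty_descending_chain.mp (Ordinal.lt_wf.{u})
  exact h2.false ⟨fun n => f (g n) a, ha⟩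

end order

lemma seg_card {I : Type u} (r : I → I → Prop) [IsWellOrder I r] (c : Cardinal.{u})
    (h : ∀ j, #{i // r i j} ≤ c) : #I ≤ Order.succ c := by
  by_contra hc
  rw [not_le] at hc
  have h1 : (Order.succ c).ord < Ordinal.type r := by
    refine lt_of_lt_of_le (ord_lt_ord.mpr hc) ?_
    rw [ord_le, card_type]
  obtain ⟨j, hj⟩ := Ordinal.typein_surj r h1
  have h2 : #{i // r i j} = Order.succ c := by
    have h3 : (Ordinal.typein r j).card = #{i // r i j} := Ordinal.card_typein (r := r) j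
    rw [← h3, hj, card_ord]
  have h4 := h j
  rw [h2] at h4
  exact absurd h4 (not_le.mpr (Order.lt_succ c))

section main

variable {κ : Cardinal.{u}} {Ξ : Type u} (x : Ξ → Set (KK κ)) {𝓕 : Filter (KK κ)}

/-- The term for the injection. -/
def tij (s t : Tm κ Ξ) : Tm κ Ξ := .mk .ij (fun i => if i.down = 0 then s else t)

/-- The term for the code. -/
def tcod (ξ : Ξ) (t : Tm κ Ξ) : Tm κ Ξ := .mk (.cod ξ) (fun _ => t)

/-- The term for the power. -/
def tpw (t : Tm κ Ξ) : Tm κ Ξ := .mk .pw (fun _ => t)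

/-- The term for the successors. -/
def tcar (n : ℕ) (t : Tm κ Ξ) : Tm κ Ξ := .mk (.car n) (fun _ => t)

/-- The constants. -/
def tcon (c : KK κ) : Tm κ Ξ := .mk (.con c) (fun i => i.down.elim0)

/-- The identity. -/
def tid : Tm κ Ξ := .mk .idt (fun i => i.down.elim0)

lemma ev_tij (s t : Tm κ Ξ) (a : KK κ) : ev x (tij s t) a = ij (ev x s a) (ev x t a) := by
  unfold tij
  rw [ev]
  simp

lemma ev_tcod (ξ : Ξ) (t : Tm κ Ξ) (a : KK κ) : ev x (tcod ξ t) a = code (ev x t a) (x ξ) := by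
  unfold tcod
  rw [ev]

lemma ev_tpw (t : Tm κ Ξ) (a : KK κ) : ev x (tpw t) a = ((2 : Cardinal.{u}) ^ (ev x t a).card).ord := by
  unfold tpw
  rw [ev]

lemma ev_tcar (n : ℕ) (t : Tm κ Ξ) (a : KK κ) : ev x (tcar n t) a = (sn n (ev x t a).card).ord := by
  unfold tcar
  rw [ev]

lemma ev_tcon (c : KK κ) (a : KK κ) : ev x (tcon c) a = rk c := by
  unfold tcon
  rw [ev]

lemma ev_tid (a : KK κ) : ev x (tid : Tm κ Ξ) a = rk a := by
  unfold tid
  rw [ev]

/-- A least function which is not bounded by a constant. -/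
structure Least (g : Tm κ Ξ) (𝓕 : Filter (KK κ)) : Prop where
  unb : ∀ β < κ.ord, ∀ᶠ a in 𝓕, β < ev x g a
  con : ∀ t, (∀ᶠ a in 𝓕, ev x t a < ev x g a) → ∃ β < κ.ord, ∀ᶠ a in 𝓕, ev x t a = β
  lid : ∀ᶠ a in 𝓕, ev x g a ≤ rk a

lemma exists_least [CardinalInterFilter 𝓕 κ] [CountableInterFilter 𝓕] [𝓕.NeBot] (dec : Dec 𝓕 (ev x))
    (hid : ∀ β < κ.ord, ∀ᶠ a in 𝓕, β < rk a) : ∃ g, Least x g 𝓕 := by
  have wf := wf_lt (𝓕 := 𝓕) (fun t => ev x t)
  obtain ⟨g, hg, hmin⟩ := wf.has_min {t | ∀ β < κ.ord, ∀ᶠ a in 𝓕, β < ev x t a}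
    ⟨tid, fun β hβ => by simpa only [ev_tid] using hid β hβ⟩
  refine ⟨g, hg, ?_, ?_⟩
  · intro t ht
    have h1 : t ∉ {t | ∀ β < κ.ord, ∀ᶠ a in 𝓕, β < ev x t a} := fun h => hmin t h ht
    simp only [Set.mem_ofPred_eq, not_forall] at h1
    obtain ⟨β, hβ, hn⟩ := h1
    have key : ∀ δ < κ.ord, ¬ (∀ᶠ a in 𝓕, δ < ev x t a) → ∀ᶠ a in 𝓕, ev x t a ≤ δ := by
      intro δ hδ hnδ
      obtain ⟨b, hb⟩ := exists_rk hδ
      rcases dec (tcon b) t with h | h
      · simp only [ev_tcon, hb] at h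
        exact absurd h hnδ
      · simp only [ev_tcon, hb, not_lt] at h
        exact h
    have hle : ∃ γ, ∀ᶠ a in 𝓕, ev x t a ≤ γ := ⟨β, key β hβ hn⟩
    obtain ⟨γ, hγ, hγmin⟩ := Ordinal.lt_wf.has_min {γ | ∀ᶠ a in 𝓕, ev x t a ≤ γ} hle
    have hγκ : γ < κ.ord := by
      refine lt_of_le_of_lt ?_ hβ
      by_contra hc
      exact hγmin β (key β hβ hn) (not_le.mp hc)
    refine ⟨γ, hγκ, ?_⟩
    obtain ⟨c, hc⟩ := exists_rk hγκ
    rcases dec t (tcon c) with h | h
    · exfalso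
      simp only [ev_tcon, hc] at h
      have h2 : ∀ b : {b : KK κ // rk b < γ}, ∀ᶠ a in 𝓕, rk b.1 < ev x t a := by
        intro b
        by_contra hb
        exact hγmin _ (key _ (rk_lt b.1) hb) b.2
      have h3 : ∀ᶠ a in 𝓕, ∀ b : {b : KK κ // rk b < γ}, rk b.1 < ev x t a := by
        rw [eventually_cardinal_forall (c := κ)]
        · exact h2
        · exact (card_below γ).trans_lt (lt_ord.mp hγκ)
      obtain ⟨a, ha1, ha2⟩ := (h.and h3).exists
      obtain ⟨b, hb⟩ := exists_rk (ha1.trans hγκ)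
      have := ha2 ⟨b, by rw [hb]; exact ha1⟩
      simp only [hb] at this
      exact lt_irrefl _ this
    · simp only [ev_tcon, hc] at h
      filter_upwards [h, hγ] with a h1 h2
      exact le_antisymm h2 (not_lt.mp h1)
  · rcases dec tid g with h | h
    · exact absurd h (hmin tid (fun β hβ => by simpa only [ev_tid] using hid β hβ))
    · simp only [ev_tid, not_lt] at h
      exact h

lemma card_level [CardinalInterFilter 𝓕 κ] [CountableInterFilter 𝓕] [𝓕.NeBot] (dec : Dec 𝓕 (ev x))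
    {g : Tm κ Ξ} (hg : Least x g 𝓕) (k : ℕ) : ∀ (I : Type u) (F : I → Tm κ Ξ),
      (∀ i, ∀ᶠ a in 𝓕, ev x (F i) a < (sn k (ev x g a).card).ord) →
      (∀ i j, i ≠ j → ¬ ∀ᶠ a in 𝓕, ev x (F i) a = ev x (F j) a) → #I ≤ sn k κ := by
  induction k with
  | zero =>
    intro I F h1 h2
    have h3 : ∀ i, ∃ b : KK κ, ∀ᶠ a in 𝓕, ev x (F i) a = rk b := by
      intro i
      obtain ⟨β, hβ, h⟩ := hg.con (F i) ((h1 i).mono (fun a ha => ha.trans_le (by
        show (sn 0 (ev x g a).card).ord ≤ _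
        exact ord_card_le _)))
      obtain ⟨b, hb⟩ := exists_rk hβ
      exact ⟨b, by rw [hb]; exact h⟩
    choose b hb using h3
    have h4 : Function.Injective b := by
      intro i j e
      by_contra hij
      refine h2 i j hij ?_
      filter_upwards [hb i, hb j] with a ha ha'
      rw [ha, ha', e]
    have := mk_le_of_injective h4
    rw [mk_ord_toType] at this
    exact this
  | succ k ih =>
    intro I F h1 h2
    let r : I → I → Prop := fun i j => ∀ᶠ a in 𝓕, ev x (F i) a < ev x (F j) a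
    have wf : WellFounded r := wf_lt (𝓕 := 𝓕) (fun i => ev x (F i))
    have tr : ∀ i j k, r i j → r j k → r i k := by
      intro i j k hij hjk
      filter_upwards [hij, hjk] with a ha hb
      exact ha.trans hb
    have tc : ∀ i j, ¬ r i j → ¬ r j i → i = j := by
      intro i j hij hji
      by_contra hne
      refine h2 i j hne ?_
      have e1 := (dec (F i) (F j)).resolve_left hij
      have e2 := (dec (F j) (F i)).resolve_left hji
      filter_upwards [e1, e2] with a ha hb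
      exact le_antisymm (not_lt.mp hb) (not_lt.mp ha)
    have wo : IsWellOrder I r := { trichotomous := tc, wf := wf }
    rw [sn_succ]
    refine seg_card r _ (fun j => ?_)
    refine ih {i // r i j} (fun i => tij (F j) (F i.1)) ?_ ?_
    · rintro ⟨i, hi⟩
      filter_upwards [hi, h1 j] with a ha hb
      rw [ev_tij]
      refine (ij_lt ha).trans_le ?_
      rw [ord_le_ord]
      rw [lt_ord, sn_succ, Order.lt_succ_iff] at hb
      exact hb
    · rintro ⟨i, hi⟩ ⟨i', hi'⟩ hne he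
      refine h2 i i' (fun e => hne (Subtype.ext e)) ?_
      filter_upwards [hi, hi', he] with a ha hb hc
      simp only [ev_tij] at hc
      exact ij_inj ha hb hc

end main

/-- `S` splits `A`: both parts of `A` have the full cardinality. -/
def Splits {α : Type u} (S A : Set α) : Prop := #(A ∩ S : Set α) = #α ∧ #(A \ S : Set α) = #α

/-- A family of subsets of `α` is splitting if every subset of full cardinality is split by a member. -/
def IsSplitting {α : Type u} (𝒮 : Set (Set α)) : Prop := ∀ A : Set α, #A = #α → ∃ S ∈ 𝒮, Splits S A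

/-- The splitting number of the cardinal `κ`. -/
noncomputable def splittingNumber (κ : Cardinal.{u}) : Cardinal.{u} :=
  sInf {μ | ∃ 𝒮 : Set (Set κ.ord.ToType), #𝒮 = μ ∧ IsSplitting 𝒮}

theorem splitting_core {κ : Cardinal.{u}} (hκ : κ.IsRegular) (h0 : ℵ₀ < κ) {Ξ : Type u} (x : Ξ → Set (KK κ))
    (hx : Function.Injective x)
    (h : ∀ (𝓕 : Filter (KK κ)) [CountableInterFilter 𝓕] [𝓕.NeBot] (g : Tm κ Ξ), Dec 𝓕 (ev x) →
      (∀ᶠ a in 𝓕, ℵ₀ ≤ (ev x g a).card ∧ (ev x g a).card < κ) → ∃ n : ℕ, sn n κ < #Ξ ∧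
        ∀ᶠ a in 𝓕, ((2 : Cardinal.{u}) ^ (ev x g a).card).ord ≤ (sn n (ev x g a).card).ord) :
    IsSplitting (Set.range (fun p : Tm κ Ξ × Tm κ Ξ => {a | ev x p.1 a < ev x p.2 a})) := by
  intro A hA
  by_contra hc
  push Not at hc
  have mkK : #(KK κ) = κ := mk_ord_toType κ
  rw [mkK] at hA
  let 𝓕 : Filter (KK κ) := cocardinal (KK κ) hκ ⊓ 𝓟 A
  have i1 : CardinalInterFilter 𝓕 κ := by infer_instance
  have i2 : CountableInterFilter 𝓕 := CardinalInterFilter.toCountableInterFilter 𝓕 h0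
  have i3 : 𝓕.NeBot := cocardinal_inf_principal_neBot_iff.mpr hA.ge
  have ev𝓕 : ∀ P : KK κ → Prop, #{a | a ∈ A ∧ ¬ P a} < κ → ∀ᶠ a in 𝓕, P a := by
    intro P hP
    rw [eventually_inf_principal, eventually_cocardinal]
    refine lt_of_le_of_lt (mk_le_mk_of_subset ?_) hP
    intro a ha
    simp only [Set.mem_ofPred_eq, Classical.not_imp] at ha ⊢
    exact ha
  have dec : Dec 𝓕 (ev x) := by
    intro s t
    have h1 := hc _ ⟨(s, t), rfl⟩
    unfold Splits at h1
    rw [mkK] at h1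
    have l1 : ∀ B : Set (KK κ), #B ≤ κ := fun B => (mk_set_le B).trans_eq mkK
    by_cases h2 : #(A ∩ {a | ev x s a < ev x t a} : Set (KK κ)) = κ
    · left
      refine ev𝓕 _ (lt_of_le_of_ne (l1 _) (fun e => h1 ⟨h2, ?_⟩))
      exact e
    · right
      refine ev𝓕 _ (lt_of_le_of_ne (l1 _) (fun e => h2 ?_))
      simp only [not_not] at e
      exact e
  have hid : ∀ β < κ.ord, ∀ᶠ a in 𝓕, β < rk a := by
    intro β hβ
    refine ev𝓕 _ ?_
    have e1 : {a : KK κ | a ∈ A ∧ ¬ β < rk a} ⊆ {a : KK κ | rk a < Order.succ β} := by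
      rintro a ⟨_, ha⟩
      exact Order.lt_succ_iff.mpr (not_lt.mp ha)
    refine (mk_le_mk_of_subset e1).trans_lt ((card_below _).trans_lt ?_)
    rw [← lt_ord]
    exact (isSuccLimit_ord h0.le).succ_lt hβ
  obtain ⟨g, hg⟩ := exists_least x dec hid
  have hinf : ∀ᶠ a in 𝓕, ℵ₀ ≤ (ev x g a).card := by
    refine (hg.unb ω (by rw [← ord_aleph0]; exact ord_lt_ord.mpr h0)).mono (fun a ha => ?_)
    have h1 := Ordinal.card_le_card ha.le
    rwa [card_omega0] at h1
  obtain ⟨n, hΞ, hn⟩ := h 𝓕 g dec (hinf.and (hg.lid.mono (fun a ha => lt_ord.mp (ha.trans_lt (rk_lt a)))))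
  have key := card_level x dec hg n Ξ (fun ξ => tcod ξ g) ?_ ?_
  · exact absurd key (not_le.mpr hΞ)
  · intro ξ
    filter_upwards [hn] with a ha
    rw [ev_tcod]
    exact (code_lt _ _).trans_le ha
  · intro ξ ξ' hne he
    refine hne (hx ?_)
    ext b
    obtain ⟨a, ha, hb⟩ := (he.and (hg.unb (rk b) (rk_lt b))).exists
    simp only [ev_tcod] at ha
    exact code_inj ha b hb

theorem splitting_family {κ : Cardinal.{u}} (hκ : κ.IsRegular) (h0 : ℵ₀ < κ)
    (h : ∀ a : Cardinal.{u}, ℵ₀ ≤ a → a < κ → ∃ n : ℕ, 2 ^ a ≤ sn n a) {Ξ : Type u} (x : Ξ → Set (KK κ)) (hx : Function.Injective x)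
    (hΞ : ∀ n : ℕ, sn n κ < #Ξ) :
    IsSplitting (Set.range (fun p : Tm κ Ξ × Tm κ Ξ => {a | ev x p.1 a < ev x p.2 a})) := by
  refine splitting_core hκ h0 x hx (fun 𝓕 i1 i2 g dec hg => ?_)
  have hn : ∃ n : ℕ, ∀ᶠ a in 𝓕, ((2 : Cardinal.{u}) ^ (ev x g a).card).ord ≤ (sn n (ev x g a).card).ord := by
    by_contra hno
    push Not at hno
    have h1 : ∀ n : ℕ, ∀ᶠ a in 𝓕, (sn n (ev x g a).card).ord < ((2 : Cardinal.{u}) ^ (ev x g a).card).ord := by
      intro n
      rcases dec (tcar n g) (tpw g) with h2 | h2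
      · simpa only [ev_tcar, ev_tpw] using h2
      · simp only [ev_tcar, ev_tpw, not_lt] at h2
        exact absurd (h2.mono (fun a ha => not_lt.mpr ha)) (hno n)
    have h2 : ∀ᶠ a in 𝓕, ∀ n : ℕ, (sn n (ev x g a).card).ord < ((2 : Cardinal.{u}) ^ (ev x g a).card).ord := by
      rw [eventually_countable_forall]
      exact h1
    obtain ⟨a, ha, hb⟩ := (h2.and hg).exists
    obtain ⟨n, hn⟩ := h (ev x g a).card hb.1 hb.2
    exact absurd (ha n) (not_lt.mpr (ord_le_ord.mpr hn))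
  obtain ⟨n, hn⟩ := hn
  exact ⟨n, hΞ n, hn⟩

theorem splitting_family_fin {κ : Cardinal.{u}} (hκ : κ.IsRegular) (h0 : ℵ₀ < κ) (n : ℕ)
    (h : ∀ a : Cardinal.{u}, ℵ₀ ≤ a → a < κ → 2 ^ a ≤ sn n a) {Ξ : Type u} (x : Ξ → Set (KK κ)) (hx : Function.Injective x)
    (hΞ : sn n κ < #Ξ) :
    IsSplitting (Set.range (fun p : Tm κ Ξ × Tm κ Ξ => {a | ev x p.1 a < ev x p.2 a})) :=
  splitting_core hκ h0 x hx (fun _ _ _ _ _ hg => ⟨n, hΞ, hg.mono (fun _ ha => ord_le_ord.mpr (h _ ha.1 ha.2))⟩)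

theorem splittingNumber_le {κ : Cardinal.{u}} {μ : Cardinal.{u}} {𝒮 : Set (Set κ.ord.ToType)} (h : IsSplitting 𝒮)
    (hμ : #𝒮 ≤ μ) : splittingNumber κ ≤ μ := by
  have h1 : #𝒮 ∈ {μ | ∃ 𝒮 : Set (Set κ.ord.ToType), #𝒮 = μ ∧ IsSplitting 𝒮} := ⟨𝒮, rfl, h⟩
  exact (csInf_le' h1).trans hμ

/-- The family of all subsets is splitting, for infinite `κ`. -/
theorem splitting_univ {κ : Cardinal.{u}} (h0 : ℵ₀ ≤ κ) : IsSplitting (Set.univ : Set (Set κ.ord.ToType)) := by
  intro A hA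
  have mkK : #(KK κ) = κ := mk_ord_toType κ
  have e : #A = #A + #A := by
    rw [hA, mkK, add_eq_self h0]
  have e2 : #A = #(A ⊕ A) := by rw [mk_sum, Cardinal.lift_id, ← e]
  obtain ⟨f⟩ := Cardinal.eq.mp e2
  refine ⟨Subtype.val '' (f ⁻¹' (Set.range Sum.inl)), Set.mem_univ _, ?_, ?_⟩
  · refine le_antisymm ((mk_set_le _)) ?_
    rw [← hA]
    refine mk_le_of_injective (f := fun a : A => (⟨(f.symm (Sum.inl a)).1, (f.symm (Sum.inl a)).2,
      ⟨f.symm (Sum.inl a), by simp, rfl⟩⟩ : (A ∩ Subtype.val '' (f ⁻¹' (Set.range Sum.inl)) : Set (KK κ)))) ?_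
    intro a b hab
    have h1 := congrArg Subtype.val hab
    have h2 := f.symm.injective (Subtype.ext h1)
    exact Sum.inl_injective h2
  · refine le_antisymm ((mk_set_le _)) ?_
    rw [← hA]
    refine mk_le_of_injective (f := fun a : A => (⟨(f.symm (Sum.inr a)).1, (f.symm (Sum.inr a)).2, ?_⟩ :
      (A \ Subtype.val '' (f ⁻¹' (Set.range Sum.inl)) : Set (KK κ)))) ?_
    · rintro ⟨y, hy, e3⟩
      have e4 : y = f.symm (Sum.inr a) := Subtype.ext e3
      rw [e4] at hy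
      simp at hy
    intro a b hab
    have h1 := congrArg Subtype.val hab
    have h2 := f.symm.injective (Subtype.ext h1)
    exact Sum.inr_injective h2

theorem splittingNumber_le_power {κ : Cardinal.{u}} (h0 : ℵ₀ ≤ κ) : splittingNumber κ ≤ 2 ^ κ := by
  refine splittingNumber_le (splitting_univ h0) ?_
  rw [mk_univ, mk_set, mk_ord_toType]

lemma bdd_sn (κ : Cardinal.{u}) : BddAbove (Set.range (fun n : ℕ => (Order.succ^[n]) κ)) :=
  bddAbove_of_small

lemma range_card {κ : Cardinal.{u}} {l : Cardinal.{u}} (h0 : ℵ₀ ≤ κ) (hκl : κ ≤ l) (x : l.out → Set (KK κ)) :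
    #(Set.range (fun p : Tm κ l.out × Tm κ l.out => {a | ev x p.1 a < ev x p.2 a})) ≤ l := by
  have h3 := card_Tm (κ := κ) (Ξ := l.out) (h0.trans hκl) hκl (mk_out l).le
  refine mk_range_le.trans ?_
  rw [mk_prod, Cardinal.lift_id]
  exact mul_le_of_le (h0.trans hκl) h3 h3

theorem main {κ : Cardinal.{u}} (hκ : κ.IsRegular) (h0 : ℵ₀ < κ)
    (h : ∀ a : Cardinal.{u}, ℵ₀ ≤ a → a < κ → ∃ n : ℕ, 2 ^ a ≤ (Order.succ^[n]) a) : splittingNumber κ ≤ ⨆ n : ℕ, (Order.succ^[n]) κ := by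
  set l := ⨆ n : ℕ, (Order.succ^[n]) κ with hl
  have hle : ∀ n : ℕ, sn n κ ≤ l := fun n => le_ciSup (bdd_sn κ) n
  rcases le_total (2 ^ κ) l with h1 | h1
  · exact (splittingNumber_le_power h0.le).trans h1
  · have h2 : #l.out ≤ #(Set (KK κ)) := by
      rw [mk_out, mk_set, mk_ord_toType]; exact h1
    obtain ⟨x⟩ := h2
    have hlt : ∀ n : ℕ, sn n κ < #l.out := fun n => by
      rw [mk_out]
      exact (sn_lt n κ).trans_le (hle (n + 1))
    exact splittingNumber_le (splitting_family hκ h0 h x x.injective hlt) (range_card h0.le (hle 0) x)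

theorem main_fin {κ : Cardinal.{u}} (hκ : κ.IsRegular) (h0 : ℵ₀ < κ) (n : ℕ)
    (h : ∀ a : Cardinal.{u}, ℵ₀ ≤ a → a < κ → 2 ^ a ≤ (Order.succ^[n]) a) : splittingNumber κ ≤ (Order.succ^[n + 1]) κ := by
  have hle : κ ≤ sn (n + 1) κ := by
    have : ∀ m : ℕ, κ ≤ sn m κ := by
      intro m
      induction m with
      | zero => exact le_rfl
      | succ m ih => exact ih.trans (sn_lt m κ).le
    exact this _
  rcases le_total (2 ^ κ) (sn (n + 1) κ) with h1 | h1
  · exact (splittingNumber_le_power h0.le).trans h1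
  · have h2 : #(sn (n + 1) κ).out ≤ #(Set (KK κ)) := by
      rw [mk_out, mk_set, mk_ord_toType]; exact h1
    obtain ⟨x⟩ := h2
    have hlt : sn n κ < #(sn (n + 1) κ).out := by
      rw [mk_out]
      exact sn_lt n κ
    exact splittingNumber_le (splitting_family_fin hκ h0 n h x x.injective hlt) (range_card h0.le hle x)

theorem main_singular {κ : Cardinal.{u}} (hκ : κ.IsRegular) (h0 : ℵ₀ < κ)
    (h : ∀ a : Cardinal.{u}, ℵ₀ ≤ a → a < κ → ∃ n : ℕ, 2 ^ a ≤ (Order.succ^[n]) a) (h1 : κ < splittingNumber κ)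
    (h2 : ¬ (splittingNumber κ).IsRegular) : splittingNumber κ = ⨆ n : ℕ, (Order.succ^[n]) κ := by
  refine le_antisymm (main hκ h0 h) ?_
  refine ciSup_le' (fun n => ?_)
  have key : ∀ n : ℕ, sn n κ < splittingNumber κ := by
    intro n
    induction n with
    | zero => exact h1
    | succ n ih =>
      have h3 : sn (n + 1) κ ≤ splittingNumber κ := by
        rw [sn_succ]; exact Order.succ_le_of_lt ih
      refine lt_of_le_of_ne h3 (fun e => h2 ?_)
      rw [← e, sn_succ]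
      refine isRegular_succ ?_
      have : ∀ m : ℕ, κ ≤ sn m κ := by
        intro m
        induction m with
        | zero => exact le_rfl
        | succ m ih => exact ih.trans (sn_lt m κ).le
      exact h0.le.trans (this n)
  exact (key n).le

end Pool.Agent.SKap
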