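import Mathlib
import Pool.Agent.SplK.Defs

set_option autoImplicit false
set_option linter.all false

/-!
# Definitions for the iteration (block A of MP_72b20c_lc)
-/

namespace Pool.Agent.SKap

open Cardinal Pool.Agent.SplK

/-! ### Forcing with a preorder -/

section pre

variable {A : Type} [Preorder A]

/-- `p` forces that the generic filter meets `b`. -/
def Fo (b : Set A) (p : A) : Prop := ∀ q ≤ p, ∃ r ≤ q, ∃ s ∈ b, r ≤ s

/-- `p` is incompatible with all elements of `b`. -/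
def Ic (b : Set A) (p : A) : Prop := ∀ s ∈ b, ∀ q ≤ p, ¬ q ≤ s

/-- `p` and `q` are compatible. -/
def Cpt (p q : A) : Prop := ∃ r, r ≤ p ∧ r ≤ q

/-- The elements of `S` are pairwise incompatible. -/
def Anti (S : Set A) : Prop := ∀ p ∈ S, ∀ q ∈ S, Cpt p q → p = q

lemma Fo.down {b : Set A} {p q : A} (h : Fo b p) (hq : q ≤ p) : Fo b q := fun r hr => h r (hr.trans hq)

lemma Ic.down {b : Set A} {p q : A} (h : Ic b p) (hq : q ≤ p) : Ic b q := fun s hs r hr => h s hs r (hr.trans hq)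

lemma Fo.dense {b : Set A} {p : A} (h : ∀ q ≤ p, ∃ r ≤ q, Fo b r) : Fo b p := by
  intro q hq
  obtain ⟨r, hr, h1⟩ := h q hq
  obtain ⟨u, hu, s, hs, hus⟩ := h1 r le_rfl
  exact ⟨u, hu.trans hr, s, hs, hus⟩

lemma Ic.dense {b : Set A} {p : A} (h : ∀ q ≤ p, ∃ r ≤ q, Ic b r) : Ic b p := by
  intro s hs q hq hqs
  obtain ⟨r, hr, h1⟩ := h q hq
  exact h1 s hs r le_rfl (hr.trans hqs)

lemma Fo.of_mem {b : Set A} {p s : A} (hs : s ∈ b) (h : p ≤ s) : Fo b p := fun q hq => ⟨q, le_rfl, s, hs, hq.trans h⟩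

lemma Fo.of_sub {b c : Set A} {p : A} (h : Fo b p) (hbc : ∀ s ∈ b, Fo c s) : Fo c p := by
  refine Fo.dense fun q hq => ?_
  obtain ⟨r, hr, s, hs, hrs⟩ := h q hq
  exact ⟨r, hr, (hbc s hs).down hrs⟩

lemma Fo.not_ic {b : Set A} {p : A} (h : Fo b p) (h1 : Ic b p) : False := by
  obtain ⟨r, hr, s, hs, hrs⟩ := h p le_rfl
  exact h1 s hs r hr hrs

lemma fo_or_ic (b : Set A) (p : A) : Fo b p ∨ ∃ q ≤ p, Ic b q := by
  by_cases h : Fo b p
  · exact Or.inl h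
  · right
    unfold Fo at h
    push Not at h
    obtain ⟨q, hq, h⟩ := h
    exact ⟨q, hq, fun s hs r hr => h r hr s hs⟩

lemma ic_or_fo (b : Set A) (p : A) : Ic b p ∨ ∃ q ≤ p, Fo b q := by
  by_cases h : Ic b p
  · exact Or.inl h
  · right
    unfold Ic at h
    push Not at h
    obtain ⟨s, hs, q, hq, h⟩ := h
    exact ⟨q, hq, Fo.of_mem hs h⟩

end pre

/-- The function `U` is a name of a nonprincipal `#K`-complete ultrafilter on `K`: `U N p` means that `p` forces that the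
subset of `K` with the name `N` belongs to the ultrafilter. Here `p` forces `x ∈ N` if `Fo (N x) p`. -/
structure MeasU (K A : Type) [LinearOrder K] [Preorder A] (U : (K → Set A) → A → Prop) : Prop where
  down : ∀ N p q, U N p → q ≤ p → U N q
  dense : ∀ N p, (∀ q ≤ p, ∃ r ≤ q, U N r) → U N p
  mono : ∀ N N' p, U N p → (∀ x, ∀ q ≤ p, Fo (N x) q → Fo (N' x) q) → U N' p
  dec : ∀ N p, ∃ q ≤ p, U N q ∨ U (fun x => {r | Ic (N x) r}) q
  compl : ∀ (ι : Type) (N : ι → K → Set A) p, #ι < #K → (∀ i, U (N i) p) → U (fun x => {q | ∀ i, Fo (N i x) q}) p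
  unb : ∀ N p, U N p → ∀ ν, ∃ q ≤ p, ∃ x, ν < x ∧ Fo (N x) q
  triv : ∀ N p, (∀ x, ∀ q ≤ p, Fo (N x) q) → U N p

/-! ### Forcing with an indexed family of relations -/

section rel

variable {R T : Type} [Preorder R]

/-- The condition `(r, q)` forces that the generic filter meets `b`; the order is given by `L`. -/
def FoL (L : R → T → T → Prop) (b : Set (R × T)) (r : R) (q : T) : Prop :=
  ∀ r' ≤ r, ∀ q', L r' q' q → ∃ r'' ≤ r', ∃ q'', L r'' q'' q' ∧ ∃ s ∈ b, r'' ≤ s.1 ∧ L r'' q'' s.2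

/-- The condition `(r, q)` is incompatible with all elements of `b`. -/
def IcL (L : R → T → T → Prop) (b : Set (R × T)) (r : R) (q : T) : Prop :=
  ∀ s ∈ b, ∀ r' ≤ r, ∀ q', L r' q' q → ¬ (r' ≤ s.1 ∧ L r' q' s.2)

/-- The set `b` of pairs as a set of conditions of the two step iteration. -/
def up (P : RPos R T) (b : Set (R × T)) : Set (Star P) := {u | (u.r, u.t) ∈ b}

lemma foL_iff (P : RPos R T) (b : Set (R × T)) (r : R) (q : T) : FoL P.le b r q ↔ Fo (up P b) (⟨r, q⟩ : Star P) := by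
  constructor
  · rintro h ⟨r', q'⟩ ⟨h1, h2⟩
    obtain ⟨r'', h3, q'', h4, s, hs, h5, h6⟩ := h r' h1 q' h2
    exact ⟨⟨r'', q''⟩, ⟨h3, h4⟩, ⟨s.1, s.2⟩, hs, ⟨h5, h6⟩⟩
  · intro h r' h1 q' h2
    obtain ⟨⟨r'', q''⟩, ⟨h3, h4⟩, ⟨s1, s2⟩, hs, ⟨h5, h6⟩⟩ := h ⟨r', q'⟩ ⟨h1, h2⟩
    exact ⟨r'', h3, q'', h4, (s1, s2), hs, h5, h6⟩

lemma icL_iff (P : RPos R T) (b : Set (R × T)) (r : R) (q : T) : IcL P.le b r q ↔ Ic (up P b) (⟨r, q⟩ : Star P) := by
  constructor
  · rintro h ⟨s1, s2⟩ hs ⟨r', q'⟩ ⟨h1, h2⟩ ⟨h3, h4⟩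
    exact h (s1, s2) hs r' h1 q' h2 ⟨h3, h4⟩
  · rintro h ⟨s1, s2⟩ hs r' h1 q' h2 ⟨h3, h4⟩
    exact h ⟨s1, s2⟩ hs ⟨r', q'⟩ ⟨h1, h2⟩ ⟨h3, h4⟩

lemma foL_down (P : RPos R T) {b : Set (R × T)} {r r' : R} {q q' : T} (h : FoL P.le b r q) (hr : r' ≤ r)
    (hq : P.le r' q' q) : FoL P.le b r' q' :=
  fun r₁ h1 q₁ h2 => h r₁ (h1.trans hr) q₁ (P.trans _ _ _ _ h2 (P.mono _ _ _ _ h1 hq))

lemma icL_down (P : RPos R T) {b : Set (R × T)} {r r' : R} {q q' : T} (h : IcL P.le b r q) (hr : r' ≤ r)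
    (hq : P.le r' q' q) : IcL P.le b r' q' :=
  fun s hs r₁ h1 q₁ h2 => h s hs r₁ (h1.trans hr) q₁ (P.trans _ _ _ _ h2 (P.mono _ _ _ _ h1 hq))

lemma foL_dense (P : RPos R T) {b : Set (R × T)} {r : R} {q : T}
    (h : ∀ r' ≤ r, ∀ q', P.le r' q' q → ∃ r'' ≤ r', ∃ q'', P.le r'' q'' q' ∧ FoL P.le b r'' q'') : FoL P.le b r q := by
  intro r' h1 q' h2
  obtain ⟨r'', h3, q'', h4, h5⟩ := h r' h1 q' h2
  obtain ⟨r₁, h6, q₁, h7, s, hs, h8, h9⟩ := h5 r'' le_rfl q'' (P.refl _ _)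
  exact ⟨r₁, h6.trans h3, q₁, P.trans _ _ _ _ h7 (P.mono _ _ _ _ h6 h4), s, hs, h8, h9⟩

/-- It suffices to have the property densely with respect to the first coordinate. -/
lemma foL_denseR (P : RPos R T) {b : Set (R × T)} {r : R} {q : T}
    (h : ∀ r' ≤ r, ∃ r'' ≤ r', FoL P.le b r'' q) : FoL P.le b r q := by
  refine foL_dense P fun r' h1 q' h2 => ?_
  obtain ⟨r'', h3, h4⟩ := h r' h1
  exact ⟨r'', h3, q', P.refl _ _, foL_down P h4 le_rfl (P.mono _ _ _ _ h3 h2)⟩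

lemma foL_not_icL (P : RPos R T) {b : Set (R × T)} {r : R} {q : T} (h : FoL P.le b r q) (h1 : IcL P.le b r q) : False := by
  obtain ⟨r', h2, q', h3, s, hs, h4, h5⟩ := h r le_rfl q (P.refl _ _)
  exact h1 s hs r' h2 q' h3 ⟨h4, h5⟩

lemma foL_of_mem (P : RPos R T) {b : Set (R × T)} {r : R} {q : T} {s : R × T} (hs : s ∈ b) (h : r ≤ s.1)
    (h1 : P.le r q s.2) : FoL P.le b r q :=
  fun r' h2 q' h3 => ⟨r', le_rfl, q', P.refl _ _, s, hs, h2.trans h, P.trans _ _ _ _ h3 (P.mono _ _ _ _ h2 h1)⟩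

end rel

/-- Names of sets of a measure: `d c x` is the truth value of `x ∈ d c`, for every code `c`. The order is given by `L`. -/
structure CodesL (K : Type) {R T C : Type} [LinearOrder K] [Preorder R] [Inhabited C] (L : R → T → T → Prop)
    (d : C → K → Set (R × T)) (F : Set T) : Prop where
  g1 : ∀ x r q, FoL L (d default x) r q
  g2 : ∀ (I : Type) (c : I → C), #I < #K → ∃ c', ∀ i x r q, FoL L (d c' x) r q → FoL L (d (c i) x) r q
  g3 : ∀ b : Set R, (∀ r ∈ b, ∀ r' ≤ r, r' ∈ b) → ∀ c c', ∃ c'', ∀ x r q,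
    (r ∈ b → (FoL L (d c'' x) r q ↔ FoL L (d c x) r q)) ∧
    ((∀ r' ≤ r, r' ∉ b) → (FoL L (d c'' x) r q ↔ FoL L (d c' x) r q))
  g4 : ∀ c r q ν, ∃ r' ≤ r, ∃ q', L r' q' q ∧ ∃ x, ν < x ∧ FoL L (d c x) r' q'
  g5 : ∀ N : K → Set (R × T), (∀ x, ∀ s ∈ N x, s.2 ∈ F) → ∀ r q, ∃ r' ≤ r, ∃ q', L r' q' q ∧ ∃ c',
    (∀ x, ∀ r'' ≤ r', ∀ q'', L r'' q'' q' → FoL L (d c' x) r'' q'' → FoL L (N x) r'' q'') ∨
    (∀ x, ∀ r'' ≤ r', ∀ q'', L r'' q'' q' → FoL L (d c' x) r'' q'' → IcL L (N x) r'' q'')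

/-! ### The step: a suborder of small size -/

/-- The set `X` is closed under the operations needed. -/
structure XC (K : Type) {R T : Type} [Preorder R] (P : RPos R T) (X : Set T) : Prop where
  top : P.top ∈ X
  mix : ∀ b : Set R, (∀ r ∈ b, ∀ r' ≤ r, r' ∈ b) → ∀ t ∈ X, ∀ t' ∈ X, ∃ t'' ∈ X,
    (∀ r ∈ b, P.le r t'' t ∧ P.le r t t'') ∧ ∀ r, (∀ r' ≤ r, r' ∉ b) → P.le r t'' t' ∧ P.le r t' t''
  lb : ∀ (ι : Type) (f : ι → T) (r : R), #ι < #K → (∀ i, f i ∈ X) → P.Dir f r → ∃ t ∈ X, ∀ i, P.le r t (f i)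
  cpt : ∀ s t : Star P, s.t ∈ X → t.t ∈ X → Cpt s t → ∃ u : Star P, u.t ∈ X ∧ u ≤ s ∧ u ≤ t
  anti : ∀ A : Set (Star P), #A ≤ #K → (∀ s ∈ A, s.t ∈ X) → (∃ t, ∀ s ∈ A, ¬ Cpt s t) →
    ∃ t : Star P, t.t ∈ X ∧ ∀ s ∈ A, ¬ Cpt s t

/-- The suborder given by `X`. -/
def XPos {K R T : Type} [Preorder R] (P : RPos R T) (X : Set T) (h : XC K P X) : RPos R X where
  le r s t := P.le r s.1 t.1
  top := ⟨P.top, h.top⟩
  refl r t := P.refl r t.1
  trans r t₁ t₂ t₃ := P.trans r t₁.1 t₂.1 t₃.1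
  le_top r t := P.le_top r t.1
  mono r r' t t' := P.mono r r' t.1 t'.1
  dense r t t' := P.dense r t.1 t'.1
  mix b hb t t' := by
    obtain ⟨t'', h1, h2⟩ := h.mix b hb t.1 t.2 t'.1 t'.2
    exact ⟨⟨t'', h1⟩, h2⟩

lemma XPos_closed {K R T : Type} [Preorder R] (P : RPos R T) (X : Set T) (h : XC K P X) : (XPos P X h).Closed #K := by
  intro ι f r hι hd
  obtain ⟨t, ht, h1⟩ := h.lb ι (fun i => (f i).1) r hι (fun i => (f i).2) hd
  exact ⟨⟨t, ht⟩, h1⟩

/-- The inclusion. -/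
def inc {K R T : Type} [Preorder R] (P : RPos R T) (X : Set T) (h : XC K P X) (u : Star (XPos P X h)) : Star P := ⟨u.r, u.t.1⟩

lemma inc_le {K R T : Type} [Preorder R] (P : RPos R T) (X : Set T) (h : XC K P X) (u v : Star (XPos P X h)) :
    inc P X h u ≤ inc P X h v ↔ u ≤ v := Iff.rfl

/-- `inc : Y → Z` is an embedding of a suborder such that every element of `Z` has a reduction. -/
structure Red {Y Z : Type} [Preorder Y] [Preorder Z] (inc : Y → Z) : Prop where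
  le : ∀ u v, inc u ≤ inc v ↔ u ≤ v
  cpt : ∀ u v, Cpt (inc u) (inc v) → Cpt u v
  red : ∀ z, ∃ u, ∀ u' ≤ u, Cpt (inc u') z

/-! ### Stems and conditions -/

/-- A stem: a name (for forcing with `R`) of a bounded subset of `K`. -/
@[ext] structure Stem (K R : Type) [LinearOrder K] [Preorder R] where
  /-- `r ∈ s x`: the condition `r` forces that `x` is in the stem -/
  s : K → Set R
  down : ∀ x, ∀ r ∈ s x, ∀ r' ≤ r, r' ∈ s x
  reg : ∀ x r, (∀ r' ≤ r, ∃ r'' ≤ r', r'' ∈ s x) → r ∈ s x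
  bdd : ∃ ν, ∀ x, ν < x → ∀ r, r ∉ s x

section conditions

variable {K R C Δ : Type} [LinearOrder K] [Nonempty K] [Preorder R] [Inhabited C]

instance : Inhabited (Stem K R) :=
  ⟨{ s := fun _ => ∅
     down := fun _ _ h => h.elim
     reg := fun _ r h => by obtain ⟨r', _, h1⟩ := h r le_rfl; exact h1.elim
     bdd := ⟨Classical.arbitrary K, fun _ _ _ h => h.elim⟩ }⟩

lemma default_stem (x : K) : (default : Stem K R).s x = ∅ := rfl

lemma default_fst : (default : Stem K R × C).1 = default := rfl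

lemma default_snd : (default : Stem K R × C).2 = default := rfl

/-- The order of one coordinate: `(r, q')` forces that `a' = (s', c')` is stronger than `a = (s, c)`:
(1), (2): `s'` is an end extension of `s`;
(3): the new elements of `s'` belong to the set with the code `c`;
(4): the set with the code `c'` is a subset of the set with the code `c` (forced by `r`). -/
structure MLE {T : Type} (L : R → T → T → Prop) (d : C → K → Set (R × T)) (r : R) (q' : T)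
    (a' a : Stem K R × C) : Prop where
  m1 : ∀ x, ∀ r' ≤ r, r' ∈ a.1.s x → r' ∈ a'.1.s x
  m2 : ∀ x y, x ≤ y → ∀ r' ≤ r, r' ∈ a'.1.s x → r' ∈ a.1.s y → r' ∈ a.1.s x
  m3 : ∀ x, ∀ r' ≤ r, r' ∈ a'.1.s x → (∀ r'' ≤ r', r'' ∉ a.1.s x) → FoL L (d a.2 x) r' q'
  m4 : ∀ x, ∀ r' ≤ r, ∀ q, FoL L (d a'.2 x) r' q → FoL L (d a.2 x) r' q

/-- Conditions: functions with a support of size less than `#K`. -/
@[ext] structure Pre (K R C Δ : Type) [LinearOrder K] [Nonempty K] [Preorder R] [Inhabited C] where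
  /-- the coordinates -/
  f : Δ → Stem K R × C
  small : #{η | f η ≠ default} < #K

/-- The trivial condition. -/
instance : Inhabited (Pre K R C Δ) :=
  ⟨{ f := fun _ => default
     small := by
      have h : {η : Δ | (default : Stem K R × C) ≠ default} = ∅ := by ext; simp
      rw [h, Cardinal.mk_emptyCollection]
      exact pos_iff_ne_zero.2 (Cardinal.mk_ne_zero K) }⟩

lemma default_f (η : Δ) : (default : Pre K R C Δ).f η = default := rfl

end conditions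

section iteration

variable {K R C Δ : Type} [LinearOrder K] [Nonempty K] [Preorder R] [Inhabited C] [LinearOrder Δ]

/-- The support of `p` is below `ξ`. -/
def Sup (ξ : Δ) (p : Pre K R C Δ) : Prop := ∀ η, ξ ≤ η → p.f η = default

/-- The conditions at the stage `ξ`. -/
def PP (K R C : Type) {Δ : Type} [LinearOrder K] [Nonempty K] [Preorder R] [Inhabited C] [LinearOrder Δ] (ξ : Δ) : Type :=
  {p : Pre K R C Δ // Sup ξ p}

open Classical in
/-- Restriction of a condition. -/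
noncomputable def Pre.cut (ξ : Δ) (p : Pre K R C Δ) : Pre K R C Δ where
  f η := if η < ξ then p.f η else default
  small := by
    refine lt_of_le_of_lt (Cardinal.mk_le_mk_of_subset ?_) p.small
    intro η hη
    simp only [Set.mem_setOf_eq, ne_eq] at hη ⊢
    intro h
    apply hη
    rw [h]
    simp

lemma Pre.cut_lt {ξ η : Δ} (h : η < ξ) (p : Pre K R C Δ) : (p.cut ξ).f η = p.f η := by simp [Pre.cut, h]

lemma Pre.cut_ge {ξ η : Δ} (h : ξ ≤ η) (p : Pre K R C Δ) : (p.cut ξ).f η = default := by simp [Pre.cut, not_lt.2 h]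

lemma Pre.sup_cut (ξ : Δ) (p : Pre K R C Δ) : Sup ξ (p.cut ξ) := fun η h => Pre.cut_ge h p

lemma Pre.cut_cut {ξ η : Δ} (h : η ≤ ξ) (p : Pre K R C Δ) : (p.cut ξ).cut η = p.cut η := by
  ext1
  funext ζ
  by_cases h1 : ζ < η
  · rw [Pre.cut_lt h1, Pre.cut_lt h1, Pre.cut_lt (h1.trans_le h)]
  · rw [Pre.cut_ge (not_lt.1 h1), Pre.cut_ge (not_lt.1 h1)]

lemma Pre.cut_eq {ξ : Δ} {p : Pre K R C Δ} (h : Sup ξ p) : p.cut ξ = p := by
  ext1
  funext ζ
  by_cases h1 : ζ < ξ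
  · rw [Pre.cut_lt h1]
  · rw [Pre.cut_ge (not_lt.1 h1), h ζ (not_lt.1 h1)]

/-- Restriction of a condition. -/
noncomputable def Pre.cutP (ξ : Δ) (p : Pre K R C Δ) : PP K R C ξ := ⟨p.cut ξ, p.sup_cut ξ⟩

lemma Pre.cutP_val (ξ : Δ) (p : Pre K R C Δ) : (p.cutP ξ).1 = p.cut ξ := rfl

lemma Pre.cutP_cut {ξ η : Δ} (h : η ≤ ξ) (p : Pre K R C Δ) : (p.cut ξ).cutP η = p.cutP η := Subtype.ext (Pre.cut_cut h p)

lemma Pre.cutP_eq {ξ : Δ} (p : PP K R C ξ) : p.1.cutP ξ = p := Subtype.ext (Pre.cut_eq p.2)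

/-- A system: for every stage `η` the names with the codes `c : C`. -/
abbrev Sys (K R C Δ : Type) [LinearOrder K] [Nonempty K] [Preorder R] [Inhabited C] [LinearOrder Δ] : Type :=
  (η : Δ) → C → K → Set (R × PP K R C η)

variable [WellFoundedLT Δ]

/-- The order of the stage `ξ`. -/
noncomputable def LE (S : Sys K R C Δ) : Δ → R → Pre K R C Δ → Pre K R C Δ → Prop :=
  (wellFounded_lt (α := Δ)).fix fun ξ L r p' p =>
    ∀ η (h : η < ξ), MLE (fun r (q' q : PP K R C η) => L η h r q'.1 q.1) (S η) r (p'.cutP η) (p'.f η) (p.f η)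

/-- The order of the stage `ξ`, on the type of the conditions of that stage. -/
def LP (S : Sys K R C Δ) (ξ : Δ) (r : R) (q' q : PP K R C ξ) : Prop := LE S ξ r q'.1 q.1

lemma LE_def (S : Sys K R C Δ) (ξ : Δ) (r : R) (p' p : Pre K R C Δ) :
    LE S ξ r p' p ↔ ∀ η, η < ξ → MLE (LP S η) (S η) r (p'.cutP η) (p'.f η) (p.f η) := by
  unfold LE
  rw [WellFounded.fix_eq]
  rfl

/-- The order of the stage `ξ` depends only on the restrictions of the conditions. -/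
lemma LE_cut {S : Sys K R C Δ} {ξ ζ ζ' : Δ} (h : ξ ≤ ζ) (h' : ξ ≤ ζ') {r : R} {p' p : Pre K R C Δ} :
    LE S ξ r (p'.cut ζ) (p.cut ζ') ↔ LE S ξ r p' p := by
  rw [LE_def, LE_def]
  refine forall_congr' fun η => forall_congr' fun hη => ?_
  rw [Pre.cutP_cut (hη.le.trans h), Pre.cut_lt (hη.trans_le h), Pre.cut_lt (hη.trans_le h')]

lemma LE_le {S : Sys K R C Δ} {ξ ζ : Δ} (h : ξ ≤ ζ) {r : R} {p' p : Pre K R C Δ} (h1 : LE S ζ r p' p) : LE S ξ r p' p := by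
  rw [LE_def] at h1 ⊢
  exact fun η hη => h1 η (hη.trans_le h)

/-- The names at the stage `ξ` are as required. -/
def Good (bk : Δ → Set (Pre K R C Δ)) (S : Sys K R C Δ) (ξ : Δ) : Prop :=
  CodesL K (LP S ξ) (S ξ) {q | q.1 ∈ bk ξ}

/-- The stages below `ξ` are as required. -/
structure Below (bk : Δ → Set (Pre K R C Δ)) (S : Sys K R C Δ) (ξ : Δ) : Prop where
  pos : ∀ η < ξ, ∃ P : RPos R (PP K R C η), P.le = LP S η
  good : ∀ η < ξ, Good bk S η

end iteration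

lemma inac_bdd {K : Type} [LinearOrder K] (hK : Inac K) {I : Type} (hI : #I < #K) (f : I → K) : ∃ b, ∀ i, f i < b := by
  obtain ⟨b, hb⟩ := hK.reg (Set.range f) (lt_of_le_of_lt Cardinal.mk_range_le hI)
  exact ⟨b, fun i => hb _ ⟨i, rfl⟩⟩

lemma inac_bool {K : Type} [LinearOrder K] (hK : Inac K) : #Bool < #K := by
  refine lt_trans ?_ hK.unc
  exact Cardinal.lt_aleph0_of_finite Bool

/-! ### Hypotheses and conclusions -/

/-- `R` forces that `K` is measurable after every `#K`-directed closed forcing of size less than `#K^{+ω}`. -/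
def HypH (K R : Type) [LinearOrder K] [Preorder R] : Prop :=
  ∀ (n : ℕ) (T : Type) (P : RPos R T), P.Closed #K → #T ≤ pl #K n → ∃ μ, BMeas K (Star P) μ

/-- All antichains of `A` have size at most `#K`. -/
def CCs (K A : Type) [Preorder A] : Prop := ∀ S : Set A, Anti S → #S ≤ #K

/-- `A` forces that no family of at most `#K^{+n}` subsets of `K` is splitting. -/
def NS (K A : Type) [LinearOrder K] [Preorder A] : Prop :=
  ∀ (n : ℕ) (I : Type), #I ≤ pl #K n → ∀ (x : I → K → Set A) (p : A), ∃ q ≤ p, ∃ B : K → Set A,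
    (∀ a, Fo {E | ∃ b, a < b ∧ E ∈ B b} q) ∧
    ∀ i, ∀ q' ≤ q, ∃ q'' ≤ q', ∃ a, (∀ b, a < b → ∀ E ≤ q'', (∃ D ∈ B b, E ≤ D) → Fo (x i b) E) ∨
      (∀ b, a < b → ∀ E ≤ q'', (∃ D ∈ B b, E ≤ D) → Ic (x i b) E)

/-- The result of block A. -/
def BlockA : Prop := GCH0 → ∀ (K : Type) [LinearOrder K], Inac K → ∀ (R : Type) [Preorder R] [OrderTop R],
  #R ≤ #K → (∀ S : Set R, Anti S → #S < #K) → HypH K R →
    ∃ (T : Type) (P : RPos R T), P.Closed #K ∧ CCs K (Star P) ∧ NS K (Star P)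

end Pool.Agent.SKap
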