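import Pool.Agent.SKap.ADefs

set_option autoImplicit false
set_option linter.all false

/-!
# C_fib : a function with large fibres

PROOF. #(Δ × B) = #Δ (Cardinal.mul_eq_left: #Δ infinite, #B ≤ #Δ, B nonempty), so there is an equivalence φ : Δ ≃ Δ × B; f ξ := (φ ξ).2. The fibre of b is the image of Δ × {b}, of size #Δ. An initial segment Iio ζ has size < #Δ
 (Δ = δ.ord.ToType: Cardinal.mk_Iio_ord_toType), so the fibre is not contained in Iic ζ or Iio ζ (use #(Iic ζ) < #Δ, or the initial segment below a larger element).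
-/

namespace Pool.Agent.SKap

open Cardinal Pool.Agent.SplK

theorem C_fib (δ : Cardinal.{0}) (hδ : ℵ₀ ≤ δ) (B : Type) (hB : Nonempty B) (hB' : #B ≤ δ) :
    ∃ f : δ.ord.ToType → B, ∀ b ζ, ∃ ξ, ζ < ξ ∧ f ξ = b := by
  have hΔ : #(δ.ord.ToType) = δ := Cardinal.mk_ord_toType δ
  have hprod : #(δ.ord.ToType × B) = #(δ.ord.ToType) := by
    rw [Cardinal.mk_prod, Cardinal.lift_id, Cardinal.lift_id, hΔ]
    exact Cardinal.mul_eq_left hδ hB' (Cardinal.mk_ne_zero_iff.mpr hB)
  obtain ⟨φ⟩ := Cardinal.eq.mp hprod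
  refine ⟨fun ξ => (φ.symm ξ).2, fun b ζ => ?_⟩
  by_contra hcon
  push Not at hcon
  have hsub : {ξ | (φ.symm ξ).2 = b} ⊆ Set.Iic ζ := by
    intro ξ hξ
    by_contra hlt
    exact hcon ξ (not_le.mp hlt) hξ
  have h1 : δ ≤ #{ξ | (φ.symm ξ).2 = b} := by
    conv_lhs => rw [← hΔ]
    refine Cardinal.mk_le_of_injective (f := fun x : δ.ord.ToType => (⟨φ (x, b), by simp⟩ : {ξ | (φ.symm ξ).2 = b})) ?_
    intro x y hxy
    have := congrArg Subtype.val hxy
    have h2 : (x, b) = (y, b) := φ.injective this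
    exact (Prod.mk.inj h2).1
  have h2 : #(Set.Iic ζ) < δ := by
    have h3 : Set.Iic ζ = insert ζ (Set.Iio ζ) := by
      ext x
      simp only [Set.mem_Iic, Set.mem_insert_iff, Set.mem_Iio]
      exact le_iff_eq_or_lt
    rw [h3]
    refine lt_of_le_of_lt Cardinal.mk_insert_le ?_
    exact Cardinal.add_lt_of_lt hδ (Cardinal.mk_Iio_ord_toType ζ) (lt_of_lt_of_le Cardinal.one_lt_aleph0 hδ)
  exact absurd (h1.trans (Cardinal.mk_le_mk_of_subset hsub)) (not_le.mpr h2)

end Pool.Agent.SKap
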