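import Pool.Agent.SKap.ADefs

set_option autoImplicit false
set_option linter.all false

/-!
# C_gch : cardinal arithmetic under GCH

PROOFS. pl κ (n+1) = succ (pl κ n) = 2 ^ pl κ n (GCH0, ℵ₀ ≤ κ ≤ pl κ n). C_pow: (2 ^ a) ^ b = 2 ^ (a * b) = 2 ^ max a b.
-/

namespace Pool.Agent.SKap

open Cardinal Pool.Agent.SplK

theorem C_ple (κ : Cardinal.{0}) (n : ℕ) : κ ≤ pl κ n := by
  induction n with
  | zero => exact le_rfl
  | succ n ih =>
    rw [pl_succ]
    exact ih.trans (Order.le_succ _)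

theorem C_plm (κ : Cardinal.{0}) (m n : ℕ) (h : m ≤ n) : pl κ m ≤ pl κ n := by
  induction n, h using Nat.le_induction with
  | base => exact le_rfl
  | succ n _ ih =>
    rw [pl_succ κ n]
    exact ih.trans (Order.le_succ _)

theorem C_two (hG : GCH0) (κ : Cardinal.{0}) (hκ : ℵ₀ ≤ κ) (n : ℕ) : (2 : Cardinal.{0}) ^ pl κ n = pl κ (n + 1) := by
  rw [pl_succ]
  exact hG _ (hκ.trans (C_ple κ n))

theorem C_pow (hG : GCH0) (κ : Cardinal.{0}) (hκ : ℵ₀ ≤ κ) (n : ℕ) : (pl κ (n + 1)) ^ κ ≤ pl κ (n + 1) := by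
  rw [← C_two hG κ hκ n, ← Cardinal.power_mul]
  exact Cardinal.power_le_power_left two_ne_zero
    (Cardinal.mul_le_of_le (hκ.trans (C_ple κ n)) le_rfl (C_ple κ n))

end Pool.Agent.SKap
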