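import Pool.Agent.SKap.ADefs

set_option autoImplicit false
set_option linter.all false

/-!
# C_pre : the number of small sets of conditions

PROOF. κ := #K. C_pre1: a condition p is determined by its graph over the support {(η, p.f η) | p.f η ≠ default}, a subset of Δ × (Stem K R × C) of size < κ ≤ κ. The number of subsets of size ≤ κ of a type of size ≤ δ is
 at most (max δ ℵ₀)^κ (Cardinal.mk_bounded_set_le) = δ^κ ≤ δ. C_pre2: the same with Pre instead of the product, and pl κ n instead of κ; the union over n is a sigma type over ℕ: ≤ ℵ₀·δ.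
-/

namespace Pool.Agent.SKap

open Cardinal Pool.Agent.SplK

variable {K R C Δ : Type} [LinearOrder K] [Nonempty K] [Preorder R] [Inhabited C] [LinearOrder Δ]

theorem C_pre1 (δ : Cardinal.{0}) (hδ : ℵ₀ ≤ δ) (hδK : δ ^ #K ≤ δ) (hS : #(Stem K R) ≤ δ) (hC : #C ≤ δ) (hΔ : #Δ ≤ δ) :
    #(Pre K R C Δ) ≤ δ := by
  classical
  have hX : #(Δ × (Stem K R × C)) ≤ δ := by
    rw [mk_prod, mk_prod, lift_id, lift_id, lift_id, lift_id]
    calc #Δ * (#(Stem K R) * #C) ≤ δ * (δ * δ) := mul_le_mul' hΔ (mul_le_mul' hS hC)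
      _ = δ := by rw [mul_eq_self hδ, mul_eq_self hδ]
  have h1 : #{t : Set (Δ × (Stem K R × C)) // #t ≤ #K} ≤ δ := by
    refine (mk_bounded_set_le _ _).trans ?_
    refine le_trans (power_le_power_right (max_le hX hδ)) hδK
  refine le_trans ?_ h1
  have hinj : Function.Injective (fun p : Pre K R C Δ =>
      (⟨{z : Δ × (Stem K R × C) | p.f z.1 = z.2 ∧ z.2 ≠ default}, by
        refine le_trans ?_ p.small.le
        refine mk_le_of_injective (f := fun z => (⟨z.1.1, by
          have h2 := z.2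
          simp only [Set.mem_setOf_eq] at h2 ⊢
          rw [h2.1]
          exact h2.2⟩ : {η | p.f η ≠ default})) ?_
        intro z z' h
        have h2 := z.2
        have h3 := z'.2
        simp only [Set.mem_setOf_eq] at h2 h3
        have h4 : z.1.1 = z'.1.1 := congrArg Subtype.val h
        apply Subtype.ext
        apply Prod.ext h4
        rw [← h2.1, ← h3.1, h4]⟩ : {t : Set (Δ × (Stem K R × C)) // #t ≤ #K})) := by
    intro p p' h
    have h2 : {z : Δ × (Stem K R × C) | p.f z.1 = z.2 ∧ z.2 ≠ default} =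
        {z : Δ × (Stem K R × C) | p'.f z.1 = z.2 ∧ z.2 ≠ default} := congrArg Subtype.val h
    ext1
    funext η
    by_cases h3 : p.f η = default
    · by_cases h4 : p'.f η = default
      · rw [h3, h4]
      · have h5 : ((η, p'.f η) : Δ × (Stem K R × C)) ∈ {z : Δ × (Stem K R × C) | p'.f z.1 = z.2 ∧ z.2 ≠ default} :=
          ⟨rfl, h4⟩
        rw [← h2] at h5
        exact h5.1
    · have h5 : ((η, p.f η) : Δ × (Stem K R × C)) ∈ {z : Δ × (Stem K R × C) | p.f z.1 = z.2 ∧ z.2 ≠ default} :=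
        ⟨rfl, h3⟩
      rw [h2] at h5
      exact h5.1.symm
  exact mk_le_of_injective hinj

theorem C_pre2 (A : Type) (κ δ : Cardinal.{0}) (hδ : ℵ₀ ≤ δ) (hδK : ∀ n, δ ^ pl κ n ≤ δ) (hA : #A ≤ δ) :
    #{F : Set A // ∃ n, #F ≤ pl κ n} ≤ δ := by
  classical
  have h1 : ∀ n, #{t : Set A // #t ≤ pl κ n} ≤ δ := by
    intro n
    refine (mk_bounded_set_le _ _).trans ?_
    exact le_trans (power_le_power_right (max_le hA hδ)) (hδK n)
  have h2 : #(Σ n : ℕ, {t : Set A // #t ≤ pl κ n}) ≤ δ := by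
    rw [mk_sigma]
    refine le_trans (sum_le_sum _ (fun _ => δ) h1) ?_
    rw [sum_const, mk_nat, lift_aleph0, lift_id]
    calc ℵ₀ * δ ≤ δ * δ := mul_le_mul' hδ le_rfl
      _ = δ := mul_eq_self hδ
  refine le_trans ?_ h2
  refine mk_le_of_injective (f := fun F => (⟨F.2.choose, F.1, F.2.choose_spec⟩ : Σ n : ℕ, {t : Set A // #t ≤ pl κ n})) ?_
  intro F F' h
  apply Subtype.ext
  have h3 : (fun z : (Σ n : ℕ, {t : Set A // #t ≤ pl κ n}) => z.2.1)
      (⟨F.2.choose, F.1, F.2.choose_spec⟩ : Σ n : ℕ, {t : Set A // #t ≤ pl κ n}) =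
      (fun z : (Σ n : ℕ, {t : Set A // #t ≤ pl κ n}) => z.2.1)
      (⟨F'.2.choose, F'.1, F'.2.choose_spec⟩ : Σ n : ℕ, {t : Set A // #t ≤ pl κ n}) :=
    congrArg (fun z : (Σ n : ℕ, {t : Set A // #t ≤ pl κ n}) => z.2.1) h
  exact h3

end Pool.Agent.SKap
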