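import Pool.Agent.SKap.ADefs
import Pool.Agent.SKap.CGch
import Pool.Agent.SKap.CFib
import Pool.Agent.SKap.CPre

set_option autoImplicit false
set_option linter.all false

/-!
# C_bk : bookkeeping

PROOF. κ := #K, L := ⨆ n, pl κ n (or any cardinal with pl κ n ≤ L for all n, e.g. the sum Cardinal.sum (fun n => pl κ n)), μ := 2^L, δ := 2^μ = succ μ (GCH0). C := μ.out (or Set L.out) with any element as default;
 #C = μ; 2^(pl κ m) ≤ 2^L = μ. Δ₀ := δ.ord.ToType, Δ := WithTop Δ₀ (linear order, well founded), e := ⊤. δ^(pl κ n) = 2^(μ * pl κ n) = 2^μ = δ, δ^κ ≤ δ. #(Stem K R) ≤ κ ≤ δ, #Δ = δ.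
 B := {F : Set (Pre K R C Δ) // ∃ n, #F ≤ pl κ n}; #B ≤ δ (C_pre1, C_pre2). C_fib: f : Δ₀ → B with unbounded fibres. bk (ξ : Δ₀) := (f ξ).1, bk ⊤ := ∅.
 Let #F ≤ pl κ n with Sup ⊤ p for all p ∈ F. Every η with p.f η ≠ default, p ∈ F, is < ⊤, so it is in Δ₀; the set of all these η has size ≤ pl κ n * κ < δ, so it is bounded in Δ₀ by some ζ (δ = succ μ is regular;
 a subset of δ.ord.ToType of size < δ is bounded). Take ξ > ζ with f ξ = F; then Sup ξ p for p ∈ F.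
-/

namespace Pool.Agent.SKap

open Cardinal Pool.Agent.SplK

theorem cbk_bdd (δ : Cardinal.{0}) (hδ : δ.IsRegular) (S : Set δ.ord.ToType) (hS : #S < δ) :
    ∃ ζ, ∀ x ∈ S, x < ζ := by
  rw [← not_isCofinal_iff]
  intro h
  have h1 := Order.cof_le h
  rw [Ordinal.cof_toType, hδ.cof_ord] at h1
  exact absurd hS (not_lt.mpr h1)

theorem C_bk (hG : GCH0) (K R : Type) [LinearOrder K] [Nonempty K] [Preorder R] (hK : Inac K) (hS : #(Stem K R) ≤ #K) :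
    ∃ (C : Type) (_ : Inhabited C) (Δ : Type) (_ : LinearOrder Δ) (_ : WellFoundedLT Δ) (e : Δ)
      (bk : Δ → Set (Pre K R C Δ)),
      (∀ m, (2 : Cardinal.{0}) ^ pl #K m ≤ #C) ∧ (∀ ξ, ∃ n, #(bk ξ) ≤ pl #K n) ∧
      ∀ (n : ℕ) (F : Set (Pre K R C Δ)), #F ≤ pl #K n → (∀ p ∈ F, Sup e p) → ∃ ξ, ξ < e ∧ bk ξ = F ∧ ∀ p ∈ F, Sup ξ p := by
  classical
  obtain ⟨L, hL⟩ : ∃ L : Cardinal.{0}, ∀ n, pl #K n ≤ L :=
    ⟨Cardinal.sum (fun n : ℕ => pl #K n), fun n => Cardinal.le_sum (fun n : ℕ => pl #K n) n⟩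
  have hKL : #K ≤ L := (C_ple #K 0).trans (hL 0)
  have hLinf : ℵ₀ ≤ L := hK.unc.le.trans hKL
  obtain ⟨μ, hμ⟩ : ∃ μ : Cardinal.{0}, μ = 2 ^ L := ⟨_, rfl⟩
  obtain ⟨δ, hδ⟩ : ∃ δ : Cardinal.{0}, δ = 2 ^ μ := ⟨_, rfl⟩
  have hLμ : L < μ := hμ ▸ Cardinal.cantor L
  have hμδ : μ < δ := hδ ▸ Cardinal.cantor μ
  have hμinf : ℵ₀ ≤ μ := hLinf.trans hLμ.le
  have hδinf : ℵ₀ ≤ δ := hμinf.trans hμδ.le
  have hδs : δ = Order.succ μ := by rw [hδ]; exact hG μ hμinf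
  have hδr : δ.IsRegular := by rw [hδs]; exact Cardinal.isRegular_succ hμinf
  let C : Type := Set L.out
  have hC : #C = μ := by
    show #(Set L.out) = μ
    rw [Cardinal.mk_set, Cardinal.mk_out, hμ]
  let Δ₀ : Type := δ.ord.ToType
  have hΔ₀ : #Δ₀ = δ := by
    show #δ.ord.ToType = δ
    rw [Cardinal.mk_toType, Cardinal.card_ord]
  let Δ : Type := WithTop Δ₀
  have hΔ : #Δ ≤ δ := by
    have h1 : #(Option Δ₀) = #Δ₀ + 1 := Cardinal.mk_option
    show #(Option Δ₀) ≤ δ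
    rw [h1, hΔ₀]
    exact Cardinal.add_le_of_le hδinf le_rfl (Cardinal.one_le_aleph0.trans hδinf)
  have hpow : ∀ n, δ ^ pl #K n ≤ δ := by
    intro n
    rw [hδ, ← Cardinal.power_mul]
    exact Cardinal.power_le_power_left two_ne_zero
      (Cardinal.mul_le_of_le hμinf le_rfl ((hL n).trans hLμ.le))
  have hKδ : #K ≤ δ := hKL.trans (hLμ.le.trans hμδ.le)
  have hpre : #(Pre K R C Δ) ≤ δ := by
    refine C_pre1 δ hδinf ?_ (hS.trans hKδ) (hC.le.trans hμδ.le) hΔ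
    have := hpow 0
    rwa [pl_zero] at this
  let B : Type := {F : Set (Pre K R C Δ) // ∃ n, #F ≤ pl #K n}
  have hB : #B ≤ δ := C_pre2 (Pre K R C Δ) #K δ hδinf hpow hpre
  have hB0 : Nonempty B := ⟨⟨∅, 0, by simp⟩⟩
  obtain ⟨f, hf⟩ := C_fib δ hδinf B hB0 hB
  let bk : Δ → Set (Pre K R C Δ) := WithTop.recTopCoe ∅ (fun x => (f x).1)
  have hbk : ∀ x : Δ₀, bk (x : WithTop Δ₀) = (f x).1 := fun x => rfl
  refine ⟨C, ⟨(∅ : Set L.out)⟩, Δ, inferInstance, inferInstance, (⊤ : WithTop Δ₀), bk, ?_, ?_, ?_⟩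
  · intro m
    rw [hC, hμ]
    exact Cardinal.power_le_power_left two_ne_zero (hL m)
  · intro ξ
    induction ξ using WithTop.recTopCoe with
    | top => exact ⟨0, by show #(∅ : Set (Pre K R C Δ)) ≤ _; simp⟩
    | coe x => exact (f x).2
  · intro n F hF hsup
    let S : Set Δ₀ := ⋃ p : F, {x : Δ₀ | p.1.f (x : WithTop Δ₀) ≠ default}
    have hS1 : #S ≤ pl #K n * #K := by
      refine (Cardinal.mk_iUnion_le_sum_mk).trans ?_
      refine (Cardinal.sum_le_sum _ (fun _ => #K) (fun p => ?_)).trans ?_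
      · refine le_trans ?_ p.1.small.le
        exact Cardinal.mk_preimage_of_injective (fun x : Δ₀ => (x : WithTop Δ₀))
          {η : Δ | p.1.f η ≠ default} WithTop.coe_injective
      · rw [Cardinal.sum_const']
        exact mul_le_mul_left hF #K
    have hS2 : #S < δ := by
      refine lt_of_le_of_lt (hS1.trans ?_) hμδ
      exact Cardinal.mul_le_of_le hμinf ((hL n).trans hLμ.le) (hKL.trans hLμ.le)
    obtain ⟨ζ, hζ⟩ := cbk_bdd δ hδr S hS2
    obtain ⟨ξ, hξ, hfξ⟩ := hf ⟨F, n, hF⟩ ζ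
    refine ⟨(ξ : WithTop Δ₀), WithTop.coe_lt_top ξ, ?_, ?_⟩
    · rw [hbk, hfξ]
    · intro p hp η hη
      induction η using WithTop.recTopCoe with
      | top => exact hsup p hp _ le_rfl
      | coe x =>
        by_contra hne
        have hx : x ∈ S := Set.mem_iUnion.mpr ⟨⟨p, hp⟩, hne⟩
        have h1 := hζ x hx
        have h2 : ξ ≤ x := WithTop.coe_le_coe.mp hη
        exact absurd (h1.trans hξ) (not_lt.mpr h2)

end Pool.Agent.SKap
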