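import Pool.Agent.SKap.ADefs
import Pool.Agent.SplK.Ic

set_option autoImplicit false
set_option linter.all false

/-!
# The cardinality of K is inaccessible
-/

namespace Pool.Agent.SKap

open Cardinal Pool.Agent.SplK

theorem C_seg {K : Type} [LinearOrder K] (hK : Inac K) (c : Cardinal.{0}) (hc : c < #K) : ∃ a : K, c ≤ #(Set.Iio a) :=
  exists_seg hK hc

theorem C_reg {K : Type} [LinearOrder K] (hK : Inac K) : (#K).IsRegular := (inac_card hK).isRegular

theorem C_lim {K : Type} [LinearOrder K] (hK : Inac K) (c : Cardinal.{0}) (hc : c < #K) : (2 : Cardinal.{0}) ^ c < #K :=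
  (inac_card hK).isStrongLimit.two_power_lt hc

theorem C_fun {K : Type} [LinearOrder K] (hK : Inac K) (c : Cardinal.{0}) (hc : c < #K) : #K ^ c ≤ #K := by
  have h0 : ℵ₀ ≤ #K := hK.unc.le
  rw [← Cardinal.mk_out c, Cardinal.power_def]
  have h1 : (Set.univ : Set (Quotient.out c → K)) ⊆ ⋃ b : K, {f | ∀ i, f i < b} := by
    intro f _
    obtain ⟨b, hb⟩ := inac_bdd hK (by rw [Cardinal.mk_out]; exact hc) f
    exact Set.mem_iUnion.2 ⟨b, hb⟩
  rw [← Cardinal.mk_univ]
  refine (Cardinal.mk_le_mk_of_subset h1).trans (Cardinal.mk_iUnion_le_sum_mk.trans ?_)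
  calc Cardinal.sum (fun b : K => #{f : Quotient.out c → K | ∀ i, f i < b})
      ≤ Cardinal.sum (fun _ : K => #K) := by
        refine Cardinal.sum_le_sum _ _ fun b => ?_
        have h2 : #{f : Quotient.out c → K | ∀ i, f i < b} ≤ #(Quotient.out c → Set.Iio b) :=
          Cardinal.mk_le_of_injective (f := fun f i => (⟨f.1 i, f.2 i⟩ : Set.Iio b)) (by
            intro f g h
            ext i
            exact congrArg Subtype.val (congrFun h i))
        refine h2.trans ?_
        rw [← Cardinal.power_def, Cardinal.mk_out]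
        have hm : max (max #(Set.Iio b) c) ℵ₀ < #K := max_lt (max_lt (hK.seg b) hc) hK.unc
        refine le_trans ?_ (C_lim hK _ hm).le
        calc #(Set.Iio b) ^ c ≤ (2 ^ max (max #(Set.Iio b) c) ℵ₀) ^ c :=
              Cardinal.power_le_power_right (((le_max_left _ _).trans (le_max_left _ _)).trans (Cardinal.cantor _).le)
          _ = 2 ^ (max (max #(Set.Iio b) c) ℵ₀ * c) := (Cardinal.power_mul).symm
          _ ≤ 2 ^ (max (max #(Set.Iio b) c) ℵ₀) := by
              refine Cardinal.power_le_power_left two_ne_zero ?_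
              calc max (max #(Set.Iio b) c) ℵ₀ * c
                  ≤ max (max #(Set.Iio b) c) ℵ₀ * max (max #(Set.Iio b) c) ℵ₀ :=
                    mul_le_mul_right ((le_max_right _ _).trans (le_max_left _ _)) _
                _ = _ := Cardinal.mul_eq_self (le_max_right _ _)
    _ = #K * #K := by rw [Cardinal.sum_const']
    _ = #K := Cardinal.mul_eq_self h0

end Pool.Agent.SKap
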