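import Pool.Agent.SKap.ADefs
import Pool.Agent.SKap.CInac

set_option autoImplicit false
set_option linter.all false

/-!
# C_stem : there are at most #K stems

PROOF. Call b : Set R regular if it is downward closed and (∀ r, (∀ r' ≤ r, ∃ r'' ≤ r', r'' ∈ b) → r ∈ b). For regular b let W ⊆ b be a maximal antichain (Zorn) inside b; then b = {r | ∀ r' ≤ r, ∃ r'' ≤ r', ∃ w ∈ W, r'' ≤ w},
 and #W < κ := #K. So the number of regular b is at most the number of W : Set R with #W < κ, which is ≤ κ: R injects into K; a set of size < κ in K is bounded, so contained in some Iio a, which has < κ subsets (lim);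
 κ·κ = κ. A stem s with bound ν is determined by ν and the restriction of s to Iic ν (a function from a set of size < κ [ #(Iic ν) ≤ #(Iio ν) + 1 ] to the set of regular sets, of size ≤ κ): at most κ^c ≤ κ
 for each ν (C_fun), so at most κ·κ = κ stems.
-/

namespace Pool.Agent.SKap

open Cardinal Pool.Agent.SplK

theorem CStem_small {K R : Type} [LinearOrder K] (hK : Inac K) (hR : #R ≤ #K) :
    #{W : Set R // #W < #K} ≤ #K := by
  classical
  obtain ⟨e⟩ : Nonempty (R ↪ K) := hR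
  have hb : ∀ W : {W : Set R // #W < #K}, ∃ b, ∀ x ∈ e '' W.1, x < b := fun W =>
    hK.reg _ (lt_of_le_of_lt mk_image_le W.2)
  choose b hb using hb
  have h1 : #{W : Set R // #W < #K} ≤ #(Σ b : K, Set (Set.Iio b)) := by
    refine mk_le_of_injective (f := fun W => (⟨b W, {x | x.1 ∈ e '' W.1}⟩ : Σ b : K, Set (Set.Iio b))) ?_
    intro W W' h
    have h2 : b W = b W' := congrArg Sigma.fst h
    have h3 : ∀ x : K, (x < b W ∧ x ∈ e '' W.1) ↔ (x < b W' ∧ x ∈ e '' W'.1) := by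
      intro x
      have h4 : (∃ hx : x < b W, (⟨x, hx⟩ : Set.Iio (b W)) ∈ ({x | x.1 ∈ e '' W.1} : Set (Set.Iio (b W)))) =
          (∃ hx : x < b W', (⟨x, hx⟩ : Set.Iio (b W')) ∈ ({x | x.1 ∈ e '' W'.1} : Set (Set.Iio (b W')))) :=
        congrArg (fun z : (Σ b : K, Set (Set.Iio b)) => ∃ hx : x < z.1, (⟨x, hx⟩ : Set.Iio z.1) ∈ z.2) h
      constructor
      · rintro ⟨hx, hx'⟩
        have h5 : ∃ hx : x < b W, (⟨x, hx⟩ : Set.Iio (b W)) ∈ ({x | x.1 ∈ e '' W.1} : Set (Set.Iio (b W))) := ⟨hx, hx'⟩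
        obtain ⟨h6, h7⟩ := (iff_of_eq h4).mp h5
        exact ⟨h6, h7⟩
      · rintro ⟨hx, hx'⟩
        have h5 : ∃ hx : x < b W', (⟨x, hx⟩ : Set.Iio (b W')) ∈ ({x | x.1 ∈ e '' W'.1} : Set (Set.Iio (b W'))) := ⟨hx, hx'⟩
        obtain ⟨h6, h7⟩ := (iff_of_eq h4).mpr h5
        exact ⟨h6, h7⟩
    apply Subtype.ext
    apply Set.Subset.antisymm
    · intro r hr
      obtain ⟨r', hr', h5⟩ := ((h3 (e r)).mp ⟨hb W _ ⟨r, hr, rfl⟩, ⟨r, hr, rfl⟩⟩).2
      exact e.injective h5 ▸ hr'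
    · intro r hr
      obtain ⟨r', hr', h5⟩ := ((h3 (e r)).mpr ⟨hb W' _ ⟨r, hr, rfl⟩, ⟨r, hr, rfl⟩⟩).2
      exact e.injective h5 ▸ hr'
  refine h1.trans ?_
  rw [mk_sigma]
  calc Cardinal.sum (fun b : K => #(Set (Set.Iio b))) ≤ Cardinal.sum (fun _ : K => #K) :=
        Cardinal.sum_le_sum _ _ fun b => by
          rw [mk_set]
          exact (hK.lim b).le
    _ = #K * #K := Cardinal.sum_const' K #K
    _ = #K := Cardinal.mul_eq_self (hK.unc.le)

/-- Regular sets of conditions. -/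
def CStemReg {R : Type} [Preorder R] (b : Set R) : Prop :=
  (∀ r ∈ b, ∀ r' ≤ r, r' ∈ b) ∧ ∀ r, (∀ r' ≤ r, ∃ r'' ≤ r', r'' ∈ b) → r ∈ b

theorem CStem_max {R : Type} [Preorder R] (b : Set R) (hb : CStemReg b) :
    ∃ W : Set R, Anti W ∧ b = {r | ∀ r' ≤ r, ∃ r'' ≤ r', ∃ w ∈ W, r'' ≤ w} := by
  classical
  obtain ⟨W, hW⟩ := zorn_subset {W : Set R | W ⊆ b ∧ Anti W} (by
    intro c hc hch
    refine ⟨⋃₀ c, ⟨Set.sUnion_subset fun s hs => (hc hs).1, ?_⟩, fun s hs => Set.subset_sUnion_of_mem hs⟩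
    rintro p ⟨W1, h1, hp⟩ q ⟨W2, h2, hq⟩ hpq
    rcases hch.total h1 h2 with h | h
    · exact (hc h2).2 p (h hp) q hq hpq
    · exact (hc h1).2 p hp q (h hq) hpq)
  refine ⟨W, hW.prop.2, ?_⟩
  apply Set.Subset.antisymm
  · intro r hr r' hr'
    have hr'b := hb.1 r hr r' hr'
    by_contra hcon
    have hinc : ∀ w ∈ W, ¬ Cpt r' w := by
      rintro w hw ⟨u, hu1, hu2⟩
      exact hcon ⟨u, hu1, w, hw, hu2⟩
    have hmem : insert r' W ∈ {W : Set R | W ⊆ b ∧ Anti W} := by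
      refine ⟨Set.insert_subset hr'b hW.prop.1, ?_⟩
      rintro p (rfl | hp) q (rfl | hq) hpq
      · rfl
      · exact (hinc q hq hpq).elim
      · exact (hinc p hp ⟨hpq.choose, hpq.choose_spec.2, hpq.choose_spec.1⟩).elim
      · exact hW.prop.2 p hp q hq hpq
    have hin : r' ∈ W := hW.le_of_ge hmem (Set.subset_insert _ _) (Set.mem_insert _ _)
    exact hinc r' hin ⟨r', le_rfl, le_rfl⟩
  · intro r hr
    apply hb.2
    intro r' hr'
    obtain ⟨r'', h1, w, hw, h2⟩ := hr r' hr'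
    exact ⟨r'', h1, hb.1 w (hW.prop.1 hw) r'' h2⟩

theorem CStem_reg {K R : Type} [LinearOrder K] [Preorder R] (hK : Inac K) (hR : #R ≤ #K)
    (hcc : ∀ S : Set R, Anti S → #S < #K) : #{b : Set R // CStemReg b} ≤ #K := by
  classical
  refine le_trans ?_ (CStem_small hK hR)
  have h := fun b : {b : Set R // CStemReg b} => CStem_max b.1 b.2
  choose W hW1 hW2 using h
  refine mk_le_of_injective (f := fun b => (⟨W b, hcc _ (hW1 b)⟩ : {W : Set R // #W < #K})) ?_
  intro b b' hbb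
  have h1 : W b = W b' := congrArg Subtype.val hbb
  apply Subtype.ext
  rw [hW2 b, hW2 b', h1]

theorem CStem_Iic {K : Type} [LinearOrder K] (hK : Inac K) (ν : K) : #(Set.Iic ν) < #K := by
  obtain ⟨b, hb⟩ := hK.reg {ν} (by rw [mk_singleton]; exact one_lt_aleph0.trans hK.unc)
  refine lt_of_le_of_lt (mk_le_mk_of_subset ?_) (hK.seg b)
  intro x hx
  exact lt_of_le_of_lt hx (hb ν rfl)

theorem C_stem {K R : Type} [LinearOrder K] [Preorder R] (hK : Inac K) (hR : #R ≤ #K)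
    (hcc : ∀ S : Set R, Anti S → #S < #K) : #(Stem K R) ≤ #K := by
  classical
  have hν : ∀ s : Stem K R, ∃ ν, ∀ x, ν < x → ∀ r, r ∉ s.s x := fun s => s.bdd
  choose ν hν using hν
  have h1 : #(Stem K R) ≤ #(Σ b : K, (Set.Iic b → {b : Set R // CStemReg b})) := by
    refine mk_le_of_injective (f := fun s => (⟨ν s, fun x => ⟨s.s x.1, s.down x.1, s.reg x.1⟩⟩ :
      Σ b : K, (Set.Iic b → {b : Set R // CStemReg b}))) ?_
    intro s s' h
    have h2 : ν s = ν s' := congrArg Sigma.fst h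
    have h3 : ∀ x : K, x ≤ ν s → s.s x = s'.s x := by
      intro x hx
      have h4 : (if hx : x ≤ ν s then s.s x else ∅) = (if hx : x ≤ ν s' then s'.s x else ∅) :=
        congrArg (fun z : (Σ b : K, (Set.Iic b → {b : Set R // CStemReg b})) =>
          if hx : x ≤ z.1 then (z.2 ⟨x, hx⟩).1 else ∅) h
      rw [dif_pos hx, dif_pos (h2 ▸ hx)] at h4
      exact h4
    apply Stem.ext
    funext x
    by_cases hx : x ≤ ν s
    · exact h3 x hx
    · rw [Set.eq_empty_of_forall_notMem (hν s x (not_le.mp hx)),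
        Set.eq_empty_of_forall_notMem (hν s' x (h2 ▸ not_le.mp hx))]
  refine h1.trans ?_
  rw [mk_sigma]
  calc Cardinal.sum (fun b : K => #(Set.Iic b → {b : Set R // CStemReg b})) ≤ Cardinal.sum (fun _ : K => #K) :=
        Cardinal.sum_le_sum _ _ fun b => by
          rw [← Cardinal.power_def]
          exact (Cardinal.power_le_power_right (CStem_reg hK hR hcc)).trans (C_fun hK _ (CStem_Iic hK b))
    _ = #K * #K := Cardinal.sum_const' K #K
    _ = #K := Cardinal.mul_eq_self (hK.unc.le)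

end Pool.Agent.SKap
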