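import Pool.Agent.SKap.ADefs

set_option autoImplicit false
set_option linter.all false

/-!
# F_anti : replacing a set of conditions by a small antichain

PROOF. Let D := {z | ∃ s ∈ b, z ≤ s}. By Zorn (zorn_subset or `zorn_subset_nonempty`) there is a maximal W ⊆ D with Anti W; #W ≤ #K by hA. Maximality: every r ∈ D is compatible with some w ∈ W
 (otherwise W ∪ {r} is an antichain in D, so r ∈ W; but r is compatible with itself).
 Fo W z → Fo b z: w ∈ W is below some s ∈ b. Fo b z → Fo W z: q ≤ z; r ≤ q, s ∈ b, r ≤ s; r ∈ D; w ∈ W and r' ≤ r, w.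
 Ic b z → Ic W z: w ≤ s ∈ b.  Ic W z → Ic b z: if q ≤ z and q ≤ s ∈ b then q ∈ D; w ∈ W, q' ≤ q, q' ≤ w contradicts Ic W z.
-/

namespace Pool.Agent.SKap

open Cardinal Pool.Agent.SplK

theorem F_anti {K A : Type} [Preorder A] (hA : CCs K A) (b : Set A) :
    ∃ W : Set A, #W ≤ #K ∧ (∀ z, Fo W z ↔ Fo b z) ∧ ∀ z, Ic W z ↔ Ic b z := by
  obtain ⟨W, hW⟩ := zorn_subset {W : Set A | (∀ w ∈ W, ∃ s ∈ b, w ≤ s) ∧ Anti W} (by
    intro c hc hch
    refine ⟨⋃₀ c, ⟨?_, ?_⟩, fun s hs => Set.subset_sUnion_of_mem hs⟩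
    · rintro w ⟨S, hS, hw⟩
      exact (hc hS).1 w hw
    · rintro p ⟨S, hS, hp⟩ q ⟨S', hS', hq⟩ hpq
      rcases hch.total hS hS' with h | h
      · exact (hc hS').2 p (h hp) q hq hpq
      · exact (hc hS).2 p hp q (h hq) hpq)
  have hWD := hW.prop.1
  have hWA := hW.prop.2
  have hmax : ∀ r, (∃ s ∈ b, r ≤ s) → ∃ w ∈ W, Cpt r w := by
    intro r hr
    by_contra hcon
    push Not at hcon
    have hmem : insert r W ∈ {W : Set A | (∀ w ∈ W, ∃ s ∈ b, w ≤ s) ∧ Anti W} := by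
      refine ⟨?_, ?_⟩
      · intro w hw
        rcases hw with rfl | hw
        · exact hr
        · exact hWD w hw
      · intro p hp q hq hpq
        rcases hp with rfl | hp <;> rcases hq with rfl | hq
        · rfl
        · exact absurd hpq (hcon q hq)
        · obtain ⟨u, h1, h2⟩ := hpq
          exact absurd ⟨u, h2, h1⟩ (hcon p hp)
        · exact hWA p hp q hq hpq
    have hsub : insert r W ⊆ W := hW.le_of_ge hmem (Set.subset_insert r W)
    have hrW : r ∈ W := hsub (Set.mem_insert r W)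
    exact hcon r hrW ⟨r, le_rfl, le_rfl⟩
  refine ⟨W, hA W hWA, fun z => ⟨?_, ?_⟩, fun z => ⟨?_, ?_⟩⟩
  · intro h q hq
    obtain ⟨r, hr, w, hw, hrw⟩ := h q hq
    obtain ⟨s, hs, hws⟩ := hWD w hw
    exact ⟨r, hr, s, hs, hrw.trans hws⟩
  · intro h q hq
    obtain ⟨r, hr, s, hs, hrs⟩ := h q hq
    obtain ⟨w, hw, u, hur, huw⟩ := hmax r ⟨s, hs, hrs⟩
    exact ⟨u, hur.trans hr, w, hw, huw⟩
  · intro h s hs q hq hqs
    obtain ⟨w, hw, u, hu, huw⟩ := hmax q ⟨s, hs, hqs⟩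
    exact h w hw u (hu.trans hq) huw
  · intro h w hw q hq hqw
    obtain ⟨s, hs, hws⟩ := hWD w hw
    exact h s hs q hq (hqw.trans hws)

end Pool.Agent.SKap
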