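import Pool.Agent.SKap.ADefs

set_option autoImplicit false
set_option linter.all false

/-!
# M_refl, M_trans, M_mono, M_dense, M_top : the order of one coordinate

`MLE L d r q' a' a` is a structure with fields m1..m4 (see ADefs). Useful: foL_down, foL_dense, foL_denseR in ADefs.
PROOFS.
M_refl: m3: `r' ∈ a.1.s x` contradicts `∀ r'' ≤ r', r'' ∉ a.1.s x` at r'' = r'.
M_mono: all clauses quantify over r' ≤ r.
M_trans: (a'' ≤ a' ≤ a)  m1, m4: composition.  m2: x ≤ y, r' ∈ s'' x, r' ∈ s y; then r' ∈ s' y (m1), r' ∈ s' x (m2 of the first), r' ∈ s x (m2 of the second).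
 m3: r' ∈ s'' x and no r₁ ≤ r' in s x; goal FoL (d a.2 x) r' q''. By foL_denseR: given r₁ ≤ r'. If some r₂ ≤ r₁ is in s' x: m3 of the second gives
 FoL (d a.2 x) r₂ q', and foL_down (with P.mono of the hypothesis hq) gives it for q''. Otherwise no r₂ ≤ r₁ is in s' x: m3 of the first gives FoL (d a'.2 x) r₁ q''
 and m4 of the second gives FoL (d a.2 x) r₁ q''.
M_dense: m1: by a'.1.reg. m2: by a.1.reg. m3: foL_denseR (use a'.1.down for r'' ≤ r' in s' x). m4: foL_denseR, foL_down.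
M_top: `default : Stem K R × C` has the components default, default; the default stem has no elements (default_stem, rfl); m3, m4 by hd.g1.
-/

namespace Pool.Agent.SKap

open Cardinal Pool.Agent.SplK

variable {K R C T : Type} [LinearOrder K] [Nonempty K] [Preorder R] [Inhabited C]

theorem M_refl (P : RPos R T) (d : C → K → Set (R × T)) (r : R) (q : T) (a : Stem K R × C) : MLE P.le d r q a a where
  m1 := fun _ _ _ h => h
  m2 := fun _ _ _ _ _ h _ => h
  m3 := fun _ r' _ h h1 => (h1 r' le_rfl h).elim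
  m4 := fun _ _ _ _ h => h

theorem M_mono (L : R → T → T → Prop) (d : C → K → Set (R × T)) (r r' : R) (hr : r' ≤ r) (q : T) (a' a : Stem K R × C)
    (h : MLE L d r q a' a) : MLE L d r' q a' a where
  m1 := fun x r1 hr1 => h.m1 x r1 (hr1.trans hr)
  m2 := fun x y hxy r1 hr1 => h.m2 x y hxy r1 (hr1.trans hr)
  m3 := fun x r1 hr1 => h.m3 x r1 (hr1.trans hr)
  m4 := fun x r1 hr1 => h.m4 x r1 (hr1.trans hr)

theorem M_trans (P : RPos R T) (d : C → K → Set (R × T)) (r : R) (q'' q' : T) (a'' a' a : Stem K R × C)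
    (hq : P.le r q'' q') (h1 : MLE P.le d r q'' a'' a') (h2 : MLE P.le d r q' a' a) : MLE P.le d r q'' a'' a where
  m1 := fun x r' hr' h => h1.m1 x r' hr' (h2.m1 x r' hr' h)
  m2 := fun x y hxy r' hr' hx hy =>
    h2.m2 x y hxy r' hr' (h1.m2 x y hxy r' hr' hx (h2.m1 y r' hr' hy)) hy
  m3 := by
    intro x r' hr' hx hn
    refine foL_denseR P fun r1 hr1 => ?_
    by_cases h : ∃ r2 ≤ r1, r2 ∈ a'.1.s x
    · obtain ⟨r2, hr2, h3⟩ := h
      refine ⟨r2, hr2, ?_⟩
      have h21 : r2 ≤ r' := hr2.trans hr1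
      have h4 := h2.m3 x r2 (h21.trans hr') h3 (fun r3 hr3 => hn r3 (hr3.trans h21))
      exact foL_down P h4 le_rfl (P.mono _ _ _ _ (h21.trans hr') hq)
    · push Not at h
      refine ⟨r1, le_rfl, ?_⟩
      exact h2.m4 x r1 (hr1.trans hr') _ (h1.m3 x r1 (hr1.trans hr') (a''.1.down x r' hx r1 hr1) h)
  m4 := fun x r' hr' q h => h2.m4 x r' hr' q (h1.m4 x r' hr' q h)

theorem M_dense (P : RPos R T) (d : C → K → Set (R × T)) (r : R) (q : T) (a' a : Stem K R × C)
    (h : ∀ r' ≤ r, ∃ r'' ≤ r', MLE P.le d r'' q a' a) : MLE P.le d r q a' a where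
  m1 := by
    intro x r1 hr1 hx
    refine a'.1.reg x r1 fun r' hr' => ?_
    obtain ⟨r'', hr'', h1⟩ := h r' (hr'.trans hr1)
    exact ⟨r'', hr'', h1.m1 x r'' le_rfl (a.1.down x r1 hx r'' (hr''.trans hr'))⟩
  m2 := by
    intro x y hxy r1 hr1 hx hy
    refine a.1.reg x r1 fun r' hr' => ?_
    obtain ⟨r'', hr'', h1⟩ := h r' (hr'.trans hr1)
    exact ⟨r'', hr'', h1.m2 x y hxy r'' le_rfl (a'.1.down x r1 hx r'' (hr''.trans hr'))
      (a.1.down y r1 hy r'' (hr''.trans hr'))⟩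
  m3 := by
    intro x r1 hr1 hx hn
    refine foL_denseR P fun r' hr' => ?_
    obtain ⟨r'', hr'', h1⟩ := h r' (hr'.trans hr1)
    exact ⟨r'', hr'', h1.m3 x r'' le_rfl (a'.1.down x r1 hx r'' (hr''.trans hr'))
      (fun r3 hr3 => hn r3 (hr3.trans (hr''.trans hr')))⟩
  m4 := by
    intro x r1 hr1 q1 hq1
    refine foL_denseR P fun r' hr' => ?_
    obtain ⟨r'', hr'', h1⟩ := h r' (hr'.trans hr1)
    exact ⟨r'', hr'', h1.m4 x r'' le_rfl q1 (foL_down P hq1 (hr''.trans hr') (P.refl _ _))⟩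

theorem M_top (P : RPos R T) (d : C → K → Set (R × T)) (F : Set T) (hd : CodesL K P.le d F) (r : R) (q : T)
    (a : Stem K R × C) : MLE P.le d r q a default where
  m1 := fun _ _ _ h => h.elim
  m2 := fun _ _ _ _ _ _ h => h.elim
  m3 := fun x r' _ _ _ => hd.g1 x r' q
  m4 := fun x r' _ q' _ => hd.g1 x r' q'

end Pool.Agent.SKap
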