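import Pool.Agent.SKap.ADefs
import Pool.Agent.SKap.MBasic

set_option autoImplicit false
set_option linter.all false

/-!
# M_mix : mixing at one coordinate

PROOF. If a = default and a' = default take a'' = default (MLE is reflexive, MBasic.M_refl). Otherwise a'' := (s'', c'') with c'' from hd.g3 b hb a.2 a'.2 and
 s'' x := {r | ∀ r' ≤ r, ∃ r'' ≤ r', (r'' ∈ b ∧ r'' ∈ a.1.s x) ∨ ((∀ r₃ ≤ r'', r₃ ∉ b) ∧ r'' ∈ a'.1.s x)}   (down, reg: easy; bdd: maximum of the two bounds).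
 FACT 1: r ∈ b → (r ∈ s'' x ↔ r ∈ a.1.s x).  [→ by a.1.reg: for r' ≤ r (r' ∈ b) there is r'' ≤ r' in the set; the second alternative is impossible because r'' ∈ b.]
 FACT 2: (∀ r' ≤ r, r' ∉ b) → (r ∈ s'' x ↔ r ∈ a'.1.s x).
 For r ∈ b all r' ≤ r are in b, so by FACT 1 the stems of a'' and a agree below r: m1, m2 are trivial in both directions, m3 is vacuous in both directions
 (r' ∈ s'' x means r' ∈ a.1.s x), and m4 is g3. Similarly for r with no r' ≤ r in b.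
-/

namespace Pool.Agent.SKap

open Cardinal Pool.Agent.SplK

variable {K R C T : Type} [LinearOrder K] [Nonempty K] [Preorder R] [Inhabited C]

theorem mmix_agree (P : RPos R T) (d : C → K → Set (R × T)) {r : R} {q : T} {a a' : Stem K R × C}
    (h : ∀ x, ∀ r' ≤ r, (r' ∈ a'.1.s x ↔ r' ∈ a.1.s x))
    (h4 : ∀ x, ∀ r' ≤ r, ∀ q, FoL P.le (d a'.2 x) r' q → FoL P.le (d a.2 x) r' q) : MLE P.le d r q a' a := by
  refine ⟨fun x r' hr' h1 => (h x r' hr').2 h1, fun x y _ r' hr' h1 _ => (h x r' hr').1 h1, ?_, h4⟩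
  intro x r' hr' h1 h2
  exact (h2 r' le_rfl ((h x r' hr').1 h1)).elim

theorem M_mix (P : RPos R T) (d : C → K → Set (R × T)) (F : Set T) (hd : CodesL K P.le d F) (b : Set R)
    (hb : ∀ r ∈ b, ∀ r' ≤ r, r' ∈ b) (a a' : Stem K R × C) :
    ∃ a'' : Stem K R × C, (a = default → a' = default → a'' = default) ∧
      (∀ r ∈ b, ∀ q, MLE P.le d r q a'' a ∧ MLE P.le d r q a a'') ∧
      ∀ r, (∀ r' ≤ r, r' ∉ b) → ∀ q, MLE P.le d r q a'' a' ∧ MLE P.le d r q a' a'' := by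
  classical
  by_cases hdef : a = default ∧ a' = default
  · obtain ⟨h1, h2⟩ := hdef
    subst h1
    subst h2
    have hrf : ∀ r q, MLE P.le d r q (default : Stem K R × C) default := fun r q =>
      mmix_agree P d (fun x r' _ => Iff.rfl) (fun x r' _ q h => h)
    exact ⟨default, fun _ _ => rfl, fun r _ q => ⟨hrf r q, hrf r q⟩, fun r _ q => ⟨hrf r q, hrf r q⟩⟩
  obtain ⟨c'', hc⟩ := hd.g3 b hb a.2 a'.2
  obtain ⟨ν1, hν1⟩ := a.1.bdd
  obtain ⟨ν2, hν2⟩ := a'.1.bdd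
  obtain ⟨s'', hs''⟩ : ∃ s'' : Stem K R, ∀ x r, r ∈ s''.s x ↔ ∀ r' ≤ r, ∃ r'' ≤ r', (r'' ∈ b ∧ r'' ∈ a.1.s x) ∨
      ((∀ r₃ ≤ r'', r₃ ∉ b) ∧ r'' ∈ a'.1.s x) := by
    refine ⟨⟨fun x => {r | ∀ r' ≤ r, ∃ r'' ≤ r', (r'' ∈ b ∧ r'' ∈ a.1.s x) ∨
      ((∀ r₃ ≤ r'', r₃ ∉ b) ∧ r'' ∈ a'.1.s x)}, ?_, ?_, ?_⟩, fun x r => Iff.rfl⟩
    · intro x r hr r' hr' r1 hr1
      exact hr r1 (hr1.trans hr')
    · intro x r h r1 hr1
      obtain ⟨r2, hr2, h2⟩ := h r1 hr1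
      obtain ⟨r3, hr3, h3⟩ := h2 r2 le_rfl
      exact ⟨r3, hr3.trans hr2, h3⟩
    · refine ⟨max ν1 ν2, fun x hx r hr => ?_⟩
      obtain ⟨r2, _, h2⟩ := hr r le_rfl
      rcases h2 with h2 | h2
      · exact hν1 x ((le_max_left _ _).trans_lt hx) r2 h2.2
      · exact hν2 x ((le_max_right _ _).trans_lt hx) r2 h2.2
  have fact1 : ∀ x, ∀ r ∈ b, (r ∈ s''.s x ↔ r ∈ a.1.s x) := by
    intro x r hr
    rw [hs'']
    constructor
    · intro h
      refine a.1.reg x r (fun r' hr' => ?_)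
      obtain ⟨r2, hr2, h2⟩ := h r' hr'
      have hr2b : r2 ∈ b := hb r hr r2 (hr2.trans hr')
      rcases h2 with h2 | h2
      · exact ⟨r2, hr2, h2.2⟩
      · exact (h2.1 r2 le_rfl hr2b).elim
    · intro h r' hr'
      exact ⟨r', le_rfl, Or.inl ⟨hb r hr r' hr', a.1.down x r h r' hr'⟩⟩
  have fact2 : ∀ x r, (∀ r' ≤ r, r' ∉ b) → (r ∈ s''.s x ↔ r ∈ a'.1.s x) := by
    intro x r hr
    rw [hs'']
    constructor
    · intro h
      refine a'.1.reg x r (fun r' hr' => ?_)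
      obtain ⟨r2, hr2, h2⟩ := h r' hr'
      rcases h2 with h2 | h2
      · exact (hr r2 (hr2.trans hr') h2.1).elim
      · exact ⟨r2, hr2, h2.2⟩
    · intro h r' hr'
      exact ⟨r', le_rfl, Or.inr ⟨fun r3 hr3 => hr r3 (hr3.trans hr'), a'.1.down x r h r' hr'⟩⟩
  refine ⟨(s'', c''), fun h1 h2 => (hdef ⟨h1, h2⟩).elim, fun r hr q => ⟨?_, ?_⟩, fun r hr q => ⟨?_, ?_⟩⟩
  · refine mmix_agree P d (fun x r' hr' => fact1 x r' (hb r hr r' hr')) (fun x r' hr' q h => ?_)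
    exact ((hc x r' q).1 (hb r hr r' hr')).1 h
  · refine mmix_agree P d (fun x r' hr' => (fact1 x r' (hb r hr r' hr')).symm) (fun x r' hr' q h => ?_)
    exact ((hc x r' q).1 (hb r hr r' hr')).2 h
  · refine mmix_agree P d (fun x r' hr' => fact2 x r' (fun r3 hr3 => hr r3 (hr3.trans hr'))) (fun x r' hr' q h => ?_)
    exact ((hc x r' q).2 (fun r3 hr3 => hr r3 (hr3.trans hr'))).1 h
  · refine mmix_agree P d (fun x r' hr' => (fact2 x r' (fun r3 hr3 => hr r3 (hr3.trans hr'))).symm)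
      (fun x r' hr' q h => ?_)
    exact ((hc x r' q).2 (fun r3 hr3 => hr r3 (hr3.trans hr'))).2 h

end Pool.Agent.SKap
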