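import Pool.Agent.SKap.ADefs
import Pool.Agent.SKap.MBasic
import Pool.Agent.SKap.MMix

set_option autoImplicit false
set_option linter.all false

/-!
# The stage ξ: reflexivity, monotonicity, transitivity, density, top, mixing

All use LE_def (LE S ξ r p' p ↔ ∀ η < ξ, MLE (LP S η) (S η) r (p'.cutP η) (p'.f η) (p.f η)), the lemmas LE_cut, LE_le of ADefs and the lemmas M_refl, M_mono, M_trans, M_dense, M_top, M_mix.
For η < ξ take P := the R-poset of stage η (hB.pos η hη : ∃ P, P.le = LP S η) and rewrite LP S η as P.le (obtain ⟨P, hP⟩; rw [← hP]; hB.good η hη unfolds to CodesL K (LP S η) (S η) _).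
I_refl: also for I_refl use hB (M_refl needs P). I_mono: M_mono, no hypothesis.
I_trans: the hypothesis hq of M_trans at η is LP S η r (p₁.cutP η) (p₂.cutP η) = LE S η r (p₁.cut η) (p₂.cut η), by LE_cut (le_rfl) from LE_le hη.le h1.
I_mix: f'' η := the a'' of M_mix at η for η < ξ, default for η ≥ ξ (choose; the support is contained in the union of the supports of p and p' because of the first conjunct of M_mix;
 #(A ∪ B) < #K from the two bounds and ℵ₀ ≤ #K: Cardinal.mk_union_le, Cardinal.add_lt_of_lt).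
-/

namespace Pool.Agent.SKap

open Cardinal Pool.Agent.SplK

variable {K R C Δ : Type} [LinearOrder K] [Nonempty K] [Preorder R] [Inhabited C] [LinearOrder Δ] [WellFoundedLT Δ]

theorem I_mono (S : Sys K R C Δ) (ξ : Δ) (r r' : R) (hr : r' ≤ r) (p' p : Pre K R C Δ) (h : LE S ξ r p' p) :
    LE S ξ r' p' p := by
  rw [LE_def] at h ⊢
  exact fun η hη => M_mono _ _ r r' hr _ _ _ (h η hη)

theorem I_refl (bk : Δ → Set (Pre K R C Δ)) (S : Sys K R C Δ) (ξ : Δ) (hB : Below bk S ξ) (r : R) (p : Pre K R C Δ) :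
    LE S ξ r p p := by
  rw [LE_def]
  intro η hη
  obtain ⟨P, hP⟩ := hB.pos η hη
  rw [← hP]
  exact M_refl P _ _ _ _

theorem I_trans (bk : Δ → Set (Pre K R C Δ)) (S : Sys K R C Δ) (ξ : Δ) (hB : Below bk S ξ) (r : R)
    (p₁ p₂ p₃ : Pre K R C Δ) (h1 : LE S ξ r p₁ p₂) (h2 : LE S ξ r p₂ p₃) : LE S ξ r p₁ p₃ := by
  have h1' := h1
  rw [LE_def] at h1 h2 ⊢
  intro η hη
  obtain ⟨P, hP⟩ := hB.pos η hη
  have e1 := h1 η hη
  have e2 := h2 η hη
  rw [← hP] at e1 e2 ⊢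
  refine M_trans P _ r _ (p₂.cutP η) _ (p₂.f η) _ ?_ e1 e2
  rw [hP]
  exact (LE_cut le_rfl le_rfl).mpr (LE_le hη.le h1')

theorem I_dense (bk : Δ → Set (Pre K R C Δ)) (S : Sys K R C Δ) (ξ : Δ) (hB : Below bk S ξ) (r : R)
    (p' p : Pre K R C Δ) (h : ∀ r' ≤ r, ∃ r'' ≤ r', LE S ξ r'' p' p) : LE S ξ r p' p := by
  rw [LE_def]
  intro η hη
  obtain ⟨P, hP⟩ := hB.pos η hη
  rw [← hP]
  refine M_dense P _ r _ _ _ fun r' hr' => ?_
  obtain ⟨r'', hr'', h1⟩ := h r' hr'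
  rw [LE_def] at h1
  have h2 := h1 η hη
  rw [← hP] at h2
  exact ⟨r'', hr'', h2⟩

theorem I_top (bk : Δ → Set (Pre K R C Δ)) (S : Sys K R C Δ) (ξ : Δ) (hB : Below bk S ξ) (r : R)
    (p : Pre K R C Δ) : LE S ξ r p default := by
  rw [LE_def]
  intro η hη
  obtain ⟨P, hP⟩ := hB.pos η hη
  have hd := hB.good η hη
  unfold Good at hd
  rw [← hP] at hd ⊢
  rw [default_f]
  exact M_top P _ _ hd _ _ _

theorem I_mix (hK : Inac K) (bk : Δ → Set (Pre K R C Δ)) (S : Sys K R C Δ) (ξ : Δ) (hB : Below bk S ξ) (b : Set R)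
    (hb : ∀ r ∈ b, ∀ r' ≤ r, r' ∈ b) (p p' : Pre K R C Δ) :
    ∃ p'' : Pre K R C Δ, Sup ξ p'' ∧ (∀ r ∈ b, LE S ξ r p'' p ∧ LE S ξ r p p'') ∧
      ∀ r, (∀ r' ≤ r, r' ∉ b) → LE S ξ r p'' p' ∧ LE S ξ r p' p'' := by
  have key : ∀ η : Δ, ∃ a'' : Stem K R × C, (p.f η = default → p'.f η = default → a'' = default) ∧
      (ξ ≤ η → a'' = default) ∧
      (η < ξ → (∀ r ∈ b, ∀ q, MLE (LP S η) (S η) r q a'' (p.f η) ∧ MLE (LP S η) (S η) r q (p.f η) a'') ∧
        ∀ r, (∀ r' ≤ r, r' ∉ b) → ∀ q, MLE (LP S η) (S η) r q a'' (p'.f η) ∧ MLE (LP S η) (S η) r q (p'.f η) a'') := by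
    intro η
    by_cases hη : η < ξ
    · obtain ⟨P, hP⟩ := hB.pos η hη
      have hd := hB.good η hη
      unfold Good at hd
      rw [← hP] at hd ⊢
      obtain ⟨a'', h1, h2, h3⟩ := M_mix P _ _ hd b hb (p.f η) (p'.f η)
      exact ⟨a'', h1, fun h => absurd hη (not_lt.mpr h), fun _ => ⟨h2, h3⟩⟩
    · exact ⟨default, fun _ _ => rfl, fun _ => rfl, fun h => absurd h hη⟩
  choose f hf1 hf2 hf3 using key
  have hsm : #{η | f η ≠ default} < #K := by
    refine lt_of_le_of_lt (Cardinal.mk_le_mk_of_subset (t := {η | p.f η ≠ default} ∪ {η | p'.f η ≠ default}) ?_) ?_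
    · intro η hη
      simp only [Set.mem_union, Set.mem_setOf_eq] at hη ⊢
      by_contra hcon
      push Not at hcon
      exact hη (hf1 η hcon.1 hcon.2)
    · exact lt_of_le_of_lt (Cardinal.mk_union_le _ _) (Cardinal.add_lt_of_lt hK.unc.le p.small p'.small)
  refine ⟨⟨f, hsm⟩, fun η hη => hf2 η hη, fun r hr => ⟨?_, ?_⟩, fun r hr => ⟨?_, ?_⟩⟩
  · rw [LE_def]
    exact fun η hη => ((hf3 η hη).1 r hr _).1
  · rw [LE_def]
    exact fun η hη => ((hf3 η hη).1 r hr _).2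
  · rw [LE_def]
    exact fun η hη => ((hf3 η hη).2 r hr _).1
  · rw [LE_def]
    exact fun η hη => ((hf3 η hη).2 r hr _).2

end Pool.Agent.SKap
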