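import Pool.Agent.SKap.ADefs
import Pool.Agent.SKap.IBasic

set_option autoImplicit false
set_option linter.all false

/-!
# I_pos : the stages are R-posets

PROOF. I_pos1: the R-poset: le := LP S ξ, top := ⟨default, _⟩ and the fields by IBasic. I_pos: strong induction on ξ with I_pos1 (Below has the fields pos, good).
I_below: immediate.
-/

namespace Pool.Agent.SKap

open Cardinal Pool.Agent.SplK

variable {K R C Δ : Type} [LinearOrder K] [Nonempty K] [Preorder R] [Inhabited C] [LinearOrder Δ] [WellFoundedLT Δ]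

theorem I_pos1 (hK : Inac K) (bk : Δ → Set (Pre K R C Δ)) (S : Sys K R C Δ) (ξ : Δ) (hB : Below bk S ξ) :
    ∃ P : RPos R (PP K R C ξ), P.le = LP S ξ ∧ P.top.1 = default := by
  refine ⟨{ le := LP S ξ
            top := ⟨default, fun η _ => default_f η⟩
            refl := fun r t => I_refl bk S ξ hB r t.1
            trans := fun r t₁ t₂ t₃ h1 h2 => I_trans bk S ξ hB r t₁.1 t₂.1 t₃.1 h1 h2
            le_top := fun r t => I_top bk S ξ hB r t.1
            mono := fun r r' t t' hr h => I_mono S ξ r r' hr t.1 t'.1 h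
            dense := fun r t t' h => I_dense bk S ξ hB r t.1 t'.1 h
            mix := fun b hb t t' => ?_ }, rfl, rfl⟩
  obtain ⟨p'', hsup, h1, h2⟩ := I_mix hK bk S ξ hB b hb t.1 t'.1
  exact ⟨⟨p'', hsup⟩, h1, h2⟩

theorem I_below (hK : Inac K) (bk : Δ → Set (Pre K R C Δ)) (S : Sys K R C Δ) (ξ : Δ) (hG : ∀ η < ξ, Good bk S η) :
    Below bk S ξ := by
  have h : ∀ η, η < ξ → Below bk S η := by
    intro η
    induction η using (wellFounded_lt (α := Δ)).induction with
    | _ η ih =>
      intro hη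
      refine ⟨fun ζ hζ => ?_, fun ζ hζ => hG ζ (hζ.trans hη)⟩
      obtain ⟨P, hP, -⟩ := I_pos1 hK bk S ζ (ih ζ hζ (hζ.trans hη))
      exact ⟨P, hP⟩
  refine ⟨fun η hη => ?_, hG⟩
  obtain ⟨P, hP, -⟩ := I_pos1 hK bk S η (h η hη)
  exact ⟨P, hP⟩

end Pool.Agent.SKap
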