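import Pool.Agent.SKap.ADefs
import Pool.Agent.SKap.IPos

set_option autoImplicit false
set_option linter.all false

/-!
# F_ext, F_upd, F_up : extending conditions of the stage ξ to the stage e

The hypothesis hG says that all stages are good; I_below gives Below bk S ξ for every ξ and I_pos1 the R-posets.
PROOFS. Glued conditions have small support: contained in the union of the two supports (and {ξ}); Cardinal.mk_union_le, Cardinal.add_lt_of_lt with ℵ₀ < #K.
F_ext: g.f η := if η < ξ then q.1.f η else p.1.f η. LE S e r g p by LE_def: for η < ξ, g.cutP η = q.1.cutP η and g.f η = q.1.f η and use LE_def for h at η; for ξ ≤ η < e use M_refl at η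
 (g.f η = p.f η). LE S ξ r g q and LE S ξ r q g: the two conditions agree below ξ: LE_cut and I_refl (g.cut ξ = q.1.cut ξ). g.cutP ξ = q: Subtype.ext, Pre.cut_eq.
F_upd: g.f η := if η < ξ then q.1.f η else if η = ξ then a' else p.1.f η. LE_def: η < ξ as before; η = ξ: hypothesis ha (g.cutP ξ = q); η > ξ: M_refl.
F_up: LE_def: η < ξ from h (LE_def); η ≥ ξ: s.f η = default: M_top at η.
-/

namespace Pool.Agent.SKap

open Cardinal Pool.Agent.SplK

variable {K R C Δ : Type} [LinearOrder K] [Nonempty K] [Preorder R] [Inhabited C] [LinearOrder Δ] [WellFoundedLT Δ]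

theorem fext_small (hK : Inac K) (p q : Pre K R C Δ) (ξ : Δ) (g : Δ → Stem K R × C)
    (h : ∀ η, g η ≠ default → q.f η ≠ default ∨ p.f η ≠ default ∨ η = ξ) : #{η | g η ≠ default} < #K := by
  have h1 : {η | g η ≠ default} ⊆ {η | q.f η ≠ default} ∪ ({η | p.f η ≠ default} ∪ {ξ}) := by
    intro η hη
    rcases h η hη with h1 | h1 | h1
    · exact Or.inl h1
    · exact Or.inr (Or.inl h1)
    · exact Or.inr (Or.inr h1)
  refine lt_of_le_of_lt (Cardinal.mk_le_mk_of_subset h1) ?_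
  refine lt_of_le_of_lt (Cardinal.mk_union_le _ _) ?_
  refine Cardinal.add_lt_of_lt hK.unc.le q.small ?_
  refine lt_of_le_of_lt (Cardinal.mk_union_le _ _) ?_
  refine Cardinal.add_lt_of_lt hK.unc.le p.small ?_
  rw [Cardinal.mk_singleton]
  exact one_lt_aleph0.trans hK.unc

theorem fext_pos (hK : Inac K) (bk : Δ → Set (Pre K R C Δ)) (S : Sys K R C Δ) (hG : ∀ η, Good bk S η) (ξ : Δ) :
    ∃ P : RPos R (PP K R C ξ), P.le = LP S ξ := by
  obtain ⟨P, hP, _⟩ := I_pos1 hK bk S ξ (I_below hK bk S ξ (fun η _ => hG η))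
  exact ⟨P, hP⟩

theorem fext_mrefl (hK : Inac K) (bk : Δ → Set (Pre K R C Δ)) (S : Sys K R C Δ) (hG : ∀ η, Good bk S η) (ξ : Δ)
    (r : R) (q : PP K R C ξ) (a : Stem K R × C) : MLE (LP S ξ) (S ξ) r q a a := by
  obtain ⟨P, hP⟩ := fext_pos hK bk S hG ξ
  rw [← hP]
  exact M_refl P (S ξ) r q a

theorem fext_cut {p q : Pre K R C Δ} {ξ η : Δ} (h : ∀ ζ < ξ, p.f ζ = q.f ζ) (hη : η ≤ ξ) : p.cut η = q.cut η := by
  ext1
  funext ζ
  by_cases h1 : ζ < η
  · rw [Pre.cut_lt h1, Pre.cut_lt h1, h ζ (h1.trans_le hη)]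
  · rw [Pre.cut_ge (not_lt.1 h1), Pre.cut_ge (not_lt.1 h1)]

theorem F_ext (hK : Inac K) (bk : Δ → Set (Pre K R C Δ)) (S : Sys K R C Δ) (hG : ∀ η, Good bk S η) (ξ e : Δ) (he : ξ ≤ e)
    (r : R) (q : PP K R C ξ) (p : PP K R C e) (h : LE S ξ r q.1 p.1) :
    ∃ g : PP K R C e, LE S e r g.1 p.1 ∧ LE S ξ r g.1 q.1 ∧ g.1.cutP ξ = q := by
  classical
  set g0 : Δ → Stem K R × C := fun η => if η < ξ then q.1.f η else p.1.f η with hg0
  have hlt : ∀ η < ξ, g0 η = q.1.f η := fun η hη => if_pos hη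
  have hge : ∀ η, ξ ≤ η → g0 η = p.1.f η := fun η hη => if_neg (not_lt.2 hη)
  set g : Pre K R C Δ := ⟨g0, fext_small hK p.1 q.1 ξ g0 (by
    intro η hη
    by_cases h1 : η < ξ
    · rw [hlt η h1] at hη
      exact Or.inl hη
    · rw [hge η (not_lt.1 h1)] at hη
      exact Or.inr (Or.inl hη))⟩ with hg
  have hcut : ∀ η ≤ ξ, g.cut η = q.1.cut η := fun η hη => fext_cut (fun ζ hζ => hlt ζ hζ) hη
  have hsup : Sup e g := by
    intro η hη
    show g0 η = default
    rw [hge η (he.trans hη)]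
    exact p.2 η hη
  have hB : Below bk S ξ := I_below hK bk S ξ (fun η _ => hG η)
  refine ⟨⟨g, hsup⟩, ?_, ?_, ?_⟩
  · show LE S e r g p.1
    rw [LE_def]
    intro η hη
    by_cases h1 : η < ξ
    · have h2 : g.cutP η = q.1.cutP η := Subtype.ext (hcut η h1.le)
      have h3 : g.f η = q.1.f η := hlt η h1
      rw [h2, h3]
      rw [LE_def] at h
      exact h η h1
    · have h3 : g.f η = p.1.f η := hge η (not_lt.1 h1)
      rw [h3]
      exact fext_mrefl hK bk S hG η r _ _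
  · show LE S ξ r g q.1
    rw [← LE_cut (ζ := ξ) (ζ' := ξ) le_rfl le_rfl, hcut ξ le_rfl]
    exact I_refl bk S ξ hB r _
  · refine Subtype.ext ?_
    show g.cut ξ = q.1
    rw [hcut ξ le_rfl, Pre.cut_eq q.2]

theorem F_upd (hK : Inac K) (bk : Δ → Set (Pre K R C Δ)) (S : Sys K R C Δ) (hG : ∀ η, Good bk S η) (ξ e : Δ) (he : ξ < e)
    (r : R) (q : PP K R C ξ) (p : PP K R C e) (h : LE S ξ r q.1 p.1) (a' : Stem K R × C)
    (ha : MLE (LP S ξ) (S ξ) r q a' (p.1.f ξ)) :
    ∃ g : PP K R C e, LE S e r g.1 p.1 ∧ g.1.cutP ξ = q ∧ g.1.f ξ = a' := by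
  classical
  set g0 : Δ → Stem K R × C := fun η => if η < ξ then q.1.f η else if η = ξ then a' else p.1.f η with hg0
  have hlt : ∀ η < ξ, g0 η = q.1.f η := fun η hη => if_pos hη
  have heq : g0 ξ = a' := by simp [hg0]
  have hge : ∀ η, ξ < η → g0 η = p.1.f η := fun η hη => by
    simp [hg0, not_lt.2 hη.le, hη.ne']
  set g : Pre K R C Δ := ⟨g0, fext_small hK p.1 q.1 ξ g0 (by
    intro η hη
    rcases lt_trichotomy η ξ with h1 | h1 | h1
    · rw [hlt η h1] at hη
      exact Or.inl hη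
    · exact Or.inr (Or.inr h1)
    · rw [hge η h1] at hη
      exact Or.inr (Or.inl hη))⟩ with hg
  have hcut : ∀ η ≤ ξ, g.cut η = q.1.cut η := fun η hη => fext_cut (fun ζ hζ => hlt ζ hζ) hη
  have hsup : Sup e g := by
    intro η hη
    show g0 η = default
    rw [hge η (he.trans_le hη)]
    exact p.2 η hη
  have hcP : g.cutP ξ = q := by
    refine Subtype.ext ?_
    show g.cut ξ = q.1
    rw [hcut ξ le_rfl, Pre.cut_eq q.2]
  refine ⟨⟨g, hsup⟩, ?_, hcP, heq⟩
  show LE S e r g p.1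
  rw [LE_def]
  intro η hη
  rcases lt_trichotomy η ξ with h1 | h1 | h1
  · have h2 : g.cutP η = q.1.cutP η := Subtype.ext (hcut η h1.le)
    have h3 : g.f η = q.1.f η := hlt η h1
    rw [h2, h3]
    rw [LE_def] at h
    exact h η h1
  · subst h1
    have h3 : g.f η = a' := heq
    rw [hcP, h3]
    exact ha
  · have h3 : g.f η = p.1.f η := hge η h1
    rw [h3]
    exact fext_mrefl hK bk S hG η r _ _

theorem F_up (hK : Inac K) (bk : Δ → Set (Pre K R C Δ)) (S : Sys K R C Δ) (hG : ∀ η, Good bk S η) (ξ e : Δ) (he : ξ ≤ e)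
    (r : R) (g s : Pre K R C Δ) (hs : Sup ξ s) (h : LE S ξ r g s) : LE S e r g s := by
  rw [LE_def]
  intro η hη
  by_cases h1 : η < ξ
  · rw [LE_def] at h
    exact h η h1
  · rw [hs η (not_lt.1 h1)]
    obtain ⟨P, hP⟩ := fext_pos hK bk S hG η
    have h2 := hG η
    unfold Good at h2
    rw [← hP] at h2 ⊢
    exact M_top P (S η) _ h2 r _ _

end Pool.Agent.SKap
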