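import Pool.Agent.SKap.ADefs
import Pool.Agent.SKap.FExt

set_option autoImplicit false
set_option linter.all false

/-!
# F_fo, F_ic : truth values of names of the stage ξ do not change

`lift b` is the set b of conditions of the stage ξ, as a set of conditions of the stage e.
PROOF of F_fo. (→) r' ≤ r, q' with LP S ξ r' q' (p.1.cutP ξ), i.e. LE S ξ r' q'.1 p.1 (LE_cut). F_ext: g with LE S e r' g p, LE S ξ r' g q'. The hypothesis for r', g gives r'' ≤ r', p'',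
 LE S e r'' p'' g, s ∈ lift b, r'' ≤ s.1, LE S e r'' p'' s.2. Take q'' := p''.1.cutP ξ and (s.1, s.2.1.cutP ξ) ∈ b: LE S ξ r'' p'' q' by LE_le, I_trans, I_mono, then LE_cut.
(←) r' ≤ r, p' with LE S e r' p' p; then LE S ξ r' (p'.cut ξ) (p.cut ξ). The hypothesis gives r'' ≤ r', q'', LP S ξ r'' q'' (p'.cutP ξ), s ∈ b, r'' ≤ s.1, LP S ξ r'' q'' s.2. F_ext for (q'', p')
 at r'': g with LE S e r'' g p', LE S ξ r'' g q''. s' := (s.1, ⟨s.2.1, _⟩) ∈ lift b (Sup e from Sup ξ), and LE S e r'' g s'.2 by F_up from LE S ξ r'' g s.2 (I_trans).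
F_ic: the same, by contradiction.
-/

namespace Pool.Agent.SKap

open Cardinal Pool.Agent.SplK

variable {K R C Δ : Type} [LinearOrder K] [Nonempty K] [Preorder R] [Inhabited C] [LinearOrder Δ] [WellFoundedLT Δ]

/-- The set `b` of conditions of the stage `ξ` as a set of conditions of the stage `e`. -/
def lift {ξ : Δ} (e : Δ) (b : Set (R × PP K R C ξ)) : Set (R × PP K R C e) :=
  {s | Sup ξ s.2.1 ∧ (s.1, s.2.1.cutP ξ) ∈ b}

theorem f_fo_cut {S : Sys K R C Δ} {ξ : Δ} {r : R} {p' : Pre K R C Δ} (q : PP K R C ξ) :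
    LE S ξ r (p'.cut ξ) q.1 ↔ LE S ξ r p' q.1 := by
  have h : LE S ξ r (p'.cut ξ) (q.1.cut ξ) ↔ LE S ξ r p' q.1 := LE_cut le_rfl le_rfl
  rwa [Pre.cut_eq q.2] at h

theorem f_fo_cut' {S : Sys K R C Δ} {ξ : Δ} {r : R} {p : Pre K R C Δ} (q : PP K R C ξ) :
    LE S ξ r q.1 (p.cut ξ) ↔ LE S ξ r q.1 p := by
  have h : LE S ξ r (q.1.cut ξ) (p.cut ξ) ↔ LE S ξ r q.1 p := LE_cut le_rfl le_rfl
  rwa [Pre.cut_eq q.2] at h

theorem f_fo_cutcut {S : Sys K R C Δ} {ξ e : Δ} (he : ξ ≤ e) {r : R} {p' p : PP K R C e} (h : LP S e r p' p) :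
    LP S ξ r (p'.1.cutP ξ) (p.1.cutP ξ) := by
  have h1 : LE S ξ r p'.1 p.1 := LE_le he h
  exact (LE_cut le_rfl le_rfl).mpr h1

theorem f_fo_lift {ξ e : Δ} (he : ξ ≤ e) (b : Set (R × PP K R C ξ)) {s : R × PP K R C ξ} (hs : s ∈ b) :
    ((s.1, ⟨s.2.1, fun η hη => s.2.2 η (he.trans hη)⟩) : R × PP K R C e) ∈ lift e b := by
  refine ⟨s.2.2, ?_⟩
  have h1 : s.2.1.cutP ξ = s.2 := Pre.cutP_eq s.2
  change (s.1, s.2.1.cutP ξ) ∈ b
  rw [h1]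
  exact hs

theorem F_fo (hK : Inac K) (bk : Δ → Set (Pre K R C Δ)) (S : Sys K R C Δ) (hG : ∀ η, Good bk S η) (ξ e : Δ) (he : ξ ≤ e)
    (b : Set (R × PP K R C ξ)) (r : R) (p : PP K R C e) :
    FoL (LP S e) (lift e b) r p ↔ FoL (LP S ξ) b r (p.1.cutP ξ) := by
  have hB := I_below hK bk S ξ (fun η _ => hG η)
  constructor
  · intro h r' hr' q' hq'
    have h1 : LE S ξ r' q'.1 p.1 := (f_fo_cut' q').mp hq'
    obtain ⟨g, hg1, hg2, hg3⟩ := F_ext hK bk S hG ξ e he r' q' p h1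
    obtain ⟨r'', hr'', p'', hp'', s, hs, h3, h4⟩ := h r' hr' g hg1
    refine ⟨r'', hr'', p''.1.cutP ξ, ?_, (s.1, s.2.1.cutP ξ), hs.2, h3, f_fo_cutcut he h4⟩
    exact (f_fo_cut q').mpr (I_trans bk S ξ hB r'' _ _ _ (LE_le he hp'') (I_mono S ξ r' r'' hr'' _ _ hg2))
  · intro h r' hr' p' hp'
    obtain ⟨r'', hr'', q'', hq'', s, hs, h3, h4⟩ := h r' hr' (p'.1.cutP ξ) (f_fo_cutcut he hp')
    have h1 : LE S ξ r'' q''.1 p'.1 := (f_fo_cut' q'').mp hq''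
    obtain ⟨g, hg1, hg2, hg3⟩ := F_ext hK bk S hG ξ e he r'' q'' p' h1
    refine ⟨r'', hr'', g, hg1, (s.1, ⟨s.2.1, fun η hη => s.2.2 η (he.trans hη)⟩), f_fo_lift he b hs, h3, ?_⟩
    exact F_up hK bk S hG ξ e he r'' g.1 s.2.1 s.2.2 (I_trans bk S ξ hB r'' _ _ _ hg2 h4)

theorem F_ic (hK : Inac K) (bk : Δ → Set (Pre K R C Δ)) (S : Sys K R C Δ) (hG : ∀ η, Good bk S η) (ξ e : Δ) (he : ξ ≤ e)
    (b : Set (R × PP K R C ξ)) (r : R) (p : PP K R C e) :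
    IcL (LP S e) (lift e b) r p ↔ IcL (LP S ξ) b r (p.1.cutP ξ) := by
  have hB := I_below hK bk S ξ (fun η _ => hG η)
  constructor
  · intro h s hs r' hr' q' hq' hc
    have h1 : LE S ξ r' q'.1 p.1 := (f_fo_cut' q').mp hq'
    obtain ⟨g, hg1, hg2, hg3⟩ := F_ext hK bk S hG ξ e he r' q' p h1
    exact h (s.1, ⟨s.2.1, fun η hη => s.2.2 η (he.trans hη)⟩) (f_fo_lift he b hs) r' hr' g hg1
      ⟨hc.1, F_up hK bk S hG ξ e he r' g.1 s.2.1 s.2.2 (I_trans bk S ξ hB r' _ _ _ hg2 hc.2)⟩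
  · intro h s hs r' hr' p' hp' hc
    exact h (s.1, s.2.1.cutP ξ) hs.2 r' hr' (p'.1.cutP ξ) (f_fo_cutcut he hp') ⟨hc.1, f_fo_cutcut he hc.2⟩

end Pool.Agent.SKap
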