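import Pool.Agent.SKap.ADefs
import Pool.Agent.SKap.MBasic

set_option autoImplicit false
set_option linter.all false

/-!
# M_cc, M_pt, M_code : lower bounds with the same stem, adding a point to a stem, shrinking the set

PROOFS.
M_cc: if a = default take c := b (M_refl, M_top); if b = default take c := a. Otherwise a.1 = b.1: c := (a.1, c') with c' from hd.g2 Bool (fun i => if i then a.2 else b.2)
 (#Bool < #K: inac_bool). m1, m2 trivial (same stems), m3 vacuous, m4 by g2.
M_pt: let ν be a bound of a.1; for x > ν, a' := (s', a.2), s' y := {r | r ∈ a.1.s y ∨ y = x}  (down clear; reg: if y = x trivial, else a.1.reg; bdd by x).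
 m1 clear. m2: y ≤ z, r' ∈ s' y, r' ∈ a.1.s z: z ≤ ν < x (otherwise a.1.s z is empty), so y ≠ x and r' ∈ a.1.s y. m3: r' ∈ s' y, no r'' ≤ r' in a.1.s y: so y = x; use foL_down. m4 trivial.
M_code: a' := (a.1, c'') with c'' from hd.g2 Bool (fun i => if i then a.2 else c').
-/

namespace Pool.Agent.SKap

open Cardinal Pool.Agent.SplK

variable {K R C T : Type} [LinearOrder K] [Nonempty K] [Preorder R] [Inhabited C]

theorem M_cc (hK : Inac K) (P : RPos R T) (d : C → K → Set (R × T)) (F : Set T) (hd : CodesL K P.le d F)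
    (a b : Stem K R × C) (h : a.1 = b.1 ∨ a = default ∨ b = default) :
    ∃ c : Stem K R × C, (a = default → b = default → c = default) ∧
      ∀ r q, MLE P.le d r q c a ∧ MLE P.le d r q c b := by
  classical
  by_cases ha : a = default
  · subst ha
    exact ⟨b, fun _ h => h, fun r q => ⟨M_top P d F hd r q b, M_refl P d r q b⟩⟩
  by_cases hb : b = default
  · subst hb
    exact ⟨a, fun h _ => h, fun r q => ⟨M_refl P d r q a, M_top P d F hd r q a⟩⟩
  have h1 : a.1 = b.1 := by
    rcases h with h | h | h
    · exact h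
    · exact (ha h).elim
    · exact (hb h).elim
  obtain ⟨c', hc'⟩ := hd.g2 Bool (fun i => if i then a.2 else b.2) (inac_bool hK)
  refine ⟨(a.1, c'), fun h _ => (ha h).elim, ?_⟩
  have key : ∀ e : Stem K R × C, e.1 = a.1 → (∀ x r q, FoL P.le (d c' x) r q → FoL P.le (d e.2 x) r q) →
      ∀ r q, MLE P.le d r q (a.1, c') e := by
    intro e he hcc r q
    refine ⟨?_, ?_, ?_, ?_⟩
    · intro x r' hr' h
      rw [he] at h
      exact h
    · intro x y hxy r' hr' h1 h2
      rw [he]
      exact h1
    · intro x r' hr' h1 h2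
      rw [he] at h2
      exact (h2 r' le_rfl h1).elim
    · intro x r' hr' q1 h
      exact hcc x r' q1 h
  intro r q
  exact ⟨key a rfl (fun x r q h => by simpa using hc' true x r q h) r q,
    key b h1.symm (fun x r q h => by simpa using hc' false x r q h) r q⟩

theorem M_pt (P : RPos R T) (d : C → K → Set (R × T)) (a : Stem K R × C) :
    ∃ ν : K, ∀ x, ν < x → ∃ a' : Stem K R × C, (∀ r, r ∈ a'.1.s x) ∧
      ∀ r q, FoL P.le (d a.2 x) r q → MLE P.le d r q a' a := by
  classical
  obtain ⟨ν, hν⟩ := a.1.bdd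
  refine ⟨ν, fun x hx => ?_⟩
  let s' : Stem K R :=
    { s := fun y => {r | r ∈ a.1.s y ∨ y = x}
      down := fun y r hr r' hr' => hr.imp (fun h => a.1.down y r h r' hr') (fun h => h)
      reg := fun y r h => by
        by_cases hy : y = x
        · exact Or.inr hy
        · left
          apply a.1.reg
          intro r' hr'
          obtain ⟨r'', hr'', h2⟩ := h r' hr'
          exact ⟨r'', hr'', h2.resolve_right hy⟩
      bdd := ⟨x, fun y hy r hr => by
        rcases hr with h | h
        · exact hν y (hx.trans hy) r h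
        · exact hy.ne' h⟩ }
  refine ⟨(s', a.2), fun r => Or.inr rfl, ?_⟩
  intro r q hF
  refine ⟨?_, ?_, ?_, ?_⟩
  · intro y r' hr' h
    exact Or.inl h
  · intro y z hyz r' hr' h1 h2
    rcases h1 with h1 | h1
    · exact h1
    · exfalso
      subst h1
      exact hν z (hx.trans_le hyz) r' h2
  · intro y r' hr' h1 h2
    rcases h1 with h1 | h1
    · exact (h2 r' le_rfl h1).elim
    · subst h1
      exact foL_down P hF hr' (P.refl _ _)
  · intro y r' hr' q1 h
    exact h

theorem M_code (hK : Inac K) (P : RPos R T) (d : C → K → Set (R × T)) (F : Set T) (hd : CodesL K P.le d F)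
    (a : Stem K R × C) (c' : C) :
    ∃ a' : Stem K R × C, a'.1 = a.1 ∧ (∀ r q, MLE P.le d r q a' a) ∧
      ∀ x r q, FoL P.le (d a'.2 x) r q → FoL P.le (d c' x) r q := by
  classical
  obtain ⟨c'', hc''⟩ := hd.g2 Bool (fun i => if i then a.2 else c') (inac_bool hK)
  refine ⟨(a.1, c''), rfl, ?_, fun x r q h => by simpa using hc'' false x r q h⟩
  intro r q
  refine ⟨?_, ?_, ?_, ?_⟩
  · intro x r' hr' h
    exact h
  · intro x y hxy r' hr' h1 h2
    exact h1
  · intro x r' hr' h1 h2
    exact (h2 r' le_rfl h1).elim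
  · intro x r' hr' q1 h
    simpa using hc'' true x r' q1 h

end Pool.Agent.SKap
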