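import Pool.Agent.SKap.ADefs
import Pool.Agent.SKap.FFo
import Pool.Agent.SKap.MExt

set_option autoImplicit false
set_option linter.all false

/-!
# F_unb, F_dec : the generic set of the stage ξ

PROOF of F_unb. Let a := p.1.f ξ and ν₀ as in M_pt for a (P := the R-poset of the stage ξ, P.le = LP S ξ). (hG ξ).g4 for the code a.2 at r, p.1.cutP ξ and max ν ν₀: r' ≤ r, q',
 LP S ξ r' q' (p.1.cutP ξ), x > max ν ν₀, FoL (LP S ξ) (S ξ a.2 x) r' q'. M_pt gives a' with r' ∈ a'.1.s x and MLE (LP S ξ) (S ξ) r' q' a' a. F_upd gives g =: p'.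
PROOF of F_dec. N' x := {s : R × PP ξ | ∃ t ∈ N x, t.1 = s.1 ∧ t.2.1 = s.2.1}; then N x = lift e (N' x) (for t ∈ N x the support of t.2.1 is below ξ, so t.2.1.cut ξ = t.2.1).
 (hG ξ).g5 for N' at r, p.1.cutP ξ: r' ≤ r, q', LP S ξ r' q' (p.1.cutP ξ), c' and one of two cases. M_code for a := p.1.f ξ and c': a'. F_upd for a': g =: p' (g.1.cutP ξ = q', g.1.f ξ = a').
 ν := a bound of a'.1 (a'.1.bdd). Let x > ν, r'' ≤ r', LP S e r'' p'' p', r'' ∈ (p''.1.f ξ).1.s x. LE_def at ξ < e: MLE (LP S ξ) (S ξ) r'' (p''.1.cutP ξ) (p''.1.f ξ) a'. m3 for x: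
 FoL (LP S ξ) (S ξ a'.2 x) r'' (p''.1.cutP ξ) (no r₃ is in a'.1.s x because x > ν). M_code: FoL (LP S ξ) (S ξ c' x) r'' (p''.1.cutP ξ). LP S ξ r'' (p''.1.cutP ξ) q' by LE_le and LE_cut.
 So the case hypothesis gives FoL (LP S ξ) (N' x) r'' (p''.1.cutP ξ) (or IcL) and F_fo (F_ic) gives the claim.
-/

namespace Pool.Agent.SKap

open Cardinal Pool.Agent.SplK

variable {K R C Δ : Type} [LinearOrder K] [Nonempty K] [Preorder R] [Inhabited C] [LinearOrder Δ] [WellFoundedLT Δ]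

/-- The R-poset of the stage. -/
lemma fgen_pos (hK : Inac K) (bk : Δ → Set (Pre K R C Δ)) (S : Sys K R C Δ) (hG : ∀ η, Good bk S η) (ξ : Δ) :
    ∃ P : RPos R (PP K R C ξ), P.le = LP S ξ := by
  obtain ⟨P, h1, _⟩ := I_pos1 hK bk S ξ (I_below hK bk S ξ fun η _ => hG η)
  exact ⟨P, h1⟩

lemma fgen_cut (S : Sys K R C Δ) (ξ e : Δ) (r : R) (q : PP K R C ξ) (p : PP K R C e)
    (h : LP S ξ r q (p.1.cutP ξ)) : LE S ξ r q.1 p.1 := by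
  unfold LP at h
  rw [Pre.cutP_val] at h
  have h2 : q.1 = q.1.cut ξ := (Pre.cut_eq q.2).symm
  rw [h2] at h
  exact (LE_cut le_rfl le_rfl).1 h

theorem F_unb (hK : Inac K) (bk : Δ → Set (Pre K R C Δ)) (S : Sys K R C Δ) (hG : ∀ η, Good bk S η) (ξ e : Δ) (he : ξ < e)
    (r : R) (p : PP K R C e) (ν : K) :
    ∃ r' ≤ r, ∃ p' : PP K R C e, LP S e r' p' p ∧ ∃ x, ν < x ∧ r' ∈ (p'.1.f ξ).1.s x := by
  obtain ⟨P, hP⟩ := fgen_pos hK bk S hG ξ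
  obtain ⟨ν₀, hν₀⟩ := M_pt P (S ξ) (p.1.f ξ)
  obtain ⟨r', hr', q', hq', x, hx, hfo⟩ := (hG ξ).g4 (p.1.f ξ).2 r (p.1.cutP ξ) (max ν ν₀)
  obtain ⟨a', ha1, ha2⟩ := hν₀ x ((le_max_right _ _).trans_lt hx)
  have hm := ha2 r' q' (by rw [hP]; exact hfo)
  rw [hP] at hm
  obtain ⟨g, hg1, hg2, hg3⟩ := F_upd hK bk S hG ξ e he r' q' p (fgen_cut S ξ e r' q' p hq') a' hm
  exact ⟨r', hr', g, hg1, x, (le_max_left _ _).trans_lt hx, by rw [hg3]; exact ha1 r'⟩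

theorem F_dec (hK : Inac K) (bk : Δ → Set (Pre K R C Δ)) (S : Sys K R C Δ) (hG : ∀ η, Good bk S η) (ξ e : Δ) (he : ξ < e)
    (N : K → Set (R × PP K R C e)) (hN : ∀ x, ∀ s ∈ N x, Sup ξ s.2.1 ∧ s.2.1 ∈ bk ξ) (r : R) (p : PP K R C e) :
    ∃ r' ≤ r, ∃ p' : PP K R C e, LP S e r' p' p ∧ ∃ ν,
      (∀ x, ν < x → ∀ r'' ≤ r', ∀ p'' : PP K R C e, LP S e r'' p'' p' → r'' ∈ (p''.1.f ξ).1.s x →
        FoL (LP S e) (N x) r'' p'') ∨
      (∀ x, ν < x → ∀ r'' ≤ r', ∀ p'' : PP K R C e, LP S e r'' p'' p' → r'' ∈ (p''.1.f ξ).1.s x →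
        IcL (LP S e) (N x) r'' p'') := by
  obtain ⟨P, hP⟩ := fgen_pos hK bk S hG ξ
  let N' : K → Set (R × PP K R C ξ) := fun x => {s | ∃ t ∈ N x, t.1 = s.1 ∧ t.2.1 = s.2.1}
  have hlift : ∀ x, N x = lift e (N' x) := by
    intro x
    ext ⟨t1, t2⟩
    constructor
    · intro ht
      refine ⟨(hN x _ ht).1, (t1, t2), ht, rfl, ?_⟩
      rw [Pre.cutP_val, Pre.cut_eq (hN x _ ht).1]
    · rintro ⟨h1, ⟨u1, u2⟩, hu, h2, h3⟩
      simp only at h1 h2 h3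
      rw [Pre.cutP_val, Pre.cut_eq h1] at h3
      have h4 : u2 = t2 := Subtype.ext h3
      rw [← h2, ← h4]
      exact hu
  obtain ⟨r', hr', q', hq', c', hc'⟩ := (hG ξ).g5 N' (by
    rintro x s ⟨t, ht, h1, h2⟩
    show s.2.1 ∈ bk ξ
    rw [← h2]
    exact (hN x t ht).2) r (p.1.cutP ξ)
  obtain ⟨a', ha1, ha2, ha3⟩ := M_code hK P (S ξ) {q | q.1 ∈ bk ξ} (by rw [hP]; exact hG ξ) (p.1.f ξ) c'
  rw [hP] at ha2 ha3
  obtain ⟨g, hg1, hg2, hg3⟩ := F_upd hK bk S hG ξ e he r' q' p (fgen_cut S ξ e r' q' p hq') a' (ha2 r' q')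
  obtain ⟨ν, hν⟩ := a'.1.bdd
  have key : ∀ x, ν < x → ∀ r'' ≤ r', ∀ p'' : PP K R C e, LP S e r'' p'' g → r'' ∈ (p''.1.f ξ).1.s x →
      LP S ξ r'' (p''.1.cutP ξ) q' ∧ FoL (LP S ξ) (S ξ c' x) r'' (p''.1.cutP ξ) := by
    intro x hx r'' hr'' p'' hp'' hmem
    constructor
    · have h1 : LE S ξ r'' p''.1 g.1 := LE_le he.le hp''
      have h2 := (LE_cut (ζ := ξ) (ζ' := ξ) le_rfl le_rfl).2 h1
      rw [← hg2]
      exact h2
    · have h1 := (LE_def S e r'' p''.1 g.1).1 hp'' ξ he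
      rw [hg3] at h1
      exact ha3 x r'' _ (h1.m3 x r'' le_rfl hmem fun r₃ _ => hν x hx r₃)
  refine ⟨r', hr', g, hg1, ν, ?_⟩
  rcases hc' with hc' | hc'
  · left
    intro x hx r'' hr'' p'' hp'' hmem
    obtain ⟨h1, h2⟩ := key x hx r'' hr'' p'' hp'' hmem
    rw [hlift x]
    exact (F_fo hK bk S hG ξ e he.le (N' x) r'' p'').2 (hc' x r'' hr'' _ h1 h2)
  · right
    intro x hx r'' hr'' p'' hp'' hmem
    obtain ⟨h1, h2⟩ := key x hx r'' hr'' p'' hp'' hmem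
    rw [hlift x]
    exact (F_ic hK bk S hG ξ e he.le (N' x) r'' p'').2 (hc' x r'' hr'' _ h1 h2)

end Pool.Agent.SKap
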