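import Pool.Agent.SKap.ADefs
import Pool.Agent.SKap.FGen
import Pool.Agent.SKap.FAnti

set_option autoImplicit false
set_option linter.all false

/-!
# F_ns : no small family is splitting

PROOF. Let n, I, hI, x, p be given. F_anti: W i b for x i b. F := {q | ∃ i b, ∃ w ∈ W i b, q = w.t.1}; #F ≤ #I * #K * #K ≤ pl #K n (ℵ₀ ≤ #K ≤ pl #K n; Cardinal.mk_iUnion_le, mul_le_max..., or write F as
 the range of a function on Σ i b, W i b). All elements satisfy Sup e (they are in PP e). hbk gives ξ < e with bk ξ = F and Sup ξ q for q ∈ F.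
 q := p, B b := {u : Star P | u.r ∈ (u.t.1.f ξ).1.s b}.
 (i) for a and q' ≤ p: F_unb at q'.r, q'.t, a gives r', p', x: E := ⟨r', p'⟩ ≤ q' and E ∈ B x.
 (ii) for i and q' ≤ p: F_dec for N b := {s | (⟨s.1, s.2⟩ : Star P) ∈ W i b} at q'.r, q'.t: r', p', ν and a case: q'' := ⟨r', p'⟩, a := ν. Let b > a, E ≤ q'', D ∈ B b, E ≤ D. Then
   E.r ∈ (D.t.1.f ξ).1.s b (down) and by LE_def at ξ for LE S e E.r E.t.1 D.t.1: E.r ∈ (E.t.1.f ξ).1.s b (m1). The case hypothesis gives FoL P.le (N b) E.r E.t, i.e. Fo (W i b) E by foL_iff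
   (up P (N b) = W i b), i.e. Fo (x i b) E. The other case: icL_iff.
-/

namespace Pool.Agent.SKap

open Cardinal Pool.Agent.SplK

variable {K R C Δ : Type} [LinearOrder K] [Nonempty K] [Preorder R] [Inhabited C] [LinearOrder Δ] [WellFoundedLT Δ]

theorem fNs_pl (κ : Cardinal.{0}) (n : ℕ) : κ ≤ pl κ n := by
  induction n with
  | zero => rw [pl_zero]
  | succ n ih => rw [pl_succ]; exact ih.trans (Order.le_succ _)

theorem fNs_card {K I A B : Type} (hK : ℵ₀ ≤ #K) (n : ℕ) (hI : #I ≤ pl #K n) (W : I → K → Set A)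
    (hW : ∀ i b, #(W i b) ≤ #K) (f : A → B) : #({q : B | ∃ i b, ∃ w ∈ W i b, q = f w} : Set B) ≤ pl #K n := by
  have h1 : ({q : B | ∃ i b, ∃ w ∈ W i b, q = f w} : Set B) ⊆
      Set.range (fun z : (Σ i : I, Σ b : K, W i b) => f z.2.2.1) := by
    rintro q ⟨i, b, w, hw, rfl⟩
    exact ⟨⟨i, b, w, hw⟩, rfl⟩
  refine (mk_le_mk_of_subset h1).trans (mk_range_le.trans ?_)
  have h2 : ∀ i : I, #(Σ b : K, W i b) ≤ pl #K n := by
    intro i
    rw [mk_sigma]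
    refine le_trans (sum_le_sum _ (fun _ => #K) (hW i)) ?_
    simp only [sum_const, lift_id]
    rw [mul_eq_self hK]
    exact fNs_pl _ n
  rw [mk_sigma]
  refine le_trans (sum_le_sum _ (fun _ => pl #K n) h2) ?_
  simp only [sum_const, lift_id]
  calc #I * pl #K n ≤ pl #K n * pl #K n := mul_le_mul' hI le_rfl
    _ = pl #K n := mul_eq_self (hK.trans (fNs_pl _ n))

theorem F_ns (hK : Inac K) (bk : Δ → Set (Pre K R C Δ)) (S : Sys K R C Δ) (hG : ∀ η, Good bk S η) (e : Δ)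
    (hbk : ∀ (n : ℕ) (F : Set (Pre K R C Δ)), #F ≤ pl #K n → (∀ p ∈ F, Sup e p) → ∃ ξ, ξ < e ∧ bk ξ = F ∧ ∀ p ∈ F, Sup ξ p)
    (P : RPos R (PP K R C e)) (hP : P.le = LP S e) (hcc : CCs K (Star P)) : NS K (Star P) := by
  intro n I hI x p
  choose W hW1 hW2 hW3 using fun (i : I) (b : K) => F_anti hcc (x i b)
  have hF := fNs_card hK.unc.le n hI W hW1 (fun w : Star P => w.t.1)
  obtain ⟨ξ, hξ, hξ1, hξ2⟩ := hbk n _ hF (by
    rintro _ ⟨i, b, w, hw, rfl⟩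
    exact w.t.2)
  have hLP : ∀ r (t t' : PP K R C e), P.le r t t' ↔ LP S e r t t' := fun r t t' => by rw [hP]
  refine ⟨p, le_rfl, fun b => {u : Star P | u.r ∈ (u.t.1.f ξ).1.s b}, ?_, ?_⟩
  · intro a q' hq'
    obtain ⟨r', hr', p', hp', y, hy, hy'⟩ := F_unb hK bk S hG ξ e hξ q'.r q'.t a
    exact ⟨⟨r', p'⟩, ⟨hr', (hLP _ _ _).2 hp'⟩, ⟨r', p'⟩, ⟨y, hy, hy'⟩, le_rfl⟩
  · intro i q' hq'
    have hN : ∀ b, ∀ s ∈ {s : R × PP K R C e | (⟨s.1, s.2⟩ : Star P) ∈ W i b}, Sup ξ s.2.1 ∧ s.2.1 ∈ bk ξ := by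
      intro b s hs
      have h1 : s.2.1 ∈ {q | ∃ i b, ∃ w ∈ W i b, q = w.t.1} := ⟨i, b, ⟨s.1, s.2⟩, hs, rfl⟩
      exact ⟨hξ2 _ h1, by rw [hξ1]; exact h1⟩
    obtain ⟨r', hr', p', hp', ν, hcase⟩ := F_dec hK bk S hG ξ e hξ
      (fun b => {s : R × PP K R C e | (⟨s.1, s.2⟩ : Star P) ∈ W i b}) hN q'.r q'.t
    have hkey : ∀ b, ∀ E : Star P, (∃ D ∈ {u : Star P | u.r ∈ (u.t.1.f ξ).1.s b}, E ≤ D) →
        E.r ∈ (E.t.1.f ξ).1.s b := by
      rintro b E ⟨D, hD, hED⟩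
      have h1 : E.r ∈ (D.t.1.f ξ).1.s b := (D.t.1.f ξ).1.down b _ hD _ hED.1
      have h2 : LP S e E.r E.t D.t := (hLP _ _ _).1 hED.2
      exact ((LE_def S e E.r E.t.1 D.t.1).1 h2 ξ hξ).m1 b E.r le_rfl h1
    refine ⟨⟨r', p'⟩, ⟨hr', (hLP _ _ _).2 hp'⟩, ν, ?_⟩
    rcases hcase with hc | hc
    · left
      intro b hb E hE hD
      have h3 := hc b hb E.r hE.1 E.t ((hLP _ _ _).1 hE.2) (hkey b E hD)
      rw [← hP, foL_iff] at h3
      exact (hW2 i b E).1 h3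
    · right
      intro b hb E hE hD
      have h3 := hc b hb E.r hE.1 E.t ((hLP _ _ _).1 hE.2) (hkey b E hD)
      rw [← hP, icL_iff] at h3
      exact (hW3 i b E).1 h3

end Pool.Agent.SKap
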