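import Pool.Agent.SKap.ADefs

set_option autoImplicit false
set_option linter.all false

/-!
# S_clos : closure under operations with fewer than ρ arguments

PROOF. J := ρ.ord.ToType (a wellorder; every subset of size < ρ is bounded because ρ is regular; #J = ρ). By wellfounded recursion X j := X₀ ∪ ⋃ i < j, (X i ∪ ⋃ {F a | a ⊆ X i, #a < ρ}).
 X j ⊇ X₀, X is increasing, #(X j) ≤ λ by induction: the number of a ⊆ X i with #a < ρ is at most λ (ρ many values c = #a < ρ, e.g. c = #(Iio k), k ∈ J, and for each c the number of a ⊆ X i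
 with #a ≤ c is at most (max λ ℵ₀)^c = λ^c ≤ λ: Cardinal.mk_bounded_subset_le / mk_bounded_set_le), so the union of the F a has size ≤ λ·λ and the union over i < j size ≤ ρ·λ = λ.
 X := ⋃ j, X j: #X ≤ ρ·λ. If a ⊆ X, #a < ρ: choose j(x) with x ∈ X (j x) for x ∈ a, a bound j of the j(x); a ⊆ X j, so F a ⊆ X (j+1) (J has no largest element) ⊆ X.
-/

namespace Pool.Agent.SKap

open Cardinal Pool.Agent.SplK

lemma sclos_bdd (ρ : Cardinal.{0}) (hρ : ρ.IsRegular) (S : Set ρ.ord.ToType) (hS : #S < ρ) : ∃ j, ∀ i ∈ S, i < j := by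
  by_contra h
  push Not at h
  have h1 : IsCofinal S := fun j => by
    obtain ⟨i, hi, h2⟩ := h j
    exact ⟨i, hi, h2⟩
  have h2 := Order.cof_le h1
  rw [Ordinal.cof_toType, hρ.cof_ord] at h2
  exact absurd hS (not_lt.2 h2)

lemma sclos_union {T ι : Type} (l : Cardinal.{0}) (hl : ℵ₀ ≤ l) (f : ι → Set T) (hι : #ι ≤ l) (hf : ∀ i, #(f i) ≤ l) :
    #(⋃ i, f i) ≤ l := by
  refine Cardinal.mk_iUnion_le_sum_mk.trans ?_
  calc Cardinal.sum (fun i => #(f i)) ≤ Cardinal.sum (fun _ : ι => l) := Cardinal.sum_le_sum _ _ hf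
    _ = #ι * l := by rw [Cardinal.sum_const']
    _ ≤ l * l := mul_le_mul_left hι l
    _ = l := Cardinal.mul_eq_self hl

/-- The number of small subsets. -/
lemma sclos_small {T : Type} (ρ l : Cardinal.{0}) (hρ : ρ.IsRegular) (hρl : ρ ≤ l) (hl : ∀ c < ρ, l ^ c ≤ l) (X : Set T)
    (hX : #X ≤ l) : #{a : Set T // a ⊆ X ∧ #a < ρ} ≤ l := by
  have h0 : ℵ₀ ≤ l := hρ.aleph0_le.trans hρl
  have hJ : #ρ.ord.ToType = ρ := by rw [Cardinal.mk_toType, Cardinal.card_ord]
  have h1 : ({a : Set T | a ⊆ X ∧ #a < ρ}) ⊆ ⋃ j : ρ.ord.ToType, {a : Set T | a ⊆ X ∧ #a ≤ #(Set.Iio j)} := by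
    rintro a ⟨ha, hac⟩
    have h2 : (#a).ord < Ordinal.type (fun x y : ρ.ord.ToType => x < y) := by
      rw [Ordinal.type_toType]
      exact Cardinal.ord_lt_ord.2 hac
    obtain ⟨j, hj⟩ := Ordinal.mem_range_typein_iff (· < ·) |>.2 h2
    refine Set.mem_iUnion.2 ⟨j, ha, ?_⟩
    have h3 := congrArg Ordinal.card hj
    rw [Cardinal.card_ord, Ordinal.card_typein] at h3
    exact h3.ge
  refine (Cardinal.mk_le_mk_of_subset h1).trans (sclos_union l h0 _ (by rw [hJ]; exact hρl) fun j => ?_)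
  have h2 := Cardinal.mk_bounded_subset_le X #(Set.Iio j)
  refine h2.trans ?_
  have h3 : #(Set.Iio j) < ρ := Cardinal.mk_Iio_toType_ord_lt j
  refine (Cardinal.power_le_power_right (max_le hX h0)).trans (hl _ h3)

theorem S_clos {T : Type} (ρ l : Cardinal.{0}) (hρ : ρ.IsRegular) (hρl : ρ ≤ l) (hl : ∀ c < ρ, l ^ c ≤ l)
    (F : Set T → Set T) (hF : ∀ a : Set T, #a < ρ → #(F a) ≤ l) (X₀ : Set T) (h0 : #X₀ ≤ l) :
    ∃ X : Set T, X₀ ⊆ X ∧ #X ≤ l ∧ ∀ a : Set T, a ⊆ X → #a < ρ → F a ⊆ X := by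
  classical
  have hal : ℵ₀ ≤ l := hρ.aleph0_le.trans hρl
  have hJ : #ρ.ord.ToType = ρ := by rw [Cardinal.mk_toType, Cardinal.card_ord]
  haveI : NoMaxOrder ρ.ord.ToType := Cardinal.noMaxOrder hρ.aleph0_le
  let step : Set T → Set T := fun Y => Y ∪ ⋃ a : {a : Set T // a ⊆ Y ∧ #a < ρ}, F a.1
  let X : ρ.ord.ToType → Set T := (wellFounded_lt (α := ρ.ord.ToType)).fix fun j Y =>
    X₀ ∪ ⋃ i : Set.Iio j, step (Y i.1 i.2)
  have hX : ∀ j, X j = X₀ ∪ ⋃ i : Set.Iio j, step (X i.1) := fun j => WellFounded.fix_eq _ _ j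
  have hXm : ∀ i j, i < j → step (X i) ⊆ X j := by
    intro i j hij
    rw [hX j]
    exact Set.subset_union_of_subset_right (Set.subset_iUnion (fun i : Set.Iio j => step (X i.1)) ⟨i, hij⟩) _
  have hXc : ∀ j, #(X j) ≤ l := by
    intro j
    induction j using WellFoundedLT.induction with
    | ind j ih =>
      rw [hX j]
      refine (Cardinal.mk_union_le _ _).trans (Cardinal.add_le_of_le hal h0 (sclos_union l hal _ ?_ ?_))
      · exact (Cardinal.mk_Iio_toType_ord_lt j).le.trans hρl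
      · rintro ⟨i, hi⟩
        refine (Cardinal.mk_union_le _ _).trans (Cardinal.add_le_of_le hal (ih i hi) (sclos_union l hal _ ?_ ?_))
        · exact sclos_small ρ l hρ hρl hl (X i) (ih i hi)
        · exact fun a => hF a.1 a.2.2
  refine ⟨⋃ j, X j, ?_, sclos_union l hal _ (by rw [hJ]; exact hρl) hXc, ?_⟩
  · obtain ⟨j⟩ : Nonempty ρ.ord.ToType := by
      rw [← Cardinal.mk_ne_zero_iff, hJ]
      exact hρ.pos.ne'
    refine Set.subset_iUnion_of_subset j ?_
    rw [hX j]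
    exact Set.subset_union_left
  · intro a ha hac
    have h1 : ∀ x : a, ∃ j, x.1 ∈ X j := fun x => Set.mem_iUnion.1 (ha x.2)
    choose f hf using h1
    obtain ⟨j, hj⟩ := sclos_bdd ρ hρ (Set.range f) (lt_of_le_of_lt Cardinal.mk_range_le hac)
    obtain ⟨k, hk⟩ := exists_gt j
    have h2 : a ⊆ X j := fun x hx => hXm (f ⟨x, hx⟩) j (hj _ ⟨_, rfl⟩) (Or.inl (hf ⟨x, hx⟩))
    refine Set.subset_iUnion_of_subset k (Set.Subset.trans ?_ (hXm j k hk))
    exact Set.subset_union_of_subset_right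
      (Set.subset_iUnion (fun a : {a : Set T // a ⊆ X j ∧ #a < ρ} => F a.1) ⟨a, h2, hac⟩) _

end Pool.Agent.SKap
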