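import Pool.Agent.SKap.ADefs
import Pool.Agent.SKap.CInac
import Pool.Agent.SKap.SClos

set_option autoImplicit false
set_option linter.all false

/-!
# C_dsys : two compatible partial functions

PROOF. κ := #K regular, κ^c ≤ κ for c < κ (CInac). Apply S_clos with T := X ⊕ I, ρ := κ, l := κ, X₀ := ∅ and
 F a := {inl x | ∃ i, inr i ∈ a ∧ g i x ≠ none} ∪ {inr (cf D h) | h : D → Option Y, ∃ i, ∀ x ∈ D, g i x = h x}, where D := {x | inl x ∈ a} and cf D h is a chosen i with ∀ x ∈ D, g i x = h x.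
 Sizes for #a < κ: the first set is a union of < κ sets of size < κ; the second has at most #(Option Y)^#D ≤ κ elements. Let Z be the closed set, #Z ≤ κ. Since κ < #I there is i with inr i ∉ Z.
 a := {inl x | inl x ∈ Z, g i x ≠ none}: #a < κ, a ⊆ Z, D = {x | inl x ∈ a}. So j := cf D (g i restricted to D) satisfies inr j ∈ Z and g j x = g i x for x ∈ D; i ≠ j. Let g i x ≠ none and g j x ≠ none.
 Then inl x ∈ F {inr j} ⊆ Z, so x ∈ D and g i x = g j x.
-/

namespace Pool.Agent.SKap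

open Cardinal Pool.Agent.SplK

/-- the elements of `X` in `a` -/
def CDsys_D {X I : Type} (a : Set (X ⊕ I)) : Set X := {x | Sum.inl x ∈ a}

theorem CDsys_card {X I : Type} (a : Set (X ⊕ I)) : #(CDsys_D a) ≤ #a :=
  mk_le_of_injective (f := fun x : CDsys_D a => (⟨Sum.inl x.1, x.2⟩ : a)) (fun x x' h => by
    have h1 : (Sum.inl x.1 : X ⊕ I) = Sum.inl x'.1 := congrArg Subtype.val h
    exact Subtype.ext (Sum.inl_injective h1))

theorem C_dsys {K : Type} [LinearOrder K] (hK : Inac K) {I X Y : Type} (hY : #Y ≤ #K) (g : I → X → Option Y)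
    (hg : ∀ i, #{x | g i x ≠ none} < #K) (hI : #K < #I) :
    ∃ i j, i ≠ j ∧ ∀ x, g i x = g j x ∨ g i x = none ∨ g j x = none := by
  classical
  have hreg := C_reg hK
  have hω : ℵ₀ ≤ #K := hK.unc.le
  have hne : Nonempty I := by
    rw [← mk_ne_zero_iff]
    exact ((zero_le).trans_lt hI).ne'
  have hcf : ∀ (D : Set X) (h : D → Option Y), ∃ j : I, (∃ i, ∀ x : D, g i x = h x) → ∀ x : D, g j x = h x := by
    intro D h
    by_cases hex : ∃ i, ∀ x : D, g i x = h x
    · obtain ⟨i, hi⟩ := hex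
      exact ⟨i, fun _ => hi⟩
    · exact ⟨hne.some, fun h' => (hex h').elim⟩
  choose cf hcf using hcf
  obtain ⟨F, hFd⟩ : ∃ F : Set (X ⊕ I) → Set (X ⊕ I), F = fun a =>
      (⋃ i : {i // Sum.inr i ∈ a}, Sum.inl '' {x | g i.1 x ≠ none}) ∪
      Set.range (fun h : CDsys_D a → Option Y => (Sum.inr (cf (CDsys_D a) h) : X ⊕ I)) := ⟨_, rfl⟩
  have hF : ∀ a : Set (X ⊕ I), #a < #K → #(F a) ≤ #K := by
    intro a ha
    rw [hFd]
    refine (mk_union_le _ _).trans (add_le_of_le hω ?_ ?_)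
    · refine mk_iUnion_le_sum_mk.trans ?_
      refine (sum_le_sum _ (fun _ => #K) (fun i : {i // Sum.inr i ∈ a} => mk_image_le.trans (hg i.1).le)).trans ?_
      rw [sum_const']
      have h1 : #{i // Sum.inr i ∈ a} ≤ #a :=
        mk_le_of_injective (f := fun i : {i // Sum.inr i ∈ a} => (⟨Sum.inr i.1, i.2⟩ : a)) (fun x x' h => by
          have h1 : (Sum.inr x.1 : X ⊕ I) = Sum.inr x'.1 := congrArg Subtype.val h
          exact Subtype.ext (Sum.inr_injective h1))
      exact (mul_le_mul' (h1.trans ha.le) le_rfl).trans (mul_eq_self hω).le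
    · refine mk_range_le.trans ?_
      have h1 : #(CDsys_D a → Option Y) = #(Option Y) ^ #(CDsys_D a) := rfl
      rw [h1]
      have h2 : #(Option Y) ≤ #K := by
        rw [mk_option]
        exact add_le_of_le hω hY (one_lt_aleph0.le.trans hω)
      exact (power_le_power_right h2).trans (C_fun hK _ ((CDsys_card a).trans_lt ha))
  obtain ⟨Z, -, hZ, hcl⟩ := S_clos #K #K hreg le_rfl (fun c hc => C_fun hK c hc) F hF ∅ (by simp)
  obtain ⟨i, hi⟩ : ∃ i, (Sum.inr i : X ⊕ I) ∉ Z := by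
    by_contra hcon
    push Not at hcon
    have h1 : #I ≤ #Z := mk_le_of_injective (f := fun i : I => (⟨Sum.inr i, hcon i⟩ : Z)) (fun x x' h => by
      have h1 : (Sum.inr x : X ⊕ I) = Sum.inr x' := congrArg Subtype.val h
      exact Sum.inr_injective h1)
    exact absurd (h1.trans hZ) (not_le.mpr hI)
  obtain ⟨a, had⟩ : ∃ a : Set (X ⊕ I), a = Sum.inl '' {x | Sum.inl x ∈ Z ∧ g i x ≠ none} := ⟨_, rfl⟩
  have haZ : a ⊆ Z := by
    rw [had]
    rintro _ ⟨x, hx, rfl⟩
    exact hx.1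
  have hac : #a < #K := by
    rw [had]
    refine mk_image_le.trans_lt (lt_of_le_of_lt (mk_le_mk_of_subset ?_) (hg i))
    exact fun x hx => hx.2
  have hD : ∀ x, x ∈ CDsys_D a ↔ Sum.inl x ∈ Z ∧ g i x ≠ none := by
    intro x
    show Sum.inl x ∈ a ↔ _
    rw [had]
    constructor
    · rintro ⟨x', hx', he⟩
      rw [← Sum.inl_injective he]
      exact hx'
    · intro hx
      exact ⟨x, hx, rfl⟩
  obtain ⟨j, hj⟩ : ∃ j, j = cf (CDsys_D a) (fun x => g i x.1) := ⟨_, rfl⟩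
  have hjs : ∀ x ∈ CDsys_D a, g j x = g i x := fun x hx => by
    rw [hj]
    exact hcf (CDsys_D a) (fun x => g i x.1) ⟨i, fun _ => rfl⟩ ⟨x, hx⟩
  have hjZ : (Sum.inr j : X ⊕ I) ∈ Z := by
    refine hcl a haZ hac ?_
    rw [hFd]
    exact Or.inr ⟨fun x => g i x.1, by rw [hj]⟩
  refine ⟨i, j, fun h => hi (h ▸ hjZ), fun x => ?_⟩
  by_cases h1 : g i x = none
  · exact Or.inr (Or.inl h1)
  by_cases h2 : g j x = none
  · exact Or.inr (Or.inr h2)
  have h3 : (Sum.inl x : X ⊕ I) ∈ Z := by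
    refine hcl {Sum.inr j} (Set.singleton_subset_iff.mpr hjZ) ?_ ?_
    · rw [mk_singleton]
      exact one_lt_aleph0.trans hK.unc
    · rw [hFd]
      exact Or.inl (Set.mem_iUnion.mpr ⟨⟨j, rfl⟩, ⟨x, h2, rfl⟩⟩)
  exact Or.inl (hjs x ((hD x).mpr ⟨h3, h1⟩)).symm

end Pool.Agent.SKap
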