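import Pool.Agent.SKap.ADefs
import Pool.Agent.SKap.MExt
import Pool.Agent.SKap.CDsys

set_option autoImplicit false
set_option linter.all false

/-!
# I_cc : antichains have size at most #K

PROOF. Suppose A : Set (Star P) is an antichain with #K < #A. Apply C_dsys with the index type I := A, the set of colours Option (R × Stem K R)... concretely: apply C_dsys to the family
 g u : Option Δ → Option (Stem K R ⊕ R),  g u none := some (inr u.r),  g u (some η) := if u.t.1.f η = default then none else some (inl (u.t.1.f η).1)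
 (supports of size < #K; #(Stem K R ⊕ R) ≤ #K). It gives u ≠ v in A with the same r and for every η: (u.t.1.f η).1 = (v.t.1.f η).1 ∨ u.t.1.f η = default ∨ v.t.1.f η = default.
 Let p.f η := the c of M_cc at η for η < ξ, default for η ≥ ξ (support contained in the union of the two supports). Then LE S ξ r p u.t.1 and LE S ξ r p v.t.1 (for every r) by LE_def, so
 ⟨u.r, p⟩ is below u and v, and Anti gives u = v. Contradiction.
-/

namespace Pool.Agent.SKap

open Cardinal Pool.Agent.SplK

variable {K R C Δ : Type} [LinearOrder K] [Nonempty K] [Preorder R] [Inhabited C] [LinearOrder Δ] [WellFoundedLT Δ]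

open Classical in
/-- The coloured partial function of a condition. -/
noncomputable def icc_g {ξ : Δ} {P : RPos R (PP K R C ξ)} (u : Star P) : Option Δ → Option (Stem K R ⊕ R)
  | none => some (Sum.inr u.r)
  | some η => if u.t.1.f η = default then none else some (Sum.inl (u.t.1.f η).1)

open Classical in
theorem icc_small (hK : Inac K) {ξ : Δ} {P : RPos R (PP K R C ξ)} (u : Star P) : #{x | icc_g u x ≠ none} < #K := by
  have hsub : {x | icc_g u x ≠ none} ⊆ {none} ∪ some '' {η | u.t.1.f η ≠ default} := by
    intro x hx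
    rcases x with _ | η
    · exact Or.inl rfl
    · right
      refine ⟨η, ?_, rfl⟩
      simp only [Set.mem_setOf_eq] at hx ⊢
      intro h
      apply hx
      show (if u.t.1.f η = default then none else some (Sum.inl (u.t.1.f η).1) : Option (Stem K R ⊕ R)) = none
      rw [if_pos h]
  refine lt_of_le_of_lt (Cardinal.mk_le_mk_of_subset hsub) ?_
  refine lt_of_le_of_lt (Cardinal.mk_union_le _ _) (Cardinal.add_lt_of_lt hK.unc.le ?_ ?_)
  · rw [Cardinal.mk_singleton]
    exact Cardinal.one_lt_aleph0.trans hK.unc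
  · exact lt_of_le_of_lt Cardinal.mk_image_le u.t.1.small

theorem I_cc (hK : Inac K) (hR : #R ≤ #K) (hS : #(Stem K R) ≤ #K) (bk : Δ → Set (Pre K R C Δ)) (S : Sys K R C Δ) (ξ : Δ)
    (hB : Below bk S ξ) (P : RPos R (PP K R C ξ)) (hP : P.le = LP S ξ) : CCs K (Star P) := by
  intro A hA
  by_contra hcon
  rw [not_le] at hcon
  have hY : #(Stem K R ⊕ R) ≤ #K := by
    rw [Cardinal.mk_sum, Cardinal.lift_id, Cardinal.lift_id]
    exact (add_le_add hS hR).trans (Cardinal.add_eq_self hK.unc.le).le
  obtain ⟨u, v, huv, hg⟩ := C_dsys hK hY (fun u : A => icc_g (K := K) (R := R) (C := C) u.1) (fun u => icc_small hK u.1) hcon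
  obtain ⟨u, hu⟩ := u
  obtain ⟨v, hv⟩ := v
  simp only [ne_eq, Subtype.mk.injEq] at huv
  simp only at hg
  apply huv
  have hr : u.r = v.r := by
    have h := hg none
    simp only [icc_g] at h
    rcases h with h | h | h
    · simpa using h
    · cases h
    · cases h
  have hη : ∀ η : Δ, (u.t.1.f η).1 = (v.t.1.f η).1 ∨ u.t.1.f η = default ∨ v.t.1.f η = default := by
    intro η
    have h := hg (some η)
    simp only [icc_g] at h
    by_cases h1 : u.t.1.f η = default
    · exact Or.inr (Or.inl h1)
    · by_cases h2 : v.t.1.f η = default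
      · exact Or.inr (Or.inr h2)
      · rw [if_neg h1, if_neg h2] at h
        left
        rcases h with h | h | h
        · simpa using h
        · cases h
        · cases h
  have key : ∀ η : Δ, ∃ c : Stem K R × C, (u.t.1.f η = default → v.t.1.f η = default → c = default) ∧
      (ξ ≤ η → c = default) ∧
      (η < ξ → ∀ r q, MLE (LP S η) (S η) r q c (u.t.1.f η) ∧ MLE (LP S η) (S η) r q c (v.t.1.f η)) := by
    intro η
    by_cases hηξ : η < ξ
    · obtain ⟨Q, hQ⟩ := hB.pos η hηξ
      have hd := hB.good η hηξ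
      unfold Good at hd
      rw [← hQ] at hd ⊢
      obtain ⟨c, h1, h2⟩ := M_cc hK Q _ _ hd (u.t.1.f η) (v.t.1.f η) (hη η)
      exact ⟨c, h1, fun h => absurd hηξ (not_lt.mpr h), fun _ => h2⟩
    · exact ⟨default, fun _ _ => rfl, fun _ => rfl, fun h => absurd h hηξ⟩
  choose g hg1 hg2 hg3 using key
  have hsm : #{η | g η ≠ default} < #K := by
    refine lt_of_le_of_lt (Cardinal.mk_le_mk_of_subset
      (t := {η | u.t.1.f η ≠ default} ∪ {η | v.t.1.f η ≠ default}) ?_) ?_
    · intro η hη
      simp only [Set.mem_union, Set.mem_setOf_eq] at hη ⊢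
      by_contra hcon
      push Not at hcon
      exact hη (hg1 η hcon.1 hcon.2)
    · exact lt_of_le_of_lt (Cardinal.mk_union_le _ _) (Cardinal.add_lt_of_lt hK.unc.le u.t.1.small v.t.1.small)
  refine hA u hu v hv ⟨⟨u.r, ⟨⟨g, hsm⟩, fun η hη => hg2 η hη⟩⟩, ⟨le_rfl, ?_⟩, ⟨hr.le, ?_⟩⟩
  · rw [hP]
    unfold LP
    rw [LE_def]
    exact fun η hη => (hg3 η hη _ _).1
  · rw [hP]
    unfold LP
    rw [LE_def]
    exact fun η hη => (hg3 η hη _ _).2

end Pool.Agent.SKap
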