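import Pool.Agent.SKap.ADefs
import Pool.Agent.SKap.MBasic

set_option autoImplicit false
set_option linter.all false

/-!
# M_lb : lower bounds at one coordinate

PROOF. If all a i = default take a' = default. Otherwise a' := (s', c') with c' from hd.g2 I (fun i => (a i).2) and
 s' x := {r | ∀ r' ≤ r, ∃ r'' ≤ r', ∃ i, r'' ∈ (a i).1.s x}  (down, reg easy; bdd: (a i).1 is bounded by ν i; inac_bdd gives ν above all ν i).
 Let r, q, q', directedness etc. be given; fix i. (In the case a' = default: m1: r' ∈ (a i).1.s x = ∅ impossible; generally in this case a' = a i, use M_refl.)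
 m1: r' ∈ (a i).1.s x → r' ∈ s' x: by down.
 m2: x ≤ y, r' ≤ r, r' ∈ s' x, r' ∈ (a i).1.s y; show r' ∈ (a i).1.s x by (a i).1.reg: for r₁ ≤ r' there are r₂ ≤ r₁ and j with r₂ ∈ (a j).1.s x; by directedness r₃ ≤ r₂ and k with
   MLE r₃ (q k) (a k) (a i) and MLE r₃ (q k) (a k) (a j); so r₃ ∈ (a k).1.s x (m1) and r₃ ∈ (a i).1.s x by m2.
 m3: r' ∈ s' x and no r'' ≤ r' is in (a i).1.s x; show FoL (d (a i).2 x) r' q' by foL_denseR: for r₁ ≤ r' get r₂, j, r₃ ≤ r₂, k as before; r₃ ∈ (a k).1.s x; m3 of (a k, a i) at r₃ gives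
   FoL (d (a i).2 x) r₃ (q k), and P.le r₃ q' (q k) (P.mono of hq k) gives FoL (d (a i).2 x) r₃ q' (foL_down).
 m4: g2.
-/

namespace Pool.Agent.SKap

open Cardinal Pool.Agent.SplK

variable {K R C T : Type} [LinearOrder K] [Nonempty K] [Preorder R] [Inhabited C]

theorem M_lb (hK : Inac K) (P : RPos R T) (d : C → K → Set (R × T)) (F : Set T) (hd : CodesL K P.le d F) (I : Type)
    (hI : #I < #K) (a : I → Stem K R × C) :
    ∃ a' : Stem K R × C, ((∀ i, a i = default) → a' = default) ∧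
      ∀ (r : R) (q : I → T) (q' : T), (∀ i, P.le r q' (q i)) →
        (∀ i j, ∀ r' ≤ r, ∃ r'' ≤ r', ∃ k, MLE P.le d r'' (q k) (a k) (a i) ∧ MLE P.le d r'' (q k) (a k) (a j)) →
        ∀ i, MLE P.le d r q' a' (a i) := by
  classical
  by_cases hall : ∀ i, a i = default
  · refine ⟨default, fun _ => rfl, ?_⟩
    intro r q q' _ _ i
    rw [hall i]
    exact M_refl P d r q' _
  obtain ⟨c', hc'⟩ := hd.g2 I (fun i => (a i).2) hI
  have hbd : ∀ i, ∃ ν, ∀ x, ν < x → ∀ r, r ∉ (a i).1.s x := fun i => (a i).1.bdd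
  choose ν hν using hbd
  obtain ⟨b, hb⟩ := inac_bdd hK hI ν
  let s' : Stem K R :=
    { s := fun x => {r | ∀ r' ≤ r, ∃ r'' ≤ r', ∃ i, r'' ∈ (a i).1.s x}
      down := fun x r hr r' hr' r1 hr1 => hr r1 (hr1.trans hr')
      reg := fun x r h r1 hr1 => by
        obtain ⟨r2, hr2, h2⟩ := h r1 hr1
        obtain ⟨r3, hr3, i, hi⟩ := h2 r2 le_rfl
        exact ⟨r3, hr3.trans hr2, i, hi⟩
      bdd := ⟨b, fun x hx r hr => by
        obtain ⟨r'', _, i, hi⟩ := hr r le_rfl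
        exact hν i x ((hb i).trans hx) r'' hi⟩ }
  refine ⟨(s', c'), fun h => (hall h).elim, ?_⟩
  intro r q q' hq hdir i
  have key : ∀ r1 ≤ r, ∀ x, ∀ j, r1 ∈ (a j).1.s x →
      ∃ r3 ≤ r1, ∃ k, MLE P.le d r3 (q k) (a k) (a i) ∧ r3 ∈ (a k).1.s x := by
    intro r1 hr1 x j hj
    obtain ⟨r3, hr3, k, h1, h2⟩ := hdir i j r1 hr1
    exact ⟨r3, hr3, k, h1, h2.m1 x r3 le_rfl ((a j).1.down x r1 hj r3 hr3)⟩
  refine ⟨?_, ?_, ?_, ?_⟩
  · intro x r' hr' h r1 hr1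
    exact ⟨r1, le_rfl, i, (a i).1.down x r' h r1 hr1⟩
  · intro x y hxy r' hr' h1 h2
    apply (a i).1.reg
    intro r1 hr1
    obtain ⟨r2, hr2, j, hj⟩ := h1 r1 hr1
    obtain ⟨r3, hr3, k, h3, h4⟩ := key r2 (hr2.trans (hr1.trans hr')) x j hj
    have hle : r3 ≤ r' := hr3.trans (hr2.trans hr1)
    exact ⟨r3, hr3.trans hr2, h3.m2 x y hxy r3 le_rfl h4 ((a i).1.down y r' h2 r3 hle)⟩
  · intro x r' hr' h1 h2
    apply foL_denseR
    intro r1 hr1
    obtain ⟨r2, hr2, j, hj⟩ := h1 r1 hr1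
    obtain ⟨r3, hr3, k, h3, h4⟩ := key r2 (hr2.trans (hr1.trans hr')) x j hj
    have hle : r3 ≤ r' := hr3.trans (hr2.trans hr1)
    refine ⟨r3, hr3.trans hr2, ?_⟩
    have h5 := h3.m3 x r3 le_rfl h4 (fun r'' hr'' => h2 r'' (hr''.trans hle))
    exact foL_down P h5 le_rfl (P.mono r r3 q' (q k) (hle.trans hr') (hq k))
  · intro x r' hr' q1 h
    exact hc' i x r' q1 h

end Pool.Agent.SKap
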