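import Pool.Agent.SKap.ADefs
import Pool.Agent.SKap.MLb
import Pool.Agent.SKap.CInac

set_option autoImplicit false
set_option linter.all false

/-!
# I_closed : the stages are closed

PROOF. Given ι, f : ι → PP ξ, r, #ι < #K, P.Dir f r. For η < ξ let Pη be the R-poset of the stage η and a'_η the element given by M_lb for a i := (f i).1.f η;
p.f η := a'_η for η < ξ and default for η ≥ ξ. Support: contained in the union over i of the supports of (f i).1 (first conjunct of M_lb): size < #K because #ι < #K and #K is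
regular (C_inac; e.g. Cardinal.mk_iUnion_le_sum_mk, Cardinal.sum_lt_of_isRegular or iSup/sup versions).
CLAIM: for all η ≤ ξ and all i: LE S η r p (f i).1. Strong induction on η: by LE_def let ζ < η. Use M_lb at ζ with q i := (f i).1.cutP ζ and q' := p.cutP ζ:
 hypothesis 1: Pζ.le r q' (q i) = LE S ζ r (p.cut ζ) ((f i).1.cut ζ), by LE_cut from the induction hypothesis for ζ;
 hypothesis 2: from P.Dir f r (P.le = LP S ξ) and LE_def at ζ < ξ.
For η = ξ this is the claim of the theorem.
-/

namespace Pool.Agent.SKap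

open Cardinal Pool.Agent.SplK

variable {K R C Δ : Type} [LinearOrder K] [Nonempty K] [Preorder R] [Inhabited C] [LinearOrder Δ] [WellFoundedLT Δ]

theorem I_closed (hK : Inac K) (bk : Δ → Set (Pre K R C Δ)) (S : Sys K R C Δ) (ξ : Δ) (hB : Below bk S ξ)
    (P : RPos R (PP K R C ξ)) (hP : P.le = LP S ξ) : P.Closed #K := by
  intro ι f r hι hdir
  have key : ∀ η : Δ, ∃ a' : Stem K R × C, ((∀ i, (f i).1.f η = default) → a' = default) ∧
      (ξ ≤ η → a' = default) ∧
      (η < ξ → ∀ (r : R) (q : ι → PP K R C η) (q' : PP K R C η), (∀ i, LP S η r q' (q i)) →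
        (∀ i j, ∀ r' ≤ r, ∃ r'' ≤ r', ∃ k, MLE (LP S η) (S η) r'' (q k) ((f k).1.f η) ((f i).1.f η) ∧
          MLE (LP S η) (S η) r'' (q k) ((f k).1.f η) ((f j).1.f η)) →
        ∀ i, MLE (LP S η) (S η) r q' a' ((f i).1.f η)) := by
    intro η
    by_cases hη : η < ξ
    · obtain ⟨Q, hQ⟩ := hB.pos η hη
      have hd := hB.good η hη
      unfold Good at hd
      rw [← hQ] at hd ⊢
      obtain ⟨a', h1, h2⟩ := M_lb hK Q _ _ hd ι hι (fun i => (f i).1.f η)
      exact ⟨a', h1, fun h => absurd hη (not_lt.mpr h), fun _ => h2⟩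
    · exact ⟨default, fun _ => rfl, fun _ => rfl, fun h => absurd h hη⟩
  choose g hg1 hg2 hg3 using key
  have hsm : #{η | g η ≠ default} < #K := by
    refine lt_of_le_of_lt (Cardinal.mk_le_mk_of_subset (t := ⋃ i : ι, {η | (f i).1.f η ≠ default}) ?_) ?_
    · intro η hη
      simp only [Set.mem_iUnion, Set.mem_setOf_eq] at hη ⊢
      by_contra hcon
      push Not at hcon
      exact hη (hg1 η hcon)
    · refine lt_of_le_of_lt (Cardinal.mk_iUnion_le_sum_mk) ?_
      exact Cardinal.sum_lt_of_isRegular (C_reg hK) hι (fun i => (f i).1.small)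
  have claim : ∀ η : Δ, η ≤ ξ → ∀ i, LE S η r ⟨g, hsm⟩ (f i).1 := by
    intro η
    induction η using WellFoundedLT.induction with
    | ind η ih =>
      intro hηξ i
      rw [LE_def]
      intro ζ hζ
      have hζξ : ζ < ξ := hζ.trans_le hηξ
      refine hg3 ζ hζξ r (fun i => (f i).1.cutP ζ) _ ?_ ?_ i
      · intro j
        exact (LE_cut le_rfl le_rfl).mpr (ih ζ hζ hζξ.le j)
      · intro j k r' hr'
        obtain ⟨r'', hr'', l, h1, h2⟩ := hdir j k r' hr'
        rw [hP] at h1 h2
        unfold LP at h1 h2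
        rw [LE_def] at h1 h2
        exact ⟨r'', hr'', l, h1 ζ hζξ, h2 ζ hζξ⟩
  refine ⟨⟨⟨g, hsm⟩, fun η hη => hg2 η hη⟩, fun i => ?_⟩
  rw [hP]
  exact claim ξ le_rfl i

end Pool.Agent.SKap
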