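import Pool.Agent.SKap.ADefs

set_option autoImplicit false
set_option linter.all false

/-!
# Locality and construction of the system by recursion

PROOFS. I_loc: strong induction on ξ with LE_def (funext; LP S η = LP S' η from the induction hypothesis, S η = S' η).
I_good: Good bk S ξ unfolds to CodesL K (LP S ξ) (S ξ) _; LP S ξ = LP S' ξ by I_loc.
I_rec: S defined by well-founded recursion: S ξ := if h : ∃ d, Good (update S₀ ξ d) ξ then choose h else arbitrary, where S₀ η := S η for η < ξ and arbitrary (an element of the nonempty type D η) otherwise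
 (WellFounded.fix; WellFounded.fix_eq). Then by strong induction Good S ξ: S₀ agrees with S below ξ, so Good S₀ η for η < ξ by hloc, so hstep gives d with Good (update S₀ ξ d) ξ,
 S ξ is the chosen d, and update S₀ ξ (S ξ) agrees with S on η ≤ ξ, so Good S ξ by hloc.
-/

namespace Pool.Agent.SKap

open Cardinal Pool.Agent.SplK

variable {K R C Δ : Type} [LinearOrder K] [Nonempty K] [Preorder R] [Inhabited C] [LinearOrder Δ] [WellFoundedLT Δ]

theorem I_loc (S S' : Sys K R C Δ) (ξ : Δ) (h : ∀ η < ξ, S η = S' η) : LE S ξ = LE S' ξ := by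
  revert h
  induction ξ using (wellFounded_lt (α := Δ)).induction with
  | _ ξ ih =>
    intro h
    funext r p' p
    apply propext
    rw [LE_def, LE_def]
    refine forall_congr' fun η => forall_congr' fun hη => ?_
    have e1 : LE S η = LE S' η := ih η hη (fun ζ hζ => h ζ (hζ.trans hη))
    have e2 : LP S η = LP S' η := by
      funext r q' q
      unfold LP
      rw [e1]
    rw [e2, h η hη]

theorem I_good (bk : Δ → Set (Pre K R C Δ)) (S S' : Sys K R C Δ) (ξ : Δ) (h : ∀ η, η ≤ ξ → S η = S' η)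
    (hS : Good bk S ξ) : Good bk S' ξ := by
  have e1 : LE S ξ = LE S' ξ := I_loc S S' ξ (fun η hη => h η hη.le)
  have e2 : LP S ξ = LP S' ξ := by
    funext r q' q
    unfold LP
    rw [e1]
  unfold Good at hS ⊢
  rw [← e2, ← h ξ le_rfl]
  exact hS

theorem I_rec {Δ : Type} [LinearOrder Δ] [WellFoundedLT Δ] (D : Δ → Type) (hD : ∀ ξ, Nonempty (D ξ))
    (G : ((ξ : Δ) → D ξ) → Δ → Prop)
    (hloc : ∀ S S' ξ, (∀ η, η ≤ ξ → S η = S' η) → G S ξ → G S' ξ)
    (hstep : ∀ S ξ, (∀ η, η < ξ → G S η) → ∃ d : D ξ, G (Function.update S ξ d) ξ) :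
    ∃ S, ∀ ξ, G S ξ := by
  classical
  obtain ⟨st, hst⟩ : ∃ st : (ξ : Δ) → ((η : Δ) → η < ξ → D η) → D ξ, ∀ ξ ih,
      (∃ d : D ξ, G (Function.update (fun η => if h : η < ξ then ih η h else Classical.choice (hD η)) ξ d) ξ) →
      G (Function.update (fun η => if h : η < ξ then ih η h else Classical.choice (hD η)) ξ (st ξ ih)) ξ := by
    have hex : ∀ (ξ : Δ) (ih : (η : Δ) → η < ξ → D η), ∃ d0 : D ξ,
        (∃ d : D ξ, G (Function.update (fun η => if h : η < ξ then ih η h else Classical.choice (hD η)) ξ d) ξ) →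
        G (Function.update (fun η => if h : η < ξ then ih η h else Classical.choice (hD η)) ξ d0) ξ := by
      intro ξ ih
      by_cases h : ∃ d : D ξ, G (Function.update (fun η => if h : η < ξ then ih η h else Classical.choice (hD η)) ξ d) ξ
      · obtain ⟨d, hd⟩ := h
        exact ⟨d, fun _ => hd⟩
      · exact ⟨Classical.choice (hD ξ), fun h' => (h h').elim⟩
    exact ⟨fun ξ ih => (hex ξ ih).choose, fun ξ ih => (hex ξ ih).choose_spec⟩
  obtain ⟨S, hS⟩ : ∃ S : (ξ : Δ) → D ξ, ∀ ξ, S ξ = st ξ (fun η _ => S η) :=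
    ⟨(wellFounded_lt (α := Δ)).fix st, fun ξ => WellFounded.fix_eq _ _ _⟩
  refine ⟨S, fun ξ => ?_⟩
  induction ξ using (wellFounded_lt (α := Δ)).induction with
  | _ ξ ih =>
    obtain ⟨S0, hS0⟩ : ∃ S0 : (ξ : Δ) → D ξ, S0 = fun η => if h : η < ξ then S η else Classical.choice (hD η) := ⟨_, rfl⟩
    have hS0lt : ∀ η, η < ξ → S0 η = S η := fun η hη => by rw [hS0]; simp only [dif_pos hη]
    have h1 : ∀ η, η < ξ → G S0 η := fun η hη =>
      hloc S S0 η (fun ζ hζ => (hS0lt ζ (hζ.trans_lt hη)).symm) (ih η hη)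
    have h2 := hstep S0 ξ h1
    rw [hS0] at h2
    have h3 := hst ξ (fun η _ => S η) h2
    rw [← hS ξ] at h3
    rw [← hS0] at h3
    refine hloc _ S ξ (fun η hη => ?_) h3
    rcases eq_or_lt_of_le hη with he | hl
    · subst he
      rw [Function.update_self]
    · rw [Function.update_of_ne hl.ne, hS0lt η hl]

end Pool.Agent.SKap
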