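import Pool.Agent.SKap.ADefs
import Pool.Agent.SKap.IPos
import Pool.Agent.SKap.IClosed
import Pool.Agent.SKap.ICc
import Pool.Agent.SKap.IRec

set_option autoImplicit false
set_option linter.all false

/-!
# I_sys : the system

PROOF. I_rec with D η := C → K → Set (R × PP K R C η), G := Good bk. hloc := I_good. hstep: given S with Good bk S η for η < ξ: hB : Below bk S ξ (I_below), P with P.le = LP S ξ (I_pos1),
 closed (I_closed), CCs (I_cc). hstep' gives d with CodesL K P.le d {q | q.1 ∈ bk ξ}. For S' := Function.update S ξ d we have LE S' ξ = LE S ξ (I_loc; update_of_ne), so LP S' ξ = LP S ξ = P.le,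
 and S' ξ = d (update_self).
-/

namespace Pool.Agent.SKap

open Cardinal Pool.Agent.SplK

variable {K R C Δ : Type} [LinearOrder K] [Nonempty K] [Preorder R] [Inhabited C] [LinearOrder Δ] [WellFoundedLT Δ]

theorem I_sys (hK : Inac K) (hR : #R ≤ #K) (hS : #(Stem K R) ≤ #K) (bk : Δ → Set (Pre K R C Δ))
    (hstep : ∀ (ξ : Δ) (P : RPos R (PP K R C ξ)), P.Closed #K → CCs K (Star P) →
      ∃ d : C → K → Set (R × PP K R C ξ), CodesL K P.le d {q | q.1 ∈ bk ξ}) :
    ∃ S : Sys K R C Δ, ∀ ξ, Good bk S ξ := by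
  refine I_rec (fun η => C → K → Set (R × PP K R C η)) (fun ξ => ⟨fun _ _ => ∅⟩) (fun S ξ => Good bk S ξ)
    (fun S S' ξ h hS => I_good bk S S' ξ h hS) (fun S ξ hG => ?_)
  have hB := I_below hK bk S ξ hG
  obtain ⟨P, hP, -⟩ := I_pos1 hK bk S ξ hB
  obtain ⟨d, hd⟩ := hstep ξ P (I_closed hK bk S ξ hB P hP) (I_cc hK hR hS bk S ξ hB P hP)
  refine ⟨d, ?_⟩
  have h1 : LE (Function.update S ξ d) ξ = LE S ξ :=
    I_loc _ _ _ (fun η hη => Function.update_of_ne hη.ne _ _)
  have h2 : LP (Function.update S ξ d) ξ = P.le := by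
    rw [hP]
    unfold LP
    rw [h1]
  change CodesL K (LP (Function.update S ξ d) ξ) (Function.update S ξ d ξ) {q | q.1 ∈ bk ξ}
  rw [h2, Function.update_self]
  exact hd

end Pool.Agent.SKap
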