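import Pool.Agent.SKap.ADefs

set_option autoImplicit false
set_option linter.all false

/-!
# S_fo : truth values in the suborder

PROOF. Fo: (←) let z ≤ inc u. Red.red: u₁ with all u' ≤ u₁ compatible with z. u₁ is compatible with z, so inc u₁ and inc u are compatible (z ≤ inc u), so by Red.cpt there is u₂ ≤ u₁, u₂ ≤ u. Fo b u: u₃ ≤ u₂, s ∈ b,
 u₃ ≤ s. inc u₃ is compatible with z: r ≤ inc u₃, r ≤ z; r ≤ inc s. (→) u' ≤ u; the hypothesis for inc u' gives r ≤ inc u', s ∈ b, r ≤ inc s; so inc u', inc s are compatible; Red.cpt: v ≤ u', v ≤ s.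
Ic: (→) if q ≤ u, q ≤ s ∈ b then inc q ≤ inc u, inc q ≤ inc s. (←) if q ≤ inc u, q ≤ inc s then u, s are compatible by Red.cpt.
-/

namespace Pool.Agent.SKap

open Cardinal Pool.Agent.SplK

theorem S_fo {Y Z : Type} [Preorder Y] [Preorder Z] (i : Y → Z) (hi : Red i) (b : Set Y) (u : Y) :
    (Fo (i '' b) (i u) ↔ Fo b u) ∧ (Ic (i '' b) (i u) ↔ Ic b u) := by
  refine ⟨⟨?_, ?_⟩, ⟨?_, ?_⟩⟩
  · intro h u' hu'
    obtain ⟨r, hr, s, ⟨s0, hs0, rfl⟩, hrs⟩ := h (i u') ((hi.le u' u).2 hu')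
    obtain ⟨v, hv1, hv2⟩ := hi.cpt u' s0 ⟨r, hr, hrs⟩
    exact ⟨v, hv1, s0, hs0, hv2⟩
  · intro h z hz
    obtain ⟨u1, hu1⟩ := hi.red z
    obtain ⟨w, hw1, hw2⟩ := hu1 u1 le_rfl
    obtain ⟨u2, h1, h2⟩ := hi.cpt u1 u ⟨w, hw1, hw2.trans hz⟩
    obtain ⟨u3, h3, s, hs, h4⟩ := h u2 h2
    obtain ⟨r, hr1, hr2⟩ := hu1 u3 (h3.trans h1)
    exact ⟨r, hr2, i s, ⟨s, hs, rfl⟩, hr1.trans ((hi.le u3 s).2 h4)⟩
  · intro h s hs q hq hqs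
    exact h (i s) ⟨s, hs, rfl⟩ (i q) ((hi.le q u).2 hq) ((hi.le q s).2 hqs)
  · rintro h _ ⟨s, hs, rfl⟩ q hq hqs
    obtain ⟨v, h1, h2⟩ := hi.cpt u s ⟨q, hq, hqs⟩
    exact h s hs v h1 h2

end Pool.Agent.SKap
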