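import Pool.Agent.SKap.ADefs
import Pool.Agent.SKap.SFo

set_option autoImplicit false
set_option linter.all false

/-!
# S_g1, S_g2, S_g4, S_g5 : names of sets of the measure

The codes are the names N : K → Set Y with ∀ u, U N u (the top condition forces N ∈ U). S_fo: Fo (i '' b) (i u) ↔ Fo b u etc.
PROOFS. 
S_g1: z' ≤ z; Red.red for z' gives u with Cpt (i u) z'.
S_g2: N' x := {q | ∀ j, Fo (N j x) q}; U N' u by compl. If Fo (i '' N' x) z: by Fo.of_sub it suffices that Fo (i '' N j x) (i s) for s ∈ N' x, which is S_fo for Fo (N j x) s.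
S_g4: Red.red: u with all u' ≤ u compatible with z. unb: u' ≤ u, x > ν, Fo (N x) u'. z' ≤ i u', z' ≤ z. Fo (i '' N x) z' by S_fo and Fo.down.
S_g5: u a reduction of z. MeasU.dec: u' ≤ u with U N u' or U (fun x => {r | Ic (N x) r}) u'. Let M x := {r | Fo (N x) r} in the first case and {r | Ic (N x) r} in the second, and
 N' x := {w | ¬ Cpt w u'} ∪ M x. U N' w for all w: by dense, for q ≤ w: if q is incompatible with u' then U N' q by triv (q itself is in N' x for all x: every q' ≤ q is incompatible with u');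
 otherwise q' ≤ q, q' ≤ u' and U M q' (in the first case from U N q' by mono) and mono gives U N' q'. z' := a common extension of i u' and z. For z'' ≤ z' with Fo (i '' N' x) z'':
 claim Fo (i '' N x) z'' (resp. Ic (i '' N x) z''): for q ≤ z'' there are r ≤ q, s ∈ N' x, r ≤ i s; s is compatible with u' (r ≤ i s, r ≤ z' ≤ i u'; Red.cpt), so s ∈ M x and Fo (i '' N x) (i s) (resp. Ic) by S_fo,
 so Fo (i '' N x) r (resp. Ic). Use Fo.dense (Ic.dense).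
-/

namespace Pool.Agent.SKap

open Cardinal Pool.Agent.SplK

variable {K Y Z : Type} [LinearOrder K] [Preorder Y] [Preorder Z]

theorem S_g1 (i : Y → Z) (hi : Red i) (z : Z) : Fo (i '' Set.univ) z := by
  intro q _
  obtain ⟨u, hu⟩ := hi.red q
  obtain ⟨r, hr, hr'⟩ := hu u le_rfl
  exact ⟨r, hr', i u, ⟨u, trivial, rfl⟩, hr⟩

theorem S_g2 (i : Y → Z) (hi : Red i) (U : (K → Set Y) → Y → Prop) (hU : MeasU K Y U) (ι : Type) (hι : #ι < #K)
    (N : ι → K → Set Y) (hN : ∀ j u, U (N j) u) :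
    ∃ N' : K → Set Y, (∀ u, U N' u) ∧ ∀ j x z, Fo (i '' N' x) z → Fo (i '' N j x) z := by
  refine ⟨fun x => {q | ∀ j, Fo (N j x) q}, fun u => hU.compl ι N u hι (fun j => hN j u), fun j x z h => ?_⟩
  refine h.of_sub ?_
  rintro _ ⟨q, hq, rfl⟩
  exact (S_fo i hi _ q).1.2 (hq j)

theorem S_g4 (i : Y → Z) (hi : Red i) (U : (K → Set Y) → Y → Prop) (hU : MeasU K Y U)
    (N : K → Set Y) (hN : ∀ u, U N u) (z : Z) (ν : K) :
    ∃ z' ≤ z, ∃ x, ν < x ∧ Fo (i '' N x) z' := by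
  obtain ⟨u, hu⟩ := hi.red z
  obtain ⟨q, hq, x, hx, h⟩ := hU.unb N u (hN u) ν
  obtain ⟨z', h1, h2⟩ := hu q hq
  exact ⟨z', h2, x, hx, Fo.down ((S_fo i hi _ q).1.2 h) h1⟩

theorem sG_aux (i : Y → Z) (hi : Red i) (U : (K → Set Y) → Y → Prop) (hU : MeasU K Y U) (z : Z) (u u' : Y)
    (hu : ∀ v ≤ u, Cpt (i v) z) (hu' : u' ≤ u) (M : K → Set Y) (hM : U M u') (Q : K → Z → Prop)
    (hQd : ∀ x z z', Q x z → z' ≤ z → Q x z') (hQ : ∀ x z, (∀ q ≤ z, ∃ r ≤ q, Q x r) → Q x z)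
    (hMQ : ∀ x, ∀ s ∈ M x, Q x (i s)) :
    ∃ z' ≤ z, ∃ N' : K → Set Y, (∀ u, U N' u) ∧ ∀ x, ∀ z'' ≤ z', Fo (i '' N' x) z'' → Q x z'' := by
  obtain ⟨z', h1, h2⟩ := hu u' hu'
  refine ⟨z', h2, fun x => {w | ¬ Cpt w u'} ∪ M x, ?_, ?_⟩
  · intro w
    refine hU.dense _ _ fun q hq => ?_
    by_cases h : Cpt q u'
    · obtain ⟨q', h3, h4⟩ := h
      refine ⟨q', h3, hU.mono M _ q' (hU.down _ _ _ hM h4) ?_⟩
      intro x q₁ _ h5 q₂ hq₂
      obtain ⟨r, hr, s, hs, hrs⟩ := h5 q₂ hq₂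
      exact ⟨r, hr, s, Or.inr hs, hrs⟩
    · refine ⟨q, le_rfl, hU.triv _ q ?_⟩
      intro x q' hq'
      refine Fo.of_mem (s := q') (Or.inl ?_) le_rfl
      rintro ⟨r, hr, hr'⟩
      exact h ⟨r, hr.trans hq', hr'⟩
  · intro x z'' hz'' h
    apply hQ
    intro q hq
    obtain ⟨r, hr, s, hs, hrs⟩ := h q hq
    obtain ⟨w, hw, rfl⟩ := hs
    have hc : Cpt w u' := hi.cpt _ _ ⟨r, hrs, ((hr.trans hq).trans hz'').trans h1⟩
    rcases hw with hw | hw
    · exact absurd hc hw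
    · exact ⟨r, hr, hQd x _ _ (hMQ x w hw) hrs⟩

theorem S_g5 (i : Y → Z) (hi : Red i) (U : (K → Set Y) → Y → Prop) (hU : MeasU K Y U) (N : K → Set Y) (z : Z) :
    ∃ z' ≤ z, ∃ N' : K → Set Y, (∀ u, U N' u) ∧
      ((∀ x, ∀ z'' ≤ z', Fo (i '' N' x) z'' → Fo (i '' N x) z'') ∨
       (∀ x, ∀ z'' ≤ z', Fo (i '' N' x) z'' → Ic (i '' N x) z'')) := by
  obtain ⟨u, hu⟩ := hi.red z
  obtain ⟨u', hu', h | h⟩ := hU.dec N u
  · obtain ⟨z', h1, N', h2, h3⟩ := sG_aux i hi U hU z u u' hu hu' (fun x => {r | Fo (N x) r})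
      (hU.mono N _ u' h (fun x q _ hq => Fo.of_mem (s := q) hq le_rfl)) (fun x z => Fo (i '' N x) z)
      (fun x z z' h4 h5 => h4.down h5) (fun x z h4 => Fo.dense h4) (fun x s hs => (S_fo i hi _ s).1.2 hs)
    exact ⟨z', h1, N', h2, Or.inl h3⟩
  · obtain ⟨z', h1, N', h2, h3⟩ := sG_aux i hi U hU z u u' hu hu' (fun x => {r | Ic (N x) r})
      h (fun x z => Ic (i '' N x) z)
      (fun x z z' h4 h5 => h4.down h5) (fun x z h4 => Ic.dense h4) (fun x s hs => (S_fo i hi _ s).2.2 hs)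
    exact ⟨z', h1, N', h2, Or.inr h3⟩

end Pool.Agent.SKap
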