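import Pool.Agent.SKap.ADefs
import Pool.Agent.SKap.SFo

set_option autoImplicit false
set_option linter.all false

/-!
# S_g3 : mixing of names of sets of the measure

PROOF. N'' x := {u | (u.r ∈ b ∧ Fo (N x) u) ∨ ((∀ r' ≤ u.r, r' ∉ b) ∧ Fo (N' x) u)}.
 U N'' u: by MeasU.dense: given q ≤ u. If some r' ≤ q.r is in b, w := ⟨r', q.t⟩ ≤ q and U N w (hypothesis) and MeasU.mono gives U N'' w (for q' ≤ w, Fo (N x) q': every q'' ≤ q' has q''.r ∈ b and an extension below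
 an element of N x; the extension v itself is in N'' x: v.r ∈ b, Fo (N x) v). Otherwise q itself with N'.
 Let z : Star P with z.r ∈ b. (→) z' ≤ z: r ≤ z', s ∈ N'' x, r ≤ inc s; the second alternative for s is impossible (r.r ≤ s.r and r.r ∈ b), so Fo (N x) s, so Fo (inc '' N x) (inc s) by S_fo, so Fo (inc '' N x) r:
 Fo.dense. (←) z' ≤ z: r ≤ z', s ∈ N x, r ≤ inc s. Let s' := ⟨r.r, s.t⟩ : Star (XPos P X h) ≤ s (r.r ≤ s.r, refl). s'.r ∈ b, Fo (N x) s' (s' ≤ s ∈ N x: Fo.of_mem), so s' ∈ N'' x, and r ≤ inc s' (same second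
 coordinates: P.le r.r r.t s.t). The case where no r' ≤ z.r is in b is the same with N'.
-/

namespace Pool.Agent.SKap

open Cardinal Pool.Agent.SplK

theorem S_g3 {K R T : Type} [LinearOrder K] [Preorder R] (P : RPos R T) (X : Set T) (h : XC K P X) (hi : Red (inc P X h))
    (U : (K → Set (Star (XPos P X h))) → Star (XPos P X h) → Prop) (hU : MeasU K (Star (XPos P X h)) U) (b : Set R)
    (hb : ∀ r ∈ b, ∀ r' ≤ r, r' ∈ b) (N N' : K → Set (Star (XPos P X h))) (hN : ∀ u, U N u) (hN' : ∀ u, U N' u) :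
    ∃ N'' : K → Set (Star (XPos P X h)), (∀ u, U N'' u) ∧ ∀ x (z : Star P),
      (z.r ∈ b → (Fo (inc P X h '' N'' x) z ↔ Fo (inc P X h '' N x) z)) ∧
      ((∀ r' ≤ z.r, r' ∉ b) → (Fo (inc P X h '' N'' x) z ↔ Fo (inc P X h '' N' x) z)) := by
  refine ⟨fun x => {u | (u.r ∈ b ∧ Fo (N x) u) ∨ ((∀ r' ≤ u.r, r' ∉ b) ∧ Fo (N' x) u)}, ?_, ?_⟩
  · intro u
    refine hU.dense _ _ fun q hq => ?_
    by_cases hc : ∃ r' ≤ q.r, r' ∈ b
    · obtain ⟨r', hr', hr'b⟩ := hc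
      refine ⟨⟨r', q.t⟩, ⟨hr', (XPos P X h).refl _ _⟩, ?_⟩
      refine hU.mono _ _ _ (hN _) ?_
      intro x q' hq' hF
      exact Fo.of_mem (s := q') (Or.inl ⟨hb _ hr'b _ hq'.1, hF⟩) le_rfl
    · push Not at hc
      refine ⟨q, le_rfl, ?_⟩
      refine hU.mono _ _ _ (hN' _) ?_
      intro x q' hq' hF
      exact Fo.of_mem (s := q') (Or.inr ⟨fun r' hr' => hc r' (hr'.trans hq'.1), hF⟩) le_rfl
  · intro x z
    constructor
    · intro hz
      constructor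
      · intro hF
        refine Fo.dense fun q hq => ?_
        obtain ⟨r, hr, _, ⟨s, hs, rfl⟩, hrs⟩ := hF q hq
        have hrb : r.r ∈ b := hb _ hz _ (hr.1.trans hq.1)
        refine ⟨r, hr, ?_⟩
        rcases hs with ⟨_, h1⟩ | ⟨h1, _⟩
        · exact ((S_fo _ hi (N x) s).1.2 h1).down hrs
        · exact absurd hrb (h1 _ hrs.1)
      · intro hF q hq
        obtain ⟨r, hr, _, ⟨s, hs, rfl⟩, hrs⟩ := hF q hq
        have hrb : r.r ∈ b := hb _ hz _ (hr.1.trans hq.1)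
        have hle : (⟨r.r, s.t⟩ : Star (XPos P X h)) ≤ s := ⟨hrs.1, (XPos P X h).refl _ _⟩
        exact ⟨r, hr, _, ⟨⟨r.r, s.t⟩, Or.inl ⟨hrb, Fo.of_mem hs hle⟩, rfl⟩, ⟨le_rfl, hrs.2⟩⟩
    · intro hz
      constructor
      · intro hF
        refine Fo.dense fun q hq => ?_
        obtain ⟨r, hr, _, ⟨s, hs, rfl⟩, hrs⟩ := hF q hq
        refine ⟨r, hr, ?_⟩
        rcases hs with ⟨h1, h2⟩ | ⟨_, h1⟩
        · exact absurd (hb _ h1 _ hrs.1) (hz _ (hr.1.trans hq.1))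
        · exact ((S_fo _ hi (N' x) s).1.2 h1).down hrs
      · intro hF q hq
        obtain ⟨r, hr, _, ⟨s, hs, rfl⟩, hrs⟩ := hF q hq
        have hle : (⟨r.r, s.t⟩ : Star (XPos P X h)) ≤ s := ⟨hrs.1, (XPos P X h).refl _ _⟩
        exact ⟨r, hr, _, ⟨⟨r.r, s.t⟩, Or.inr ⟨fun r' hr' => hz _ (hr'.trans (hr.1.trans hq.1)), Fo.of_mem hs hle⟩, rfl⟩,
          ⟨le_rfl, hrs.2⟩⟩

end Pool.Agent.SKap
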