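import Pool.Agent.SKap.ADefs
import Pool.Agent.SKap.SG
import Pool.Agent.SKap.SG3

set_option autoImplicit false
set_option linter.all false

/-!
# S_codes : coding

PROOF. Y := Star (XPos P X h), V := {N : K → Set Y // ∀ u, U N u}; #V ≤ #(K → Set Y) = (2 ^ #Y) ^ #K = 2 ^ (#Y * #K), #Y = #R * #X (Star is equivalent to the product). So #V ≤ #C; V contains v₀ := fun _ => univ
 (MeasU.triv; for q, Fo univ q). Take a surjection g : C → V with g default = v₀: g₀ a surjection (from an injection V → C: Function.invFun), g₀ c₁ = v₀, g := g₀ ∘ Equiv.swap default c₁.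
 d c x := {s | ∃ w ∈ (g c).1 x, w.r = s.1 ∧ w.t.1 = s.2}; then up P (d c x) = inc P X h '' (g c).1 x, so by foL_iff FoL P.le (d c x) r q ↔ Fo (inc '' (g c).1 x) ⟨r, q⟩.
 g1: S_g1. g2: S_g2 and surjectivity. g3: S_g3. g4: S_g4 for z = ⟨r, q⟩. g5: for N with second coordinates in F ⊆ X put M x := {w : Y | (w.r, w.t.1) ∈ N x}; up P (N x) = inc '' M x; S_g5 for M
 and icL_iff.
-/

namespace Pool.Agent.SKap

open Cardinal Pool.Agent.SplK

lemma scodes_star {R X : Type} [Preorder R] (P : RPos R X) : #(Star P) = #R * #X := by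
  have h : #(Star P) = #(R × X) := Cardinal.mk_congr
    { toFun := fun u => (u.r, u.t), invFun := fun s => ⟨s.1, s.2⟩, left_inv := fun _ => rfl, right_inv := fun _ => rfl }
  rw [h, Cardinal.mk_prod, Cardinal.lift_id, Cardinal.lift_id]

lemma scodes_up {K R T : Type} [Preorder R] (P : RPos R T) (X : Set T) (h : XC K P X) (b : Set (Star (XPos P X h))) :
    up P {s : R × T | ∃ w ∈ b, w.r = s.1 ∧ w.t.1 = s.2} = inc P X h '' b := by
  ext ⟨r, t⟩
  constructor
  · rintro ⟨w, hw, h1, h2⟩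
    refine ⟨w, hw, ?_⟩
    simp only at h1 h2
    subst h1 h2
    rfl
  · rintro ⟨w, hw, h1⟩
    refine ⟨w, hw, ?_⟩
    cases h1
    exact ⟨rfl, rfl⟩

theorem S_codes {K R T C : Type} [LinearOrder K] [Preorder R] [Inhabited C] (P : RPos R T) (X : Set T) (h : XC K P X)
    (hi : Red (inc P X h)) (U : (K → Set (Star (XPos P X h))) → Star (XPos P X h) → Prop)
    (hU : MeasU K (Star (XPos P X h)) U) (F : Set T) (hF : F ⊆ X) (hC : 2 ^ (#R * #X * #K) ≤ #C) :
    ∃ d : C → K → Set (R × T), CodesL K P.le d F := by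
  classical
  have hcard : #{N : K → Set (Star (XPos P X h)) // ∀ u, U N u} ≤ #C := by
    refine (Cardinal.mk_subtype_le _).trans (le_trans ?_ hC)
    rw [← Cardinal.power_def, Cardinal.mk_set, ← Cardinal.power_mul, scodes_star]
  let v₀ : {N : K → Set (Star (XPos P X h)) // ∀ u, U N u} :=
    ⟨fun _ => Set.univ, fun u => hU.triv _ _ (fun x q hq => Fo.of_mem (Set.mem_univ q) le_rfl)⟩
  haveI : Nonempty {N : K → Set (Star (XPos P X h)) // ∀ u, U N u} := ⟨v₀⟩
  obtain ⟨j⟩ := (Cardinal.le_def _ _).1 hcard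
  have hg₀ : Function.Surjective (Function.invFun j) := Function.invFun_surjective j.injective
  obtain ⟨c₁, hc₁⟩ := hg₀ v₀
  obtain ⟨g, hg, hg0⟩ : ∃ g : C → {N : K → Set (Star (XPos P X h)) // ∀ u, U N u}, Function.Surjective g ∧ g default = v₀ :=
    ⟨Function.invFun j ∘ Equiv.swap default c₁, hg₀.comp (Equiv.surjective _), by
      simp only [Function.comp_apply, Equiv.swap_apply_left]
      exact hc₁⟩
  let d : C → K → Set (R × T) := fun c x => {s | ∃ w ∈ (g c).1 x, w.r = s.1 ∧ w.t.1 = s.2}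
  have hd : ∀ c x r q, FoL P.le (d c x) r q ↔ Fo (inc P X h '' (g c).1 x) (⟨r, q⟩ : Star P) := by
    intro c x r q
    rw [foL_iff, ← scodes_up]
  refine ⟨d, ?_, ?_, ?_, ?_, ?_⟩
  · intro x r q
    rw [hd, hg0]
    exact S_g1 _ hi _
  · intro I c hI
    obtain ⟨N', hN', h1⟩ := S_g2 (K := K) (inc P X h) hi U hU I hI (fun i => (g (c i)).1) (fun i => (g (c i)).2)
    obtain ⟨c', hc'⟩ := hg ⟨N', hN'⟩
    refine ⟨c', fun i x r q h2 => ?_⟩
    rw [hd] at h2 ⊢
    rw [hc'] at h2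
    exact h1 i x _ h2
  · intro b hb c c'
    obtain ⟨N'', hN'', h1⟩ := S_g3 P X h hi U hU b hb (g c).1 (g c').1 (g c).2 (g c').2
    obtain ⟨c'', hc''⟩ := hg ⟨N'', hN''⟩
    refine ⟨c'', fun x r q => ?_⟩
    rw [hd, hd, hd, hc'']
    exact h1 x ⟨r, q⟩
  · intro c r q ν
    obtain ⟨⟨r', q'⟩, ⟨h1, h2⟩, x, hx, h3⟩ := S_g4 (K := K) (inc P X h) hi U hU (g c).1 (g c).2 ⟨r, q⟩ ν
    exact ⟨r', h1, q', h2, x, hx, (hd c x r' q').2 h3⟩
  · intro N hN r q
    let M : K → Set (Star (XPos P X h)) := fun x => {w | (w.r, w.t.1) ∈ N x}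
    have hM : ∀ x, up P (N x) = inc P X h '' M x := by
      intro x
      ext ⟨r, t⟩
      constructor
      · intro h1
        exact ⟨⟨r, ⟨t, hF (hN x _ h1)⟩⟩, h1, rfl⟩
      · rintro ⟨w, hw, h1⟩
        cases h1
        exact hw
    obtain ⟨⟨r', q'⟩, ⟨h1, h2⟩, N', hN', h3⟩ := S_g5 (K := K) (inc P X h) hi U hU M ⟨r, q⟩
    obtain ⟨c', hc'⟩ := hg ⟨N', hN'⟩
    refine ⟨r', h1, q', h2, c', ?_⟩
    rcases h3 with h3 | h3
    · left
      intro x r'' h4 q'' h5 h6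
      rw [hd, hc'] at h6
      rw [foL_iff, hM]
      exact h3 x ⟨r'', q''⟩ ⟨h4, h5⟩ h6
    · right
      intro x r'' h4 q'' h5 h6
      rw [hd, hc'] at h6
      rw [icL_iff, hM]
      exact h3 x ⟨r'', q''⟩ ⟨h4, h5⟩ h6

end Pool.Agent.SKap
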