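import Pool.Agent.SKap.ADefs

set_option autoImplicit false
set_option linter.all false

/-!
# S_meas : from BMeas to MeasU

PROOF. U N p := p ∈ μ (fun x => {q | Fo (N x) q}). Note Frc {q | Fo (N x) q} p ↔ Fo (N x) p (Fo.dense, Fo.down). 
 down: BMeas.down. mono: BMeas.mono. 
 dense: if p ∉ μ X (X x := {q | Fo (N x) q}) then by BMeas.dec some q ≤ p is in μ (Neg ∘ X); by hypothesis r ≤ q with r ∈ μ X; r ∈ μ (Neg ∘ X) by down; contradicts cons.
 dec: if p ∈ μ X take q := p. Otherwise q ≤ p with q ∈ μ (fun a => Neg (X a)); by mono q ∈ μ (fun a => {q | Fo {r | Ic (N a) r} q}): if r ∈ Neg (X a), i.e. ¬ Fo (N a) r' for all r' ≤ r, then Fo {r | Ic (N a) r} r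
   (by fo_or_ic every r' ≤ r has an extension in Ic).
 compl: BMeas.complete with X i x := {q | Fo (N i x) q}, then mono.
 unb: by contradiction: no q ≤ p and x > ν with Fo (N x) q. complete with ι := Bool applied to X and the tail set (BMeas.tail ν): p ∈ μ Z, Z x := {q | ∀ i, ...}; for q ≤ p, ¬ Frc (Z x) q for all x; by mono
   (vacuous) p ∈ μ (fun a => Neg (Z a)); contradicts cons.
 triv: complete with ι := Empty gives p ∈ μ (everything), then mono.
-/

namespace Pool.Agent.SKap

open Cardinal Pool.Agent.SplK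

lemma SMeas_frc {A : Type} [Preorder A] (b : Set A) (p : A) : Frc {q | Fo b q} p ↔ Fo b p := by
  constructor
  · intro h
    exact Fo.dense h
  · intro h q hq
    exact ⟨q, le_rfl, h.down hq⟩

theorem S_meas {K A : Type} [LinearOrder K] [Preorder A] (hK : Inac K) (μ : (K → Set A) → Set A) (h : BMeas K A μ) :
    ∃ U : (K → Set A) → A → Prop, MeasU K A U := by
  refine ⟨fun N p => p ∈ μ (fun x => {q | Fo (N x) q}), ?_, ?_, ?_, ?_, ?_, ?_, ?_⟩
  · intro N p q h1 hq
    exact h.down _ p q h1 hq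
  · intro N p hd
    by_contra h1
    obtain ⟨q, hq, h2⟩ := h.dec _ p h1
    obtain ⟨r, hr, h3⟩ := hd q hq
    exact h.cons _ r h3 (h.down _ q r h2 hr)
  · intro N N' p h1 h2
    exact h.mono _ _ p h1 (fun a q hq hF => (SMeas_frc _ _).2 (h2 a q hq ((SMeas_frc _ _).1 hF)))
  · intro N p
    by_cases h1 : p ∈ μ (fun x => {q | Fo (N x) q})
    · exact ⟨p, le_rfl, Or.inl h1⟩
    · obtain ⟨q, hq, h2⟩ := h.dec _ p h1
      refine ⟨q, hq, Or.inr (h.mono _ _ q h2 ?_)⟩
      intro a q' hq' hF r hr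
      obtain ⟨s, hs, h3⟩ := hF r hr
      refine ⟨s, hs, ?_⟩
      show Fo {r | Ic (N a) r} s
      intro t ht
      rcases fo_or_ic (N a) t with h4 | ⟨u, hu, h4⟩
      · exact absurd h4 (h3 t ht)
      · exact ⟨u, hu, u, h4, le_rfl⟩
  · intro ι N p hι hU
    refine h.mono _ _ p (h.complete ι (fun i x => {q | Fo (N i x) q}) p hι hU) ?_
    intro a q hq hF r hr
    obtain ⟨s, hs, h3⟩ := hF r hr
    refine ⟨s, hs, ?_⟩
    show Fo {q | ∀ i, Fo (N i a) q} s
    exact Fo.of_mem (s := s) (fun i => (SMeas_frc _ _).1 (h3 i)) le_rfl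
  · intro N p hU ν
    by_contra hcon
    push Not at hcon
    have h1 := h.complete Bool (fun i x => if i = true then {q | Fo (N x) q} else {_q : A | ν < x}) p
      (inac_bool hK) (by
        intro i
        cases i
        · simpa using h.tail ν p
        · simpa using hU)
    refine h.cons _ p h1 (h.mono _ _ p h1 ?_)
    intro a q hq hF
    exfalso
    obtain ⟨r, hr, h2⟩ := hF q le_rfl
    have h3 := h2 true
    have h4 := h2 false
    simp only [if_true] at h3
    obtain ⟨s, hs, h5⟩ := h4 r le_rfl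
    have h6 : ν < a := by simpa using h5
    exact hcon r (hr.trans hq) a h6 ((SMeas_frc _ _).1 h3)
  · intro N p hx
    refine h.mono _ _ p (h.complete Empty (fun i => i.elim) p ?_ (fun i => i.elim)) ?_
    · have h1 : #Empty = 0 := Cardinal.mk_eq_zero _
      rw [h1]
      exact lt_of_le_of_lt (Cardinal.zero_le _) hK.unc
    · intro a q hq _
      exact (SMeas_frc _ _).2 (hx a q hq)

end Pool.Agent.SKap
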