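import Pool.Agent.SKap.ADefs

set_option autoImplicit false
set_option linter.all false

/-!
# S_red : every condition has a reduction

PROOF. le: Iff.rfl (inc_le). cpt: XC.cpt gives u : Star P with u.t ∈ X; it is inc of ⟨u.r, ⟨u.t, _⟩⟩. red: suppose z has no reduction: for all u : Star (XPos P X h) there is u' ≤ u with ¬ Cpt (inc u') z.
 D := {u | ¬ Cpt (inc u) z} is dense. By Zorn let A ⊆ D be maximal with Anti A. inc '' A is an antichain of Star P (cpt and injectivity of inc; if inc u, inc v are compatible then u, v are, so u = v),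
 so #(inc '' A) ≤ #K (hcc). z is incompatible with all elements of inc '' A, so by XC.anti there is t with t.t ∈ X incompatible with all elements of inc '' A; t = inc w. Let u' ≤ w, u' ∈ D.
 u' is incompatible with all elements of A (otherwise w is compatible with one), so A ∪ {u'} is an antichain in D and u' ∈ A by maximality; but u' is compatible with itself. Contradiction.
-/

namespace Pool.Agent.SKap

open Cardinal Pool.Agent.SplK

theorem S_red {K R T : Type} [LinearOrder K] [Preorder R] (P : RPos R T) (hcc : CCs K (Star P)) (X : Set T) (h : XC K P X) :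
    Red (inc P X h) := by
  have hcpt : ∀ u v : Star (XPos P X h), Cpt (inc P X h u) (inc P X h v) → Cpt u v := by
    intro u v huv
    obtain ⟨w, hw, hwu, hwv⟩ := h.cpt _ _ u.t.2 v.t.2 huv
    exact ⟨⟨w.r, ⟨w.t, hw⟩⟩, hwu, hwv⟩
  refine ⟨fun u v => Iff.rfl, hcpt, ?_⟩
  intro z
  by_contra hz
  push Not at hz
  -- D dense
  obtain ⟨A, hA⟩ : ∃ A, Maximal (fun A : Set (Star (XPos P X h)) => (∀ u ∈ A, ¬ Cpt (inc P X h u) z) ∧ Anti A) A := by
    apply zorn_subset
    intro c hc hchain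
    refine ⟨⋃₀ c, ⟨?_, ?_⟩, fun s hs => Set.subset_sUnion_of_mem hs⟩
    · rintro u ⟨a, ha, hua⟩
      exact (hc ha).1 u hua
    · rintro u ⟨a, ha, hua⟩ v ⟨b, hb, hvb⟩ huv
      rcases hchain.total ha hb with hab | hab
      · exact (hc hb).2 u (hab hua) v hvb huv
      · exact (hc ha).2 u hua v (hab hvb) huv
  have hB1 : Anti (inc P X h '' A) := by
    rintro _ ⟨u, hu, rfl⟩ _ ⟨v, hv, rfl⟩ huv
    rw [hA.prop.2 u hu v hv (hcpt u v huv)]
  obtain ⟨t, ht, ht1⟩ := h.anti (inc P X h '' A) (hcc _ hB1) (by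
    rintro _ ⟨u, hu, rfl⟩
    exact u.t.2) ⟨z, by
    rintro _ ⟨u, hu, rfl⟩
    exact hA.prop.1 u hu⟩
  obtain ⟨u', hu', hu'z⟩ := hz ⟨t.r, ⟨t.t, ht⟩⟩
  have hnot : ∀ a ∈ A, ¬ Cpt a u' := by
    rintro a ha ⟨w, hwa, hwu⟩
    refine ht1 (inc P X h a) ⟨a, ha, rfl⟩ ⟨inc P X h w, ?_, ?_⟩
    · exact (inc_le P X h w a).2 hwa
    · exact (inc_le P X h w ⟨t.r, ⟨t.t, ht⟩⟩).2 (hwu.trans hu')
  have hmem : u' ∈ A := by
    have := hA.le_of_ge (y := insert u' A) ⟨?_, ?_⟩ (Set.subset_insert _ _)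
    · exact this (Set.mem_insert _ _)
    · rintro u (rfl | hu)
      · exact hu'z
      · exact hA.prop.1 u hu
    · rintro u (rfl | hu) v (rfl | hv) huv
      · rfl
      · exact absurd (let ⟨w, h1, h2⟩ := huv; ⟨w, h2, h1⟩) (hnot v hv)
      · exact absurd huv (hnot u hu)
      · exact hA.prop.2 u hu v hv huv
  exact hnot u' hmem ⟨u', le_rfl, le_rfl⟩

end Pool.Agent.SKap
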