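import Pool.Agent.SKap.ADefs
import Pool.Agent.SKap.SClos
import Pool.Agent.SKap.CGch

set_option autoImplicit false
set_option linter.all false

/-!
# S_X : the small suborder
-/

namespace Pool.Agent.SKap

open Cardinal Pool.Agent.SplK

section sx

variable {R T : Type} [Preorder R]

open Classical in
noncomputable def sx_f2 (P : RPos R T) (a : Set T) (x : Set R × a × a) : T :=
  if h : ∀ r ∈ x.1, ∀ r' ≤ r, r' ∈ x.1 then Classical.choose (P.mix x.1 h x.2.1.1 x.2.2.1) else P.top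

open Classical in
noncomputable def sx_f3 (P : RPos R T) (a : Set T) (x : R × Set a) : T :=
  if h : ∃ t, ∀ i : x.2, P.le x.1 t (i.1.1) then Classical.choose h else P.top

open Classical in
noncomputable def sx_f4 (P : RPos R T) (a : Set T) (x : (R × a) × (R × a)) : T :=
  if h : ∃ u : Star P, u ≤ (⟨x.1.1, x.1.2.1⟩ : Star P) ∧ u ≤ (⟨x.2.1, x.2.2.1⟩ : Star P) then (Classical.choose h).t else P.top

open Classical in
noncomputable def sx_f5 (P : RPos R T) (a : Set T) (x : Set (R × a)) : T :=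
  if h : ∃ t : Star P, ∀ s ∈ x, ¬ Cpt (⟨s.1, s.2.1⟩ : Star P) t then (Classical.choose h).t else P.top

noncomputable def sx_F (P : RPos R T) (a : Set T) : Set T :=
  {P.top} ∪ (Set.range (sx_f2 P a) ∪ (Set.range (sx_f3 P a) ∪ (Set.range (sx_f4 P a) ∪ Set.range (sx_f5 P a))))

lemma sx_top (P : RPos R T) (a : Set T) : P.top ∈ sx_F P a := Or.inl rfl

lemma sx_m2 (P : RPos R T) (a : Set T) (x : Set R × a × a) : sx_f2 P a x ∈ sx_F P a := Or.inr (Or.inl ⟨x, rfl⟩)

lemma sx_m3 (P : RPos R T) (a : Set T) (x : R × Set a) : sx_f3 P a x ∈ sx_F P a := Or.inr (Or.inr (Or.inl ⟨x, rfl⟩))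

lemma sx_m4 (P : RPos R T) (a : Set T) (x : (R × a) × (R × a)) : sx_f4 P a x ∈ sx_F P a :=
  Or.inr (Or.inr (Or.inr (Or.inl ⟨x, rfl⟩)))

lemma sx_m5 (P : RPos R T) (a : Set T) (x : Set (R × a)) : sx_f5 P a x ∈ sx_F P a :=
  Or.inr (Or.inr (Or.inr (Or.inr ⟨x, rfl⟩)))

lemma sx_card (P : RPos R T) (a : Set T) (κ l : Cardinal.{0}) (hκ : ℵ₀ ≤ κ) (hl : 2 ^ κ ≤ l) (hR : #R ≤ κ) (ha : #a ≤ κ) :
    #(sx_F P a) ≤ l := by
  have hκl : κ ≤ l := (Cardinal.cantor κ).le.trans hl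
  have hl0 : ℵ₀ ≤ l := hκ.trans hκl
  have hll : l * l = l := Cardinal.mul_eq_self hl0
  have hlll : l + l = l := Cardinal.add_eq_self hl0
  have hκκ : κ * κ = κ := Cardinal.mul_eq_self hκ
  have hRa : #(R × a) ≤ κ := by
    rw [Cardinal.mk_prod, Cardinal.lift_id, Cardinal.lift_id]
    exact (mul_le_mul' hR ha).trans hκκ.le
  have h1 : #({P.top} : Set T) ≤ l := by
    rw [Cardinal.mk_singleton]
    exact (Cardinal.one_lt_aleph0.le).trans hl0
  have h2 : #(Set.range (sx_f2 P a)) ≤ l := by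
    refine Cardinal.mk_range_le.trans ?_
    rw [Cardinal.mk_prod, Cardinal.mk_prod, Cardinal.mk_set]
    simp only [Cardinal.lift_id]
    calc 2 ^ #R * (#a * #a) ≤ l * (κ * κ) :=
          mul_le_mul' ((Cardinal.power_le_power_left two_ne_zero hR).trans hl) (mul_le_mul' ha ha)
      _ ≤ l * l := by rw [hκκ]; exact mul_le_mul' le_rfl hκl
      _ = l := hll
  have h3 : #(Set.range (sx_f3 P a)) ≤ l := by
    refine Cardinal.mk_range_le.trans ?_
    rw [Cardinal.mk_prod, Cardinal.mk_set]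
    simp only [Cardinal.lift_id]
    calc #R * 2 ^ #a ≤ l * l :=
          mul_le_mul' (hR.trans hκl) ((Cardinal.power_le_power_left two_ne_zero ha).trans hl)
      _ = l := hll
  have h4 : #(Set.range (sx_f4 P a)) ≤ l := by
    refine Cardinal.mk_range_le.trans ?_
    rw [Cardinal.mk_prod (R × a)]
    simp only [Cardinal.lift_id]
    calc #(R × a) * #(R × a) ≤ l * l := mul_le_mul' (hRa.trans hκl) (hRa.trans hκl)
      _ = l := hll
  have h5 : #(Set.range (sx_f5 P a)) ≤ l := by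
    refine Cardinal.mk_range_le.trans ?_
    rw [Cardinal.mk_set]
    exact (Cardinal.power_le_power_left two_ne_zero hRa).trans hl
  have hu : ∀ A B : Set T, #A ≤ l → #B ≤ l → #(A ∪ B : Set T) ≤ l := fun A B hA hB =>
    (Cardinal.mk_union_le A B).trans ((add_le_add hA hB).trans hlll.le)
  exact hu _ _ h1 (hu _ _ h2 (hu _ _ h3 (hu _ _ h4 h5)))

end sx

theorem S_X {K R T : Type} [LinearOrder K] [Preorder R] (hG : GCH0) (hK : Inac K) (hR : #R ≤ #K) (P : RPos R T)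
    (hc : P.Closed #K) (n : ℕ) (F : Set T) (hF : #F ≤ pl #K n) :
    ∃ X : Set T, F ⊆ X ∧ #X ≤ pl #K (n + 1) ∧ XC K P X := by
  have hκ : ℵ₀ ≤ #K := hK.unc.le
  have h2 : 2 ^ #K ≤ pl #K (n + 1) := by
    have := C_two hG #K hκ 0
    rw [pl_zero] at this
    rw [this]
    exact C_plm _ _ _ (by omega)
  have hreg : (Order.succ #K).IsRegular := Cardinal.isRegular_succ hκ
  obtain ⟨X, hX0, hX1, hX2⟩ := S_clos (T := T) (Order.succ #K) (pl #K (n + 1)) hreg
    (by rw [pl_succ]; exact Order.succ_le_succ (C_ple _ _))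
    (by
      intro c hc
      have h0 : pl #K (n + 1) ≠ 0 := by
        have : ℵ₀ ≤ pl #K (n + 1) := hκ.trans (C_ple _ _)
        exact (Cardinal.aleph0_pos.trans_le this).ne'
      exact (Cardinal.power_le_power_left h0 (Order.lt_succ_iff.1 hc)).trans (C_pow hG #K hκ n))
    (sx_F P)
    (fun a ha => sx_card P a #K _ hκ h2 hR (Order.lt_succ_iff.1 ha)) F
    (hF.trans (C_plm _ _ _ (by omega)))
  have hlt : ∀ c : Cardinal.{0}, c ≤ #K → c < Order.succ #K := fun c hc => Order.lt_succ_iff.2 hc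
  refine ⟨X, hX0, hX1, ?_, ?_, ?_, ?_, ?_⟩
  · exact hX2 ∅ (Set.empty_subset _) (hlt _ (by rw [Cardinal.mk_emptyCollection]; exact zero_le')) (sx_top P ∅)
  · intro b hb t ht t' ht'
    have ha : ({t, t'} : Set T) ⊆ X := by
      intro x hx
      rcases hx with rfl | hx
      · exact ht
      · rw [Set.mem_singleton_iff.1 hx]; exact ht'
    have hsub := hX2 {t, t'} ha (hlt _ ((Cardinal.lt_aleph0_of_finite _).le.trans hκ))
    refine ⟨sx_f2 P {t, t'} (b, ⟨t, Or.inl rfl⟩, ⟨t', Or.inr rfl⟩), hsub (sx_m2 P _ _), ?_⟩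
    unfold sx_f2
    rw [dif_pos hb]
    exact Classical.choose_spec (P.mix b hb t t')
  · intro ι f r hι hf hd
    have ha : Set.range f ⊆ X := by
      rintro _ ⟨i, rfl⟩
      exact hf i
    have hr : #(Set.range f) < #K := Cardinal.mk_range_le.trans_lt hι
    have hsub := hX2 (Set.range f) ha (hlt _ hr.le)
    have hex : ∃ t, ∀ i : (Set.univ : Set (Set.range f)), P.le r t (i.1.1) := by
      refine hc (Set.univ : Set (Set.range f)) (fun i => i.1.1) r (by rw [Cardinal.mk_univ]; exact hr) ?_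
      rintro ⟨⟨_, i, rfl⟩, -⟩ ⟨⟨_, j, rfl⟩, -⟩ r' hr'
      obtain ⟨r'', h1, k, h2⟩ := hd i j r' hr'
      exact ⟨r'', h1, ⟨⟨f k, k, rfl⟩, trivial⟩, h2⟩
    refine ⟨sx_f3 P (Set.range f) (r, Set.univ), hsub (sx_m3 P _ _), ?_⟩
    unfold sx_f3
    rw [dif_pos hex]
    intro i
    exact Classical.choose_spec hex ⟨⟨f i, i, rfl⟩, trivial⟩
  · intro s t hs ht hst
    have ha : ({s.t, t.t} : Set T) ⊆ X := by
      intro x hx
      rcases hx with rfl | hx
      · exact hs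
      · rw [Set.mem_singleton_iff.1 hx]; exact ht
    have hsub := hX2 {s.t, t.t} ha (hlt _ ((Cardinal.lt_aleph0_of_finite _).le.trans hκ))
    have hm := hsub (sx_m4 P {s.t, t.t} ((s.r, ⟨s.t, Or.inl rfl⟩), (t.r, ⟨t.t, Or.inr rfl⟩)))
    have hex : ∃ u : Star P, u ≤ (⟨s.r, s.t⟩ : Star P) ∧ u ≤ (⟨t.r, t.t⟩ : Star P) := hst
    refine ⟨Classical.choose hex, ?_, Classical.choose_spec hex⟩
    unfold sx_f4 at hm
    rw [dif_pos hex] at hm
    exact hm
  · intro A hA hAX hex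
    have ha : Star.t '' A ⊆ X := by
      rintro _ ⟨s, hs, rfl⟩
      exact hAX s hs
    have hsub := hX2 (Star.t '' A) ha (hlt _ (Cardinal.mk_image_le.trans hA))
    have hm := hsub (sx_m5 P (Star.t '' A) {x | (⟨x.1, x.2.1⟩ : Star P) ∈ A})
    have hex' : ∃ t : Star P, ∀ s ∈ {x : R × (Star.t '' A : Set T) | (⟨x.1, x.2.1⟩ : Star P) ∈ A},
        ¬ Cpt (⟨s.1, s.2.1⟩ : Star P) t := by
      obtain ⟨t, ht⟩ := hex
      exact ⟨t, fun s hs => ht _ hs⟩
    unfold sx_f5 at hm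
    rw [dif_pos hex'] at hm
    refine ⟨Classical.choose hex', hm, fun s hs => ?_⟩
    exact Classical.choose_spec hex' (s.r, ⟨s.t, s, hs, rfl⟩) hs

end Pool.Agent.SKap
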