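import Pool.Agent.SKap.ADefs
import Pool.Agent.SKap.SX
import Pool.Agent.SKap.SRed
import Pool.Agent.SKap.SMeas
import Pool.Agent.SKap.SCodes

set_option autoImplicit false
set_option linter.all false

/-!
# S_step : the step theorem

PROOF. S_X: X, #X ≤ pl #K (n+1), XC. S_red. HypH for XPos P X h (XPos_closed; #X ≤ pl #K (n+1)): μ; S_meas: U. S_codes: 2 ^ (#R * #X * #K) ≤ 2 ^ pl #K (n+1) ≤ #C (#R, #K ≤ pl #K (n+1), infinite).
-/

namespace Pool.Agent.SKap

open Cardinal Pool.Agent.SplK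

theorem S_step {K R T C : Type} [LinearOrder K] [Preorder R] [Inhabited C] (hG : GCH0) (hK : Inac K) (hR : #R ≤ #K)
    (H : HypH K R) (P : RPos R T) (hc : P.Closed #K) (hcc : CCs K (Star P)) (n : ℕ) (F : Set T) (hF : #F ≤ pl #K n)
    (hC : ∀ m, (2 : Cardinal.{0}) ^ pl #K m ≤ #C) :
    ∃ d : C → K → Set (R × T), CodesL K P.le d F := by
  obtain ⟨X, hFX, hX, hXC⟩ := S_X hG hK hR P hc n F hF
  have hi := S_red P hcc X hXC
  obtain ⟨μ, hμ⟩ := H (n + 1) X (XPos P X hXC) (XPos_closed P X hXC) hX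
  obtain ⟨U, hU⟩ := S_meas hK μ hμ
  have hK0 : ∀ m : ℕ, #K ≤ pl #K m := by
    intro m
    induction m with
    | zero => exact le_rfl
    | succ m ih =>
      rw [pl_succ]
      exact ih.trans (Order.le_succ _)
  have hinf : ℵ₀ ≤ pl #K (n + 1) := hK.unc.le.trans (hK0 _)
  refine S_codes P X hXC hi U hU F hFX (le_trans ?_ (hC (n + 1)))
  refine Cardinal.power_le_power_left two_ne_zero ?_
  exact Cardinal.mul_le_of_le hinf (Cardinal.mul_le_of_le hinf (hR.trans (hK0 _)) hX) (hK0 _)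

end Pool.Agent.SKap
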