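import Pool.Agent.SKap.AMain
import Pool.Agent.SplK.PrepDefs
import Pool.Agent.SplC.VDefs

set_option autoImplicit false
set_option linter.all false

/-!
# From the preparation to the forcing notion of block C
-/

namespace Pool.Agent.SKap

open Cardinal Pool.Agent.SplK

theorem kfrc_of_prep (hG : GCH0) (K : Type) [LinearOrder K] (hK : Inac K) (R : Type) [Preorder R] [OrderTop R]
    (h : Prep K R) : ∃ (T : Type) (P : RPos R T), SplC.KFrc (Star P) K := by
  obtain ⟨T, P, hc, hcc, hns⟩ := blockA hG K hK R h.card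
    (fun S hS => h.cc S fun p hp q hq hne hz => hne (hS p hp q hq hz)) h.meas
  refine ⟨T, P, ?_, ?_, ?_, ?_⟩
  · exact h.reg T P hc
  · intro S hS
    exact hcc S fun p hp q hq hz => by
      by_contra hne
      obtain ⟨z, h1, h2⟩ := hz
      exact hS p hp q hq hne z h1 h2
  · intro n I hI x p
    obtain ⟨q, hq, B, h1, h2⟩ := hns n I hI x p
    refine ⟨q, hq, B, h1, fun i q' hq' => ?_⟩
    obtain ⟨q'', hq'', a, h3⟩ := h2 i q' hq'
    refine ⟨q'', hq'', a, ?_⟩
    rcases h3 with h3 | h3
    · exact Or.inl h3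
    · right
      intro b hb E hE hD E' hE' hx
      obtain ⟨s, hs, h4⟩ := hx
      exact h3 b hb E hE hD s hs E' hE' h4
  · intro b p
    obtain ⟨q, hq, m, z, h1⟩ := h.pw T P hc b p
    exact ⟨q, hq, m, _, by rw [Cardinal.mk_toType, Cardinal.card_ord], z, h1⟩

end Pool.Agent.SKap
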